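import Pool.Agent.H17N.ResU
import Pool.Agent.H62.EL.Core
import Pool.Agent.H17EF.MainE

/-!
# H17N BaseA: transport to a Euclidean space

`L : V ≃L[ℂ] EN M`, `X' = L.symm ⁻¹' X`, `u' x = u (L.symm x)`.  `isCone_transport L`, `tan_transport L` (H36/BP/Nodal.lean: tangent vectors), `Pool.Agent.H17EF.germ_transport`, `exists_chart_of_germ` and the proof of `H17EF.charts` (H17EF/Bridge.lean; these are stated for `LE N`, copy them for a general `L` if necessary).

* `edata`: cone: `isCone_transport`; charts: as `H17EF.charts`; tor: composition of the local lifts with `L.symm`; fib: a differentiable `F : ℂ → EN M` without zeros gives `f z = L.symm (F z)`, `HolP f z` with itself (`⟨f, _, _, Pr.refl⟩`); `¬ Pr (f z) (f w)` because `F z ≠ c • F w` for all `c`;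
  nc: `u' x - b ∈ Λ`: `ru0_nc` at `L.symm x` gives `σ, τ, i, j`; the germ chart `L ∘ σ`, `τ ∘ L.symm` (`germ_transport`); `u (σ p) - (b + p.1^i p.2^j) = (u (σ p) - (u x + ..)) + (u x - b) ∈ Λ`.
* `exists_tform`: `toFun z x v w = α z (L.symm x) (L.symm v) (L.symm w)`; the fields by `tan_transport` and `fderiv` of `L.symm ∘ φ`.  `Per`, `VanZero` immediate; `Thin` (pattern: `H17G.tform_thin` in H17G/ChG.lean): let `χ : Chart X'`, `υ` a lift near `p ∈ ball 0 2` with `tc α χ υ y = 0` near `p`.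
  `σ y = L.symm (χ.σ (p + y))`, `τ x = χ.q (L x) - p` is an `IsChart` of `X` at `L.symm (χ.σ p)` (the fields from the fields of `Chart`), `υ₁ y = υ (p + y)`: contradiction to `ThinF`.
-/

set_option autoImplicit false

open Topology Filter

namespace Pool.Agent.H17N

open Pool.Agent.H17BP (Surface IsChart Tan Pr HolP ResN)
open Pool.Agent.H36.BP (EN isCone_transport germ_transport tan_transport)
open Pool.Agent.H62.EF (Lat exists_chart_of_germ)
open Pool.Agent.H62.EL (EData TForm Per VanZero Thin BadSet)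

variable {V : Type} [NormedAddCommGroup V] [NormedSpace ℂ V] [FiniteDimensional ℂ V] {X : Set V} {Λ Γ : AddSubgroup ℂ} {u : V → ℂ}
  {B : Set ℂ} {α : ℂ → V → V → V → ℂ} {δ : ℝ} {M : ℕ}

theorem edata (L : V ≃L[ℂ] EN M) (hΛ : Lat Λ) (hΓ : Lat Γ) (hle : Γ ≤ Λ) (hbad : BadSet B Λ δ) (h0 : ∀ b ∈ B, 4 * δ ≤ ‖b‖)
    (h : UData X Λ Γ u B α) (hr : ∀ x ∈ X, RU X Λ u x 0) : EData (L.symm ⁻¹' X : Set (EN M)) Λ (fun x => u (L.symm x)) Γ B δ := by
  refine ⟨isCone_transport L h.surf, ?_, ?_, hΛ, hΓ, hle, hbad, h0, ?_, ?_⟩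
  · intro x hx
    obtain ⟨σ, τ, hc, hx0⟩ := h.surf.chart (L.symm x) hx
    have hg := germ_transport L hc
    obtain ⟨χ, h1, h2⟩ := exists_chart_of_germ (isCone_transport L h.surf) hg
    have h3 : L (σ 0) = x := by rw [hx0, ContinuousLinearEquiv.apply_symm_apply]
    rw [h3] at h1 h2
    exact ⟨χ, h1, h2⟩
  · constructor
    · intro x hx c hc
      have h1 := h.tor.smul (L.symm x) hx c hc
      show u (L.symm (c • x)) - u (L.symm x) ∈ Λ
      rw [map_smul]
      exact h1
    · intro x hx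
      obtain ⟨v, hv, hv'⟩ := h.tor.loc (L.symm x) hx
      refine ⟨fun y => v (L.symm y), ?_, ?_⟩
      · exact AnalyticAt.comp (g := v) (f := fun y : EN M => L.symm y) hv
          ((L.symm : EN M →L[ℂ] V).analyticAt x)
      · have h3 : Tendsto (fun y : EN M => L.symm y) (𝓝 x) (𝓝 (L.symm x)) := L.symm.continuous.tendsto x
        filter_upwards [h3.eventually hv'] with y hy hyX
        exact hy hyX
  · intro F hF hFX hFu hne
    refine h.fib (fun z => L.symm (F z)) (fun z => ?_) hFX hFu ?_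
    · refine ⟨fun z => L.symm (F z), ((L.symm : EN M →L[ℂ] V).analyticAt _).comp (hF.analyticAt z), ?_,
        Eventually.of_forall fun w => ⟨1, one_ne_zero, (one_smul _ _).symm⟩⟩
      intro h1
      have h2 : L.symm (F z) ∈ X := hFX z
      have h3 : L.symm (F z) = 0 := h1
      rw [h3] at h2
      exact h.surf.zero h2
    · obtain ⟨z, w, hzw⟩ := hne
      refine ⟨z, w, ?_⟩
      rintro ⟨c, -, hc⟩
      apply hzw c
      have h1 := congrArg L hc
      rwa [map_smul, ContinuousLinearEquiv.apply_symm_apply, ContinuousLinearEquiv.apply_symm_apply] at h1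
  · intro b _ x hx hub
    obtain ⟨σ, τ, i, j, hc, hσ0, hij, hu⟩ := ru0_nc (hr (L.symm x) hx)
    refine ⟨fun p => L (σ p), fun y => τ (L.symm y), i, j, germ_transport L hc, ?_, hij, ?_⟩
    · show L (σ 0) = x
      rw [hσ0, ContinuousLinearEquiv.apply_symm_apply]
    · filter_upwards [hu] with p hp
      show u (L.symm (L (σ p))) - (b + p.1 ^ i * p.2 ^ j) ∈ Λ
      rw [ContinuousLinearEquiv.symm_apply_apply]
      have h1 := Λ.add_mem hp hub
      have h2 : u (σ p) - (u (L.symm x) + p.1 ^ i * p.2 ^ j) + (u (L.symm x) - b) =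
          u (σ p) - (b + p.1 ^ i * p.2 ^ j) := by ring
      have h3 : u (σ p) - (u (L.symm x) + p.1 ^ i * p.2 ^ j) + ((fun x => u (L.symm x)) x - b) =
          u (σ p) - (b + p.1 ^ i * p.2 ^ j) := h2
      rwa [h3] at h1

/-- the transported form -/
noncomputable def tformN (L : V ≃L[ℂ] EN M) (h : UData X Λ Γ u B α) :
    TForm (L.symm ⁻¹' X : Set (EN M)) Λ (fun x => u (L.symm x)) where
  toFun z x v w := α z (L.symm x) (L.symm v) (L.symm w)
  add_smul z x hx hz v w hv hw a b := by
    rw [map_add, map_add, map_smul, map_smul]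
    exact h.form.add_smul z _ hx hz _ (tan_transport L hv) _ (tan_transport L hw) a b
  det z x hx hz v w hv hw a b c d := by
    rw [map_add, map_add, map_smul, map_smul, map_smul, map_smul]
    exact h.form.det z _ hx hz _ (tan_transport L hv) _ (tan_transport L hw) a b c d
  scale z x hx hz v w hv hw c hc := by
    rw [map_smul, map_smul, map_smul]
    exact h.form.scale z _ hx hz _ (tan_transport L hv) _ (tan_transport L hw) c hc
  analytic φ υ p hφ hυ hφX := by
    have h1 : AnalyticAt ℂ (fun y => L.symm (φ y)) p := ((L.symm : EN M →L[ℂ] V).analyticAt _).comp hφ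
    have h2 := h.form.analytic _ υ p h1 hυ hφX
    refine h2.congr ?_
    filter_upwards [hφ.eventually_analyticAt] with y hy
    have h3 : HasFDerivAt (fun y => L.symm (φ y)) ((L.symm : EN M →L[ℂ] V).comp (fderiv ℂ φ y)) y :=
      (L.symm : EN M →L[ℂ] V).hasFDerivAt.comp y hy.differentiableAt.hasFDerivAt
    rw [h3.fderiv]
    rfl

theorem exists_tform (L : V ≃L[ℂ] EN M) (h : UData X Λ Γ u B α) :
    ∃ α' : TForm (L.symm ⁻¹' X : Set (EN M)) Λ (fun x => u (L.symm x)), Per α' Γ ∧ VanZero α' ∧ Thin α' := by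
  refine ⟨tformN L h, ?_, ?_, ?_⟩
  · intro z l hl x hx hxz v w hv hw
    exact h.per z l hl _ hx hxz _ (tan_transport L hv) _ (tan_transport L hw)
  · intro x hx hxz v w hv hw
    exact h.van _ hx hxz _ (tan_transport L hv) _ (tan_transport L hw)
  · intro χ υ p hp hυ hl ht
    have hadd : Tendsto (fun y : ℂ × ℂ => p + y) (𝓝 0) (𝓝 p) := by
      have h0 : Continuous (fun y : ℂ × ℂ => p + y) := continuous_const.add continuous_id
      have h1 : Tendsto (fun y : ℂ × ℂ => p + y) (𝓝 0) (𝓝 (p + 0)) := h0.tendsto 0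
      rwa [add_zero] at h1
    have hball : ∀ᶠ y in 𝓝 (0 : ℂ × ℂ), p + y ∈ Metric.ball (0 : ℂ × ℂ) 2 :=
      hadd.eventually (Metric.isOpen_ball.mem_nhds hp)
    have hanadd : AnalyticAt ℂ (fun y : ℂ × ℂ => p + y) 0 := analyticAt_const.add analyticAt_id
    have hσ0 : L (L.symm (χ.σ (p + 0))) = χ.σ p := by
      rw [ContinuousLinearEquiv.apply_symm_apply, add_zero]
    have hσX : ∀ y : ℂ × ℂ, p + y ∈ Metric.ball (0 : ℂ × ℂ) 2 → L.symm (χ.σ (p + y)) ∈ X :=
      fun y hy => (χ.σ_mem _ hy).1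
    have hLt : Tendsto (fun x : V => L x) (𝓝 (L.symm (χ.σ (p + 0)))) (𝓝 (χ.σ p)) := by
      have := L.continuous.tendsto (L.symm (χ.σ (p + 0)))
      rwa [hσ0] at this
    have hU : ∀ᶠ x in 𝓝 (L.symm (χ.σ (p + 0))), L x ∈ χ.U :=
      hLt.eventually (χ.isOpen_U.mem_nhds (χ.σ_mem p hp).2.1)
    have hchart : IsChart X (fun y => L.symm (χ.σ (p + y))) (fun x => χ.q (L x) - p) := by
      refine ⟨?_, ?_, ?_, ?_, ?_, ?_, ?_⟩
      · have h1 : AnalyticAt ℂ χ.σ (p + 0) := by
          rw [add_zero]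
          exact χ.σ_an p hp
        have h2 : AnalyticAt ℂ (fun y => χ.σ (p + y)) 0 :=
          AnalyticAt.comp (g := χ.σ) (f := fun y : ℂ × ℂ => p + y) h1 hanadd
        exact AnalyticAt.comp (g := fun y : EN M => L.symm y) (f := fun y => χ.σ (p + y))
          ((L.symm : EN M →L[ℂ] V).analyticAt _) h2
      · filter_upwards [hball] with y hy
        exact hσX y hy
      · intro h1
        have h2 : L.symm (χ.σ (p + 0)) ∈ X := hσX 0 (by rwa [add_zero])
        have h3 : L.symm (χ.σ (p + 0)) = 0 := h1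
        rw [h3] at h2
        exact h.surf.zero h2
      · have h1 : AnalyticAt ℂ χ.q (L (L.symm (χ.σ (p + 0)))) := by
          rw [hσ0]
          exact χ.q_an _ (χ.σ_mem p hp).2.1
        exact (AnalyticAt.comp (g := χ.q) (f := fun x : V => L x) h1
          ((L : V →L[ℂ] EN M).analyticAt _)).sub analyticAt_const
      · filter_upwards [hball] with y hy
        show χ.q (L (L.symm (χ.σ (p + y)))) - p = y
        rw [ContinuousLinearEquiv.apply_symm_apply, (χ.σ_mem _ hy).2.2]
        abel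
      · filter_upwards [hU] with x hx hxX
        have hx' : L x ∈ (L.symm ⁻¹' X : Set (EN M)) := by
          show L.symm (L x) ∈ X
          rwa [ContinuousLinearEquiv.symm_apply_apply]
        obtain ⟨-, c, hc, hcx⟩ := χ.surj (L x) hx' hx
        refine ⟨c, hc, ?_⟩
        show x = c • L.symm (χ.σ (p + (χ.q (L x) - p)))
        have h1 : p + (χ.q (L x) - p) = χ.q (L x) := by abel
        rw [h1, ← map_smul, ← hcx, ContinuousLinearEquiv.symm_apply_apply]
      · have h1 : ∀ᶠ z in 𝓝 (L.symm (χ.σ (p + 0)), (1 : ℂ)), L z.1 ∈ χ.U :=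
          (continuous_fst.tendsto (L.symm (χ.σ (p + 0)), (1 : ℂ))).eventually hU
        have h2 : ∀ᶠ z in 𝓝 (L.symm (χ.σ (p + 0)), (1 : ℂ)), z.2 ≠ 0 :=
          (continuous_snd.tendsto (L.symm (χ.σ (p + 0)), (1 : ℂ))).eventually
            (isOpen_ne.mem_nhds one_ne_zero)
        filter_upwards [h1, h2] with z hz1 hz2
        show χ.q (L (z.2 • z.1)) - p = χ.q (L z.1) - p
        rw [map_smul, χ.q_smul _ hz1 _ hz2]
    have hυ1 : AnalyticAt ℂ (fun y => υ (p + y)) 0 := by
      refine AnalyticAt.comp (g := υ) (f := fun y : ℂ × ℂ => p + y) ?_ hanadd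
      show AnalyticAt ℂ υ (p + 0)
      rwa [add_zero]
    refine h.thin _ _ _ hchart hυ1 ?_ ?_
    · exact hadd.eventually hl
    · filter_upwards [hadd.eventually ht, hball] with y hy hyb
      have h1 : HasFDerivAt χ.σ (fderiv ℂ χ.σ (p + y)) (p + y) :=
        (χ.σ_an _ hyb).differentiableAt.hasFDerivAt
      have h2 : HasFDerivAt (fun y : ℂ × ℂ => p + y) (ContinuousLinearMap.id ℂ (ℂ × ℂ)) y :=
        (hasFDerivAt_id y).const_add p
      have h3 : HasFDerivAt (fun y => χ.σ (p + y)) (fderiv ℂ χ.σ (p + y)) y := by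
        have := HasFDerivAt.comp (g := χ.σ) (f := fun y : ℂ × ℂ => p + y) y h1 h2
        rwa [ContinuousLinearMap.comp_id] at this
      have h4 : HasFDerivAt (fun y => L.symm (χ.σ (p + y)))
          ((L.symm : EN M →L[ℂ] V).comp (fderiv ℂ χ.σ (p + y))) y :=
        HasFDerivAt.comp (g := fun y : EN M => L.symm y) (f := fun y => χ.σ (p + y)) y
          ((L.symm : EN M →L[ℂ] V).hasFDerivAt) h3
      rw [h4.fderiv]
      exact hy

end Pool.Agent.H17N
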