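import Pool.Agent.H17BP.Art
import Pool.Agent.H17BP.FinG
import Pool.Agent.EG.HyLvl

/-!
# H17N GermC: critical points and level curves near a point

`g` is the germ of an analytic function on `ℂ²` with `g 0 = 0`.

* `crit_near`: near `0` all critical points of `g` are zeros of `g`.  If `g` vanishes identically near `0` this is trivial.  Otherwise there is `n` with
  `ResN n g` (`exists_resN`, H17BP/Art); induction on `n`.
  - `Mono g`: `g x = S x ^ a * T x ^ b * v x`, `S, T` local coordinates, `v 0 ≠ 0`.  `θ = (S, T)` is biholomorphic, so with `θ'` its inverse germ (`Bihol.exists_inv`) it is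
    enough to treat `g ∘ θ'`, that is `G p = p.1 ^ a * p.2 ^ b * w p`, `w 0 ≠ 0`: if `p.1, p.2 ≠ 0` (they are `≠ 0` when the exponent is `≠ 0` and `G p ≠ 0`) and, say, `a ≥ 1`:
    `∂₁ G (p) * p.1 = p.1 ^ a * p.2 ^ b * (a * w p + p.1 * ∂₁ w p)`, and `a * w p + p.1 ∂₁ w p → a * w 0 ≠ 0`.  `a = b = 0` is excluded by `g 0 = 0`.
  - step: suppose `ResN n (g ∘ β)` for all `BChart β`.  If the statement is false there is an ultrafilter `U ≤ 𝓝 0` with `g p ≠ 0`, `fderiv ℂ g p = 0` for `U`-almost all `p`.  `p ≠ 0`.  As in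
    the private lemmas `FinG_key1`, `FinG_key2`, `FinG_lim` of H17BP/FinG.lean: either `p.2 / p.1 → c` along `U` and `p.1 ≠ 0`: then `p = bl c (p.1, p.2 / p.1 - c)`, and the point
    `(p.1, p.2 / p.1 - c)` tends to `0`; `(g ∘ bl c)` is `≠ 0` there and its derivative is `fderiv g p ∘ ... = 0`: contradiction to the induction hypothesis for `g ∘ bl c`
    (`BChart (bl c)`; a proof that `bl c` and `blInf` are `BChart`s is in H17BP); or the same with `blInf` (`p.1 / p.2 → 0`, `p.2 ≠ 0`).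
* `level_near`: the same induction; `Q` is composed with `bl c`, `blInf` (it does not vanish identically after the blow-up: compare the private lemma `BlowM_van` of H17BP/BlowM.lean), the curve
  `π` is replaced by `z ↦ ((π z).1, (π z).2 / (π z).1 - c)`, which is analytic at `0` because `(π 0).1 ≠ 0`, and its derivative vanishes only if `deriv π 0 = 0`.
  `Mono g`: after the change of coordinates by `θ'`, and the unit absorbed in one coordinate (`v = k ^ a` near `0`, if `a ≥ 1`: `(S * k, T)` are coordinates), `g` is `p.1 ^ a * p.2 ^ b` and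
  this is `EG.level_set` (for the function `Q` on a small ball; scale the ball to radius `2`).  It is convenient to prove the invariance of the two statements under `Bihol` first.
-/

set_option autoImplicit false

open Topology Filter Metric

namespace Pool.Agent.H17N

open Pool.Agent.H17BP (Bihol Coord Mono bl blInf BChart ResN exists_resN)

/-- `β` has an analytic right inverse at `β p` with value `p`. -/
private def GermC_Rt (β : ℂ × ℂ → ℂ × ℂ) (p : ℂ × ℂ) : Prop :=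
  ∃ γ : ℂ × ℂ → ℂ × ℂ, AnalyticAt ℂ γ (β p) ∧ γ (β p) = p ∧ ∀ᶠ q in 𝓝 (β p), β (γ q) = q

/-- the two properties at the point `p` -/
private def GermC_Gd (g Q : ℂ × ℂ → ℂ) (p : ℂ × ℂ) : Prop :=
  (g p ≠ 0 → fderiv ℂ g p ≠ 0) ∧
  ∀ π : ℂ → ℂ × ℂ, AnalyticAt ℂ π 0 → π 0 = p → g p ≠ 0 → (∀ᶠ z in 𝓝 (0 : ℂ), g (π z) = g p) →
    (∀ᶠ z in 𝓝 (0 : ℂ), Q (π z) = 0) → deriv π 0 = 0

private theorem GermC_push {g Q : ℂ × ℂ → ℂ} {β : ℂ × ℂ → ℂ × ℂ} {p : ℂ × ℂ} (hβ : AnalyticAt ℂ β p)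
    (hg : AnalyticAt ℂ g (β p)) (hr : GermC_Rt β p) (h : GermC_Gd (g ∘ β) (Q ∘ β) p) : GermC_Gd g Q (β p) := by
  obtain ⟨γ, h1, h2, h3⟩ := hr
  refine ⟨fun h4 h5 => h.1 h4 ?_, fun π hπ hp h4 h5 h6 => ?_⟩
  · rw [fderiv_comp p hg.differentiableAt hβ.differentiableAt, h5, ContinuousLinearMap.zero_comp]
  · have h7 : AnalyticAt ℂ (fun z => γ (π z)) 0 := AnalyticAt.fun_comp (by rw [hp]; exact h1) hπ
    have h8 : ∀ᶠ z in 𝓝 (0 : ℂ), β (γ (π z)) = π z := by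
      have h9 : Tendsto π (𝓝 0) (𝓝 (β p)) := by
        have h10 := hπ.continuousAt.tendsto
        rwa [hp] at h10
      exact h9.eventually h3
    have h9 : deriv (fun z => γ (π z)) 0 = 0 := by
      refine h.2 _ h7 ?_ h4 ?_ ?_
      · simp only [hp, h2]
      · filter_upwards [h5, h8] with z a b
        simp only [Function.comp_apply, b, a]
      · filter_upwards [h6, h8] with z a b
        simp only [Function.comp_apply, b, a]
    have h10 : deriv π 0 = deriv (fun z => β (γ (π z))) 0 :=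
      Filter.EventuallyEq.deriv_eq (h8.mono fun z hz => hz.symm)
    rw [h10]
    have h11 : HasDerivAt (fun z => γ (π z)) 0 0 := by
      have h12 := h7.differentiableAt.hasDerivAt
      rwa [h9] at h12
    have h12 : HasFDerivAt β (fderiv ℂ β p) (γ (π 0)) := by
      rw [hp, h2]
      exact hβ.differentiableAt.hasFDerivAt
    have h13 := (h12.comp_hasDerivAt 0 h11).deriv
    rw [map_zero] at h13
    exact h13

private theorem GermC_congr {g g₁ Q : ℂ × ℂ → ℂ} {p : ℂ × ℂ} (he : ∀ᶠ x in 𝓝 p, g₁ x = g x)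
    (h : GermC_Gd g Q p) : GermC_Gd g₁ Q p := by
  have h0 : g₁ p = g p := he.self_of_nhds
  refine ⟨fun h4 => ?_, fun π hπ hp h4 h5 h6 => ?_⟩
  · rw [Filter.EventuallyEq.fderiv_eq he]
    exact h.1 (by rwa [h0] at h4)
  · refine h.2 π hπ hp (by rwa [h0] at h4) ?_ h6
    have h9 : Tendsto π (𝓝 0) (𝓝 p) := by
      have h10 := hπ.continuousAt.tendsto
      rwa [hp] at h10
    filter_upwards [h5, h9.eventually he] with z a b
    rw [← b, a, h0]

private theorem GermC_congr_near {g g₁ Q : ℂ × ℂ → ℂ} (he : ∀ᶠ x in 𝓝 (0 : ℂ × ℂ), g₁ x = g x)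
    (h : ∀ᶠ p in 𝓝 (0 : ℂ × ℂ), GermC_Gd g Q p) : ∀ᶠ p in 𝓝 (0 : ℂ × ℂ), GermC_Gd g₁ Q p := by
  filter_upwards [he.eventually_nhds, h] with p h1 h2
  exact GermC_congr h1 h2

private theorem GermC_bihol {g Q : ℂ × ℂ → ℂ} {θ : ℂ × ℂ → ℂ × ℂ} (hθ : Bihol θ) (hg : AnalyticAt ℂ g 0)
    (h : ∀ᶠ p in 𝓝 (0 : ℂ × ℂ), GermC_Gd (g ∘ θ) (Q ∘ θ) p) : ∀ᶠ p in 𝓝 (0 : ℂ × ℂ), GermC_Gd g Q p := by
  obtain ⟨θ', h1, h2, h3⟩ := hθ.exists_inv
  filter_upwards [h3.eventually_nhds, h1.tendsto.eventually h, h1.tendsto.eventually hθ.an.eventually_analyticAt,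
    hg.eventually_analyticAt, h1.an.eventually_analyticAt] with q a1 a2 a3 a4 a5
  have e : θ (θ' q) = q := a1.self_of_nhds
  have h4 := GermC_push (g := g) (Q := Q) a3 (by rw [e]; exact a4)
    ⟨θ', by rw [e]; exact a5, by rw [e], by rw [e]; exact a1⟩ a2
  rwa [e] at h4

/-- a non-zero germ does not vanish identically after the composition with `β` -/
private theorem GermC_van {Q : ℂ × ℂ → ℂ} {β : ℂ × ℂ → ℂ × ℂ} (hQ : AnalyticAt ℂ Q 0) (hβ : AnalyticAt ℂ β 0)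
    (hβ0 : β 0 = 0) (hr : ∃ᶠ p in 𝓝 (0 : ℂ × ℂ), GermC_Rt β p) (h : ∀ᶠ p in 𝓝 (0 : ℂ × ℂ), (Q ∘ β) p = 0) :
    ∀ᶠ p in 𝓝 (0 : ℂ × ℂ), Q p = 0 := by
  obtain ⟨r, hr0, hQr⟩ := hQ.exists_ball_analyticOnNhd
  have ht : Tendsto β (𝓝 0) (𝓝 0) := by
    have h1 := hβ.continuousAt.tendsto
    rwa [hβ0] at h1
  obtain ⟨p, ⟨γ, h1, h2, h3⟩, h4, h5⟩ :=
    (hr.and_eventually (h.eventually_nhds.and (ht.eventually (Metric.ball_mem_nhds 0 hr0)))).exists
  have h6 : Tendsto γ (𝓝 (β p)) (𝓝 p) := by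
    have h7 := h1.continuousAt.tendsto
    rwa [h2] at h7
  have h7 : Q =ᶠ[𝓝 (β p)] 0 := by
    filter_upwards [h3, h6.eventually h4] with q a b
    simp only [Function.comp_apply, a] at b
    exact b
  have h8 := hQr.eqOn_zero_of_preconnected_of_eventuallyEq_zero
    (convex_ball (0 : ℂ × ℂ) r).isPreconnected h5 h7
  filter_upwards [Metric.ball_mem_nhds (0 : ℂ × ℂ) hr0] with q hq
  exact h8 hq

private theorem GermC_rt_bl (c : ℂ) {p : ℂ × ℂ} (hp : p.1 ≠ 0) : GermC_Rt (bl c) p := by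
  have h0 : (bl c p).1 ≠ 0 := hp
  refine ⟨fun q => (q.1, q.2 / q.1 - c), ?_, ?_, ?_⟩
  · exact analyticAt_fst.prod ((analyticAt_snd.div analyticAt_fst h0).sub analyticAt_const)
  · unfold Pool.Agent.H17BP.bl
    ext
    · rfl
    · simp only
      field_simp
      ring
  · have h1 : ∀ᶠ q : ℂ × ℂ in 𝓝 (bl c p), q.1 ≠ 0 := continuousAt_fst.eventually_ne h0
    filter_upwards [h1] with q hq
    unfold Pool.Agent.H17BP.bl
    ext
    · rfl
    · simp only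
      field_simp
      ring

private theorem GermC_rt_blInf {p : ℂ × ℂ} (hp : p.2 ≠ 0) : GermC_Rt blInf p := by
  have h0 : (blInf p).2 ≠ 0 := hp
  refine ⟨fun q => (q.1 / q.2, q.2), ?_, ?_, ?_⟩
  · exact (analyticAt_fst.div analyticAt_snd h0).prod analyticAt_snd
  · unfold Pool.Agent.H17BP.blInf
    ext
    · simp only
      field_simp
    · rfl
  · have h1 : ∀ᶠ q : ℂ × ℂ in 𝓝 (blInf p), q.2 ≠ 0 := continuousAt_snd.eventually_ne h0
    filter_upwards [h1] with q hq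
    unfold Pool.Agent.H17BP.blInf
    ext
    · simp only
      field_simp
    · rfl

/-- bounded functions converge along an ultrafilter -/
private theorem GermC_lim {U : Ultrafilter (ℂ × ℂ)} {f : ℂ × ℂ → ℂ}
    (h : ∀ᶠ p in (U : Filter (ℂ × ℂ)), ‖f p‖ ≤ 1) : ∃ c : ℂ, Tendsto f U (𝓝 c) := by
  have h1 : ((U.map f : Ultrafilter ℂ) : Filter ℂ) ≤ 𝓟 (Metric.closedBall (0 : ℂ) 1) := by
    rw [Filter.le_principal_iff, Ultrafilter.coe_map, Filter.mem_map]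
    filter_upwards [h] with p hp
    simpa using hp
  obtain ⟨c, -, hc⟩ := (isCompact_closedBall (0 : ℂ) 1).ultrafilter_le_nhds (U.map f) h1
  exact ⟨c, hc⟩

private theorem GermC_key1 {P : ℂ × ℂ → Prop} {U : Ultrafilter (ℂ × ℂ)} (hU0 : (U : Filter (ℂ × ℂ)) ≤ 𝓝 0)
    (hbad : ∀ᶠ p in (U : Filter (ℂ × ℂ)), ¬ P p) {c : ℂ}
    (hc : Tendsto (fun p : ℂ × ℂ => p.2 / p.1) U (𝓝 c)) (h1 : ∀ᶠ p in (U : Filter (ℂ × ℂ)), p.1 ≠ 0)
    (hih : ∀ᶠ p in 𝓝 (0 : ℂ × ℂ), p.1 ≠ 0 → P (bl c p)) : False := by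
  have ht1 : Tendsto (fun p : ℂ × ℂ => p.1) U (𝓝 0) := by
    have h2 : Tendsto (fun p : ℂ × ℂ => p.1) (𝓝 0) (𝓝 (0 : ℂ × ℂ).1) := continuous_fst.tendsto 0
    exact h2.mono_left hU0
  have ht2 : Tendsto (fun p : ℂ × ℂ => p.2 / p.1 - c) U (𝓝 0) := by
    have h2 := hc.sub_const c
    rwa [sub_self] at h2
  have ht : Tendsto (fun p : ℂ × ℂ => (p.1, p.2 / p.1 - c)) U (𝓝 0) := ht1.prodMk_nhds ht2
  obtain ⟨p, hp1, hp2, hp3⟩ := ((ht.eventually hih).and (h1.and hbad)).exists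
  apply hp3
  have h4 : bl c (p.1, p.2 / p.1 - c) = p := by
    unfold Pool.Agent.H17BP.bl
    ext
    · rfl
    · simp only
      field_simp
      ring
  have h5 := hp1 hp2
  rwa [h4] at h5

private theorem GermC_key2 {P : ℂ × ℂ → Prop} {U : Ultrafilter (ℂ × ℂ)} (hU0 : (U : Filter (ℂ × ℂ)) ≤ 𝓝 0)
    (hbad : ∀ᶠ p in (U : Filter (ℂ × ℂ)), ¬ P p)
    (hc : Tendsto (fun p : ℂ × ℂ => p.1 / p.2) U (𝓝 0)) (h1 : ∀ᶠ p in (U : Filter (ℂ × ℂ)), p.2 ≠ 0)
    (hih : ∀ᶠ p in 𝓝 (0 : ℂ × ℂ), p.2 ≠ 0 → P (blInf p)) : False := by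
  have ht1 : Tendsto (fun p : ℂ × ℂ => p.2) U (𝓝 0) := by
    have h2 : Tendsto (fun p : ℂ × ℂ => p.2) (𝓝 0) (𝓝 (0 : ℂ × ℂ).2) := continuous_snd.tendsto 0
    exact h2.mono_left hU0
  have ht : Tendsto (fun p : ℂ × ℂ => (p.1 / p.2, p.2)) U (𝓝 0) := hc.prodMk_nhds ht1
  obtain ⟨p, hp1, hp2, hp3⟩ := ((ht.eventually hih).and (h1.and hbad)).exists
  apply hp3
  have h4 : blInf (p.1 / p.2, p.2) = p := by
    unfold Pool.Agent.H17BP.blInf
    ext
    · simp only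
      field_simp
    · rfl
  have h5 := hp1 hp2
  rwa [h4] at h5

/-- the charts of the blow-up cover a punctured neighbourhood of `0` -/
private theorem GermC_cover {P : ℂ × ℂ → Prop} (h : ∀ c, ∀ᶠ p in 𝓝 (0 : ℂ × ℂ), p.1 ≠ 0 → P (bl c p))
    (h' : ∀ᶠ p in 𝓝 (0 : ℂ × ℂ), p.2 ≠ 0 → P (blInf p)) : ∀ᶠ p in 𝓝[≠] (0 : ℂ × ℂ), P p := by
  by_contra hne
  have hf : ∃ᶠ p in 𝓝[≠] (0 : ℂ × ℂ), ¬ P p := Filter.not_eventually.mp hne
  have hnb := Filter.frequently_iff_neBot.mp hf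
  obtain ⟨U, hU⟩ := Ultrafilter.exists_le (𝓝[≠] (0 : ℂ × ℂ) ⊓ 𝓟 {p | ¬ P p})
  have hU1 : (U : Filter (ℂ × ℂ)) ≤ 𝓝[≠] 0 := hU.trans inf_le_left
  have hU0 : (U : Filter (ℂ × ℂ)) ≤ 𝓝 0 := hU1.trans nhdsWithin_le_nhds
  have hbad : ∀ᶠ p in (U : Filter (ℂ × ℂ)), ¬ P p := Filter.le_principal_iff.mp (hU.trans inf_le_right)
  have hne0 : ∀ᶠ p in (U : Filter (ℂ × ℂ)), p ≠ 0 := by
    have h1 : ∀ᶠ p in 𝓝[≠] (0 : ℂ × ℂ), p ≠ 0 := eventually_mem_nhdsWithin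
    exact h1.filter_mono hU1
  rcases U.em (fun p => ‖p.2‖ ≤ ‖p.1‖) with h1 | h1
  · have h2 : ∀ᶠ p in (U : Filter (ℂ × ℂ)), p.1 ≠ 0 := by
      filter_upwards [h1, hne0] with p hp1 hp2 h0
      apply hp2
      rw [h0, norm_zero] at hp1
      exact Prod.ext h0 (norm_le_zero_iff.mp hp1)
    obtain ⟨c, hc⟩ := GermC_lim (U := U) (f := fun p => p.2 / p.1) (by
      filter_upwards [h1] with p hp
      rw [norm_div]
      exact div_le_one_of_le₀ hp (norm_nonneg _))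
    exact GermC_key1 hU0 hbad hc h2 (h c)
  · have h2 : ∀ᶠ p in (U : Filter (ℂ × ℂ)), p.2 ≠ 0 := by
      filter_upwards [h1] with p hp1 h0
      apply hp1
      rw [h0, norm_zero]
      exact norm_nonneg _
    obtain ⟨c, hc⟩ := GermC_lim (U := U) (f := fun p => p.1 / p.2) (by
      filter_upwards [h1] with p hp
      rw [norm_div]
      exact div_le_one_of_le₀ (not_le.mp hp).le (norm_nonneg _))
    by_cases hc0 : c = 0
    · rw [hc0] at hc
      exact GermC_key2 hU0 hbad hc h2 h'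
    · have h3 : ∀ᶠ p in (U : Filter (ℂ × ℂ)), p.1 ≠ 0 := by
        filter_upwards [hc.eventually_ne hc0] with p hp h0
        apply hp
        rw [h0, zero_div]
      have h4 : Tendsto (fun p : ℂ × ℂ => p.2 / p.1) U (𝓝 c⁻¹) := by
        have h5 := hc.inv₀ hc0
        refine h5.congr ?_
        intro p
        rw [inv_div]
      exact GermC_key1 hU0 hbad h4 h3 (h c⁻¹)

/-- an `a`-th root of a unit -/
private theorem GermC_root {v : ℂ × ℂ → ℂ} (hv : AnalyticAt ℂ v 0) (hv0 : v 0 ≠ 0) {a : ℕ} (ha : 0 < a) :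
    ∃ k : ℂ × ℂ → ℂ, AnalyticAt ℂ k 0 ∧ k 0 ≠ 0 ∧ ∀ᶠ x in 𝓝 (0 : ℂ × ℂ), k x ^ a = v x := by
  obtain ⟨c, hc⟩ := IsAlgClosed.exists_pow_nat_eq (v 0) ha
  have hc0 : c ≠ 0 := by
    intro h
    rw [h, zero_pow ha.ne'] at hc
    exact hv0 hc.symm
  have ha0 : (a : ℂ) ≠ 0 := by exact_mod_cast ha.ne'
  refine ⟨fun x => c * Complex.exp (Complex.log (v x / v 0) / a), ?_, ?_, ?_⟩
  · refine analyticAt_const.mul (AnalyticAt.cexp (AnalyticAt.div (AnalyticAt.clog (hv.div analyticAt_const hv0) ?_)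
      analyticAt_const ha0))
    rw [div_self hv0]
    exact Complex.one_mem_slitPlane
  · exact mul_ne_zero hc0 (Complex.exp_ne_zero _)
  · filter_upwards [hv.continuousAt.eventually_ne hv0] with x hx
    rw [mul_pow, hc, ← Complex.exp_nat_mul, mul_div_cancel₀ _ ha0, Complex.exp_log (div_ne_zero hx hv0)]
    field_simp

/-- the first coordinate can be multiplied by a unit -/
private theorem GermC_coord {S T k : ℂ × ℂ → ℂ} (h : Coord S T) (hk : AnalyticAt ℂ k 0) (hk0 : k 0 ≠ 0) :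
    Coord (fun x => S x * k x) T := by
  obtain ⟨hS, hT, hS0, hT0⟩ := h.parts
  have h1 := (Pool.Agent.H17BP.coord_iff hS hT hS0 hT0).1 h
  have hSk : AnalyticAt ℂ (fun x => S x * k x) 0 := hS.mul hk
  refine (Pool.Agent.H17BP.coord_iff hSk hT (by simp only [hS0, zero_mul]) hT0).2 ?_
  have h2 : fderiv ℂ (fun x => S x * k x) 0 = k 0 • fderiv ℂ S 0 := by
    have h3 : fderiv ℂ (fun x => S x * k x) 0 = S 0 • fderiv ℂ k 0 + k 0 • fderiv ℂ S 0 :=
      (hS.differentiableAt.hasFDerivAt.mul hk.differentiableAt.hasFDerivAt).fderiv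
    rw [h3, hS0]
    ext <;> simp
  unfold Pool.Agent.H17BP.dx Pool.Agent.H17BP.dy at h1 ⊢
  rw [h2]
  intro h4
  apply h1
  apply mul_left_cancel₀ hk0
  rw [mul_zero]
  refine Eq.trans ?_ h4
  simp only [_root_.smul_apply, smul_eq_mul]
  ring

/-- a germ with `Mono` is a monomial in suitable coordinates -/
private theorem GermC_mono {g : ℂ × ℂ → ℂ} (h : Mono g) (h0 : g 0 = 0) : ∃ (θ : ℂ × ℂ → ℂ × ℂ) (a b : ℕ),
    Bihol θ ∧ 1 ≤ a + b ∧ ∀ᶠ p in 𝓝 (0 : ℂ × ℂ), (g ∘ θ) p = p.1 ^ a * p.2 ^ b := by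
  have key : ∀ (S T : ℂ × ℂ → ℂ) (a b : ℕ), Coord S T → 1 ≤ a + b →
      (∀ᶠ x in 𝓝 (0 : ℂ × ℂ), g x = S x ^ a * T x ^ b) → ∃ (θ : ℂ × ℂ → ℂ × ℂ) (a b : ℕ),
      Bihol θ ∧ 1 ≤ a + b ∧ ∀ᶠ p in 𝓝 (0 : ℂ × ℂ), (g ∘ θ) p = p.1 ^ a * p.2 ^ b := by
    intro S T a b hc hab he
    obtain ⟨θ, h1, h2, h3⟩ := Bihol.exists_inv hc
    refine ⟨θ, a, b, h1, hab, ?_⟩
    filter_upwards [h1.tendsto.eventually he, h3] with p a1 a2
    have a3 : S (θ p) = p.1 := congrArg Prod.fst a2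
    have a4 : T (θ p) = p.2 := congrArg Prod.snd a2
    simp only [Function.comp_apply]
    rw [a1, a3, a4]
  obtain ⟨S, T, a, b, v, h1, h2, h3, h4⟩ := h
  obtain ⟨hS, hT, hS0, hT0⟩ := h1.parts
  rcases Nat.eq_zero_or_pos a with ha | ha
  · rcases Nat.eq_zero_or_pos b with hb | hb
    · exfalso
      have h5 := h4.self_of_nhds
      rw [h0, ha, hb] at h5
      simp only [pow_zero, one_mul] at h5
      exact h3 h5.symm
    · obtain ⟨k, k1, k2, k3⟩ := GermC_root h2 h3 hb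
      refine key (fun x => T x * k x) S b a (GermC_coord h1.symm k1 k2) (by omega) ?_
      filter_upwards [h4, k3] with x a1 a2
      rw [a1, ← a2, mul_pow]
      ring
  · obtain ⟨k, k1, k2, k3⟩ := GermC_root h2 h3 ha
    refine key (fun x => S x * k x) T a b (GermC_coord h1 k1 k2) (by omega) ?_
    filter_upwards [h4, k3] with x a1 a2
    rw [a1, ← a2, mul_pow]
    ring

private theorem GermC_monomial {Q : ℂ × ℂ → ℂ} (hQ : AnalyticAt ℂ Q 0) (hQ0 : ¬ ∀ᶠ p in 𝓝 (0 : ℂ × ℂ), Q p = 0) {a b : ℕ}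
    (hab : 1 ≤ a + b) : ∀ᶠ p in 𝓝 (0 : ℂ × ℂ), GermC_Gd (fun p => p.1 ^ a * p.2 ^ b) Q p := by
  obtain ⟨r, hr, hQr⟩ := hQ.exists_ball_analyticOnNhd
  set s : ℂ := ((r / 2 : ℝ) : ℂ) with hs
  have hs0 : s ≠ 0 := by
    rw [hs]
    exact_mod_cast (by positivity : (r / 2 : ℝ) ≠ 0)
  have hsn : ‖s‖ = r / 2 := by
    rw [hs, Complex.norm_real, Real.norm_of_nonneg (by positivity)]
  have hsa : ∀ p : ℂ × ℂ, AnalyticAt ℂ (fun p : ℂ × ℂ => s • p) p := fun p =>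
    AnalyticAt.smul (f := fun _ : ℂ × ℂ => s) (g := fun p : ℂ × ℂ => p) analyticAt_const analyticAt_id
  obtain ⟨δ, hδ, h⟩ := Pool.Agent.EG.level_set (Q := fun p => Q (s • p)) (a := a) (b := b) (by
      intro p hp
      refine AnalyticAt.fun_comp (g := Q) (f := fun p : ℂ × ℂ => s • p) (hQr _ ?_) (hsa p)
      rw [mem_ball_zero_iff] at hp ⊢
      rw [norm_smul, hsn]
      have h1 : r / 2 * ‖p‖ < r / 2 * 2 := mul_lt_mul_of_pos_left hp (by positivity)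
      linarith) (by
      intro h1
      apply hQ0
      have h2 : Tendsto (fun p : ℂ × ℂ => s⁻¹ • p) (𝓝 0) (𝓝 0) := by
        have h3 : Continuous (fun p : ℂ × ℂ => s⁻¹ • p) := by fun_prop
        have h4 := h3.tendsto 0
        rwa [smul_zero] at h4
      filter_upwards [h2.eventually h1] with p hp
      rwa [smul_smul, mul_inv_cancel₀ hs0, one_smul] at hp) hab
  have hball : ball (0 : ℂ × ℂ) (r / 2 * δ) ∈ 𝓝 (0 : ℂ × ℂ) := ball_mem_nhds _ (by positivity)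
  filter_upwards [hball] with p hp
  refine ⟨fun h4 h5 => ?_, fun π hπ hp0 h4 h5 h6 => ?_⟩
  · have h6 : HasDerivAt (fun t : ℂ => (t * p.1) ^ a * (t * p.2) ^ b) (((a + b : ℕ) : ℂ) * (p.1 ^ a * p.2 ^ b)) 1 := by
      have h7 : (fun t : ℂ => (t * p.1) ^ a * (t * p.2) ^ b) = fun t : ℂ => t ^ (a + b) * (p.1 ^ a * p.2 ^ b) := by
        funext t
        rw [mul_pow, mul_pow, pow_add]
        ring
      rw [h7]
      have h8 := (hasDerivAt_pow (a + b) (1 : ℂ)).mul_const (p.1 ^ a * p.2 ^ b)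
      rw [one_pow, mul_one] at h8
      exact h8
    have h7 : HasDerivAt (fun t : ℂ => (t * p.1) ^ a * (t * p.2) ^ b) 0 1 := by
      have h8 : DifferentiableAt ℂ (fun p : ℂ × ℂ => p.1 ^ a * p.2 ^ b) ((1 : ℂ) • p) := by fun_prop
      have h9 : HasDerivAt (fun t : ℂ => t • p) p 1 := by
        have h10 := (hasDerivAt_id (1 : ℂ)).smul_const p
        rwa [one_smul] at h10
      have h10 := h8.hasFDerivAt.comp_hasDerivAt (1 : ℂ) h9
      rw [one_smul, h5] at h10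
      exact h10
    have h8 := h6.unique h7
    rcases mul_eq_zero.1 h8 with h9 | h9
    · have h10 : a + b = 0 := by exact_mod_cast h9
      omega
    · exact h4 h9
  · have h7 : deriv (fun z => s⁻¹ • π z) 0 = 0 := by
      have hm : ∀ q : ℂ × ℂ, (s⁻¹ • q).1 ^ a * (s⁻¹ • q).2 ^ b = s⁻¹ ^ (a + b) * (q.1 ^ a * q.2 ^ b) := by
        intro q
        simp only [Prod.smul_fst, Prod.smul_snd, smul_eq_mul, mul_pow, pow_add]
        ring
      refine h (fun z => s⁻¹ • π z) (AnalyticAt.smul (f := fun _ : ℂ => s⁻¹) (g := π) analyticAt_const hπ) ?_ ?_ ?_ ?_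
      · rw [mem_ball_zero_iff] at hp ⊢
        rw [norm_smul, hp0, norm_inv, hsn, inv_mul_lt_iff₀ (by positivity)]
        exact hp
      · rw [hm, hp0]
        exact mul_ne_zero (pow_ne_zero _ (inv_ne_zero hs0)) h4
      · filter_upwards [h5] with z hz
        rw [hm, hm, hz, hp0]
      · filter_upwards [h6] with z hz
        rwa [smul_smul, mul_inv_cancel₀ hs0, one_smul]
    have h8 : HasDerivAt (fun z => s⁻¹ • π z) (s⁻¹ • deriv π 0) 0 := hπ.differentiableAt.hasDerivAt.const_smul s⁻¹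
    rw [h8.deriv] at h7
    exact (smul_eq_zero.1 h7).resolve_left (inv_ne_zero hs0)

private theorem GermC_main (n : ℕ) : ∀ {g Q : ℂ × ℂ → ℂ}, ResN n g → AnalyticAt ℂ g 0 → g 0 = 0 → AnalyticAt ℂ Q 0 →
    (¬ ∀ᶠ p in 𝓝 (0 : ℂ × ℂ), Q p = 0) → ∀ᶠ p in 𝓝 (0 : ℂ × ℂ), GermC_Gd g Q p := by
  have hmono : ∀ {g Q : ℂ × ℂ → ℂ}, Mono g → AnalyticAt ℂ g 0 → g 0 = 0 → AnalyticAt ℂ Q 0 →
      (¬ ∀ᶠ p in 𝓝 (0 : ℂ × ℂ), Q p = 0) → ∀ᶠ p in 𝓝 (0 : ℂ × ℂ), GermC_Gd g Q p := by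
    intro g Q hm hg h0 hQ hQ0
    obtain ⟨θ, a, b, h1, h2, h3⟩ := GermC_mono hm h0
    refine GermC_bihol h1 hg (GermC_congr_near h3 (GermC_monomial ?_ ?_ h2))
    · have h4 : AnalyticAt ℂ Q (θ 0) := by rw [h1.zero]; exact hQ
      exact h4.comp h1.an
    · intro h4
      apply hQ0
      obtain ⟨θ', h5, h6, h7⟩ := h1.exists_inv
      filter_upwards [h5.tendsto.eventually h4, h7] with p a1 a2
      simp only [Function.comp_apply] at a1
      rwa [a2] at a1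
  induction n with
  | zero => intro g Q h; exact hmono h
  | succ n ih =>
    intro g Q h hg h0 hQ hQ0
    rcases h with h | h
    · exact hmono h hg h0 hQ hQ0
    · have hstep : ∀ (β : ℂ × ℂ → ℂ × ℂ) (D : ℂ × ℂ → Prop), BChart β → (∀ p, AnalyticAt ℂ β p) →
          (∃ᶠ p in 𝓝 (0 : ℂ × ℂ), D p) → (∀ p, D p → GermC_Rt β p) → ∀ᶠ p in 𝓝 (0 : ℂ × ℂ), D p → GermC_Gd g Q (β p) := by
        intro β D hβ hβa hD hR
        have hg' : AnalyticAt ℂ (g ∘ β) 0 := by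
          have h1 : AnalyticAt ℂ g (β 0) := by rw [hβ.zero]; exact hg
          exact h1.comp hβ.an
        have hQ' : AnalyticAt ℂ (Q ∘ β) 0 := by
          have h1 : AnalyticAt ℂ Q (β 0) := by rw [hβ.zero]; exact hQ
          exact h1.comp hβ.an
        have h1 := ih (h β hβ) hg' (by simp [hβ.zero, h0]) hQ' (fun h2 =>
          hQ0 (GermC_van hQ hβ.an hβ.zero (hD.mono hR) h2))
        filter_upwards [h1, hβ.tendsto.eventually hg.eventually_analyticAt] with p a1 a2 a3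
        exact GermC_push (hβa p) a2 (hR p a3) a1
      have hfr1 : ∃ᶠ p in 𝓝 (0 : ℂ × ℂ), p.1 ≠ 0 := by
        have h1 : Tendsto (fun s : ℂ => ((s, 0) : ℂ × ℂ)) (𝓝[≠] 0) (𝓝 0) := by
          have h2 : Tendsto (fun s : ℂ => ((s, 0) : ℂ × ℂ)) (𝓝 0) (𝓝 (0, 0)) :=
            (continuous_id.prodMk continuous_const).tendsto 0
          exact h2.mono_left nhdsWithin_le_nhds
        refine h1.frequently ?_
        have h2 : ∀ᶠ s in 𝓝[≠] (0 : ℂ), s ≠ 0 := eventually_mem_nhdsWithin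
        exact h2.frequently
      have hfr2 : ∃ᶠ p in 𝓝 (0 : ℂ × ℂ), p.2 ≠ 0 := by
        have h1 : Tendsto (fun s : ℂ => ((0, s) : ℂ × ℂ)) (𝓝[≠] 0) (𝓝 0) := by
          have h2 : Tendsto (fun s : ℂ => ((0, s) : ℂ × ℂ)) (𝓝 0) (𝓝 (0, 0)) :=
            (continuous_const.prodMk continuous_id).tendsto 0
          exact h2.mono_left nhdsWithin_le_nhds
        refine h1.frequently ?_
        have h2 : ∀ᶠ s in 𝓝[≠] (0 : ℂ), s ≠ 0 := eventually_mem_nhdsWithin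
        exact h2.frequently
      have hc := GermC_cover (P := fun p => GermC_Gd g Q p)
        (fun c => hstep (bl c) (fun p => p.1 ≠ 0) (Pool.Agent.H17BP.bchart_bl c) (Pool.Agent.H17BP.analyticAt_bl c)
          hfr1 fun p hp => GermC_rt_bl c hp)
        (hstep blInf (fun p => p.2 ≠ 0) Pool.Agent.H17BP.bchart_blInf Pool.Agent.H17BP.analyticAt_blInf
          hfr2 fun p hp => GermC_rt_blInf hp)
      rw [eventually_nhdsWithin_iff] at hc
      filter_upwards [hc] with p hp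
      by_cases hp0 : p = 0
      · rw [hp0]
        exact ⟨fun h1 => absurd h0 h1, fun π _ _ h1 => absurd h0 h1⟩
      · exact hp hp0

theorem crit_near {g : ℂ × ℂ → ℂ} (hg : AnalyticAt ℂ g 0) (h0 : g 0 = 0) : ∀ᶠ p in 𝓝 (0 : ℂ × ℂ), g p ≠ 0 → fderiv ℂ g p ≠ 0 := by
  by_cases hz : ∀ᶠ x in 𝓝 (0 : ℂ × ℂ), g x = 0
  · filter_upwards [hz] with p hp h
    exact absurd hp h
  · obtain ⟨n, hn⟩ := exists_resN hg hz
    have h1 := GermC_main n (Q := fun _ => 1) hn hg h0 analyticAt_const (fun h => one_ne_zero h.self_of_nhds)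
    exact h1.mono fun p hp => hp.1

theorem level_near {g Q : ℂ × ℂ → ℂ} (hg : AnalyticAt ℂ g 0) (h0 : g 0 = 0) (hQ : AnalyticAt ℂ Q 0) (hQ0 : ¬ ∀ᶠ p in 𝓝 (0 : ℂ × ℂ), Q p = 0) :
    ∃ δ : ℝ, 0 < δ ∧ ∀ π : ℂ → ℂ × ℂ, AnalyticAt ℂ π 0 → π 0 ∈ ball (0 : ℂ × ℂ) δ → g (π 0) ≠ 0 →
      (∀ᶠ z in 𝓝 (0 : ℂ), g (π z) = g (π 0)) → (∀ᶠ z in 𝓝 (0 : ℂ), Q (π z) = 0) → deriv π 0 = 0 := by
  have h1 : ∀ᶠ p in 𝓝 (0 : ℂ × ℂ), ∀ π : ℂ → ℂ × ℂ, AnalyticAt ℂ π 0 → π 0 = p → g p ≠ 0 →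
      (∀ᶠ z in 𝓝 (0 : ℂ), g (π z) = g p) → (∀ᶠ z in 𝓝 (0 : ℂ), Q (π z) = 0) → deriv π 0 = 0 := by
    by_cases hz : ∀ᶠ x in 𝓝 (0 : ℂ × ℂ), g x = 0
    · filter_upwards [hz] with p hp π _ _ h
      exact absurd hp h
    · obtain ⟨n, hn⟩ := exists_resN hg hz
      exact (GermC_main n hn hg h0 hQ hQ0).mono fun p hp => hp.2
  rw [Metric.eventually_nhds_iff_ball] at h1
  obtain ⟨δ, hδ, h⟩ := h1
  exact ⟨δ, hδ, fun π hπ hπδ hne h2 h3 => h (π 0) hπδ π hπ rfl hne h2 h3⟩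

end Pool.Agent.H17N
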