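import Pool.Agent.H17N.Defs

/-!
# H17N ResV: normal crossing points

* `ru0_of_ne`: if `fderiv ℂ g 0 ≠ 0` for a germ `g` of `u` in a chart then `RU X Λ u x 0`: `g` is a coordinate (`Mono g` with `S = g`, `T` = a linear form such that the derivative of `(g, T)` is an isomorphism; the inverse function
  theorem gives `Coord g T`; compare `H62.BU.local_inverse` (H62/BU/Inv.lean) and its uses in H17BP), `a = 1`, `b = 0`, `u = 1`.
* `ru0_nc`: `Mono g`: `g = S^a T^b v`, `v 0 ≠ 0`, `a + b > 0` because `g 0 = 0` (`S 0 = T 0 = 0`).  If `a ≥ 1` let `k` be analytic at `0` with `k ^ a = v` near `0`, `k 0 ≠ 0` (root of a unit, exists in H17BP (RootP.lean) or by `Complex.exp`/`log` or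
  `cpow`); `(S k, T)` are coordinates (`Coord`: the derivative at `0`, or see the lemmas on units in H17BP/Nodal.lean, MonoOpen.lean); so `g = S'^a T^b`.  If `a = 0`, `b ≥ 1`: the same for `T`.  Then take the chart `σ ∘ θ'`, `θ'` = inverse germ of the coordinates
  (`IsChart.comp`, as in the proof of `ResAt.nodal`).
-/

set_option autoImplicit false

open Topology Filter

namespace Pool.Agent.H17N

open Pool.Agent.H17BP (Surface IsChart Tan Pr HolP ResN Mono Coord Bihol dx dy coord_iff)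

variable {V : Type} [NormedAddCommGroup V] [NormedSpace ℂ V] {X : Set V} {Λ : AddSubgroup ℂ} {u : V → ℂ} {σ' : ℂ × ℂ → V} {τ' : V → ℂ × ℂ}
  {x : V}

private theorem ResV_mono {g : ℂ × ℂ → ℂ} (hg : AnalyticAt ℂ g 0) (h0 : g 0 = 0) (hd : fderiv ℂ g 0 ≠ 0) : Mono g := by
  have hF : AnalyticAt ℂ (fun x : ℂ × ℂ => x.1) 0 := analyticAt_fst
  have hS : AnalyticAt ℂ (fun x : ℂ × ℂ => x.2) 0 := analyticAt_snd
  have f1 : fderiv ℂ (fun x : ℂ × ℂ => x.1) 0 = ContinuousLinearMap.fst ℂ ℂ ℂ := (hasFDerivAt_fst).fderiv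
  have f2 : fderiv ℂ (fun x : ℂ × ℂ => x.2) 0 = ContinuousLinearMap.snd ℂ ℂ ℂ := (hasFDerivAt_snd).fderiv
  by_cases h1 : dx g 0 = 0
  · have h2 : dy g 0 ≠ 0 := by
      intro h2
      apply hd
      ext
      · simpa [dx] using h1
      · simpa [dy] using h2
    refine ⟨g, fun x => x.1, 1, 0, fun _ => 1, (coord_iff hg hF h0 rfl).2 ?_, analyticAt_const, one_ne_zero, Eventually.of_forall fun x => by simp⟩
    have e1 : dy (fun x : ℂ × ℂ => x.1) 0 = 0 := by simp [dy, f1]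
    have e2 : dx (fun x : ℂ × ℂ => x.1) 0 = 1 := by simp [dx, f1]
    rw [e1, e2, mul_zero, mul_one, zero_sub]
    exact neg_ne_zero.2 h2
  · refine ⟨g, fun x => x.2, 1, 0, fun _ => 1, (coord_iff hg hS h0 rfl).2 ?_, analyticAt_const, one_ne_zero, Eventually.of_forall fun x => by simp⟩
    have e1 : dy (fun x : ℂ × ℂ => x.2) 0 = 1 := by simp [dy, f2]
    have e2 : dx (fun x : ℂ × ℂ => x.2) 0 = 0 := by simp [dx, f2]
    rw [e1, e2, mul_zero, mul_one, sub_zero]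
    exact h1

private theorem ResV_root {v : ℂ × ℂ → ℂ} (hv : AnalyticAt ℂ v 0) (h0 : v 0 ≠ 0) {a : ℕ} (ha : 0 < a) :
    ∃ k : ℂ × ℂ → ℂ, AnalyticAt ℂ k 0 ∧ k 0 ≠ 0 ∧ ∀ᶠ x in 𝓝 0, k x ^ a = v x := by
  obtain ⟨c, hc⟩ := IsAlgClosed.exists_pow_nat_eq (v 0) ha
  have haC : (a : ℂ) ≠ 0 := by exact_mod_cast ha.ne'
  have hc0 : c ≠ 0 := by
    intro h
    rw [h, zero_pow ha.ne'] at hc
    exact h0 hc.symm
  have h1 : AnalyticAt ℂ (fun x => v x / v 0) 0 := hv.div analyticAt_const h0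
  have h2 : (fun x => v x / v 0) 0 ∈ Complex.slitPlane := by
    simp only [div_self h0]
    exact Complex.one_mem_slitPlane
  refine ⟨fun x => c * Complex.exp (Complex.log (v x / v 0) / a), ?_, ?_, ?_⟩
  · exact analyticAt_const.mul (((h1.clog h2).div analyticAt_const haC).cexp)
  · exact mul_ne_zero hc0 (Complex.exp_ne_zero _)
  · have h3 : ∀ᶠ x in 𝓝 (0 : ℂ × ℂ), v x ≠ 0 := hv.continuousAt.eventually_ne h0
    filter_upwards [h3] with x hx
    rw [mul_pow, hc, ← Complex.exp_nat_mul, mul_div_cancel₀ _ haC, Complex.exp_log (div_ne_zero hx h0), mul_div_cancel₀ _ h0]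

private theorem ResV_coord {S T k : ℂ × ℂ → ℂ} (h : Coord S T) (hk : AnalyticAt ℂ k 0) (hk0 : k 0 ≠ 0) : Coord (fun x => S x * k x) T := by
  obtain ⟨h1, h2, h3, h4⟩ := h.parts
  rw [coord_iff h1 h2 h3 h4] at h
  have hSk : AnalyticAt ℂ (fun x => S x * k x) 0 := h1.mul hk
  rw [coord_iff hSk h2 (by rw [h3, zero_mul]) h4]
  have e : fderiv ℂ (fun x => S x * k x) 0 = k 0 • fderiv ℂ S 0 := by
    have := (h1.differentiableAt.hasFDerivAt.mul hk.differentiableAt.hasFDerivAt).fderiv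
    refine this.trans ?_
    rw [h3]
    ext <;> simp
  have e1 : dx (fun x => S x * k x) 0 = k 0 * dx S 0 := by
    simp [dx, e]
  have e2 : dy (fun x => S x * k x) 0 = k 0 * dy S 0 := by
    simp [dy, e]
  rw [e1, e2]
  intro h5
  apply h
  have h6 : k 0 * (dx S 0 * dy T 0 - dy S 0 * dx T 0) = 0 := by linear_combination h5
  exact (mul_eq_zero.1 h6).resolve_left hk0

private theorem ResV_aux {σ : ℂ × ℂ → V} {τ : V → ℂ × ℂ} {g S T v : ℂ × ℂ → ℂ} {a b : ℕ} (hc : IsChart X σ τ) (hx : σ 0 = x) (hg : LU Λ u σ g)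
    (hST : Coord S T) (hv : AnalyticAt ℂ v 0) (hv0 : v 0 ≠ 0) (hev : ∀ᶠ x in 𝓝 0, g x = S x ^ a * T x ^ b * v x) (ha : 0 < a) :
    ∃ (σ : ℂ × ℂ → V) (τ : V → ℂ × ℂ) (i j : ℕ), IsChart X σ τ ∧ σ 0 = x ∧ 0 < i + j ∧
    ∀ᶠ p in 𝓝 (0 : ℂ × ℂ), u (σ p) - (u x + p.1 ^ i * p.2 ^ j) ∈ Λ := by
  obtain ⟨k, hk, hk0, hkv⟩ := ResV_root hv hv0 ha
  have hC := ResV_coord hST hk hk0
  have hθ : Bihol fun x => (S x * k x, T x) := hC
  obtain ⟨θ', hθ', h1, h2⟩ := hθ.exists_inv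
  refine ⟨_, _, a, b, hc.comp hθ' hθ h2 h1, ?_, by omega, ?_⟩
  · show σ (θ' 0) = x
    rw [hθ'.zero, hx]
  · filter_upwards [hθ'.tendsto.eventually hg.2.2, hθ'.tendsto.eventually hev, hθ'.tendsto.eventually hkv, h2] with p hp1 hp2 hp3 hp4
    have e1 : S (θ' p) * k (θ' p) = p.1 := congrArg Prod.fst hp4
    have e2 : T (θ' p) = p.2 := congrArg Prod.snd hp4
    have e3 : g (θ' p) = p.1 ^ a * p.2 ^ b := by
      rw [hp2, ← hp3, ← e1, ← e2]
      ring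
    rw [hx, e3] at hp1
    have e4 : u (σ (θ' p)) - (u x + p.1 ^ a * p.2 ^ b) = u (σ (θ' p)) - u x - p.1 ^ a * p.2 ^ b := by ring
    rw [e4]
    exact hp1

theorem ru0_of_ne (h : IsChart X σ' τ') {g : ℂ × ℂ → ℂ} (hg : LU Λ u σ' g) (hd : fderiv ℂ g 0 ≠ 0) : RU X Λ u (σ' 0) 0 :=
  ⟨σ', τ', g, h, rfl, hg, ResV_mono hg.1 hg.2.1 hd⟩

theorem ru0_nc (h : RU X Λ u x 0) : ∃ (σ : ℂ × ℂ → V) (τ : V → ℂ × ℂ) (i j : ℕ), IsChart X σ τ ∧ σ 0 = x ∧ 0 < i + j ∧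
    ∀ᶠ p in 𝓝 (0 : ℂ × ℂ), u (σ p) - (u x + p.1 ^ i * p.2 ^ j) ∈ Λ := by
  obtain ⟨σ, τ, g, hc, hx, hg, hr⟩ := h
  obtain ⟨S, T, a, b, v, hST, hv, hv0, hev⟩ := (hr : Mono g)
  rcases Nat.eq_zero_or_pos a with ha | ha
  · have hb : 0 < b := by
      rcases Nat.eq_zero_or_pos b with hb | hb
      · exfalso
        have h1 := hev.self_of_nhds
        rw [hg.2.1, ha, hb, pow_zero, pow_zero, one_mul, one_mul] at h1
        exact hv0 h1.symm
      · exact hb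
    refine ResV_aux hc hx hg hST.symm hv hv0 (a := b) (b := a) ?_ hb
    filter_upwards [hev] with p hp
    rw [hp, mul_comm (S p ^ a)]
  · exact ResV_aux hc hx hg hST hv hv0 hev ha

end Pool.Agent.H17N
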