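import Pool.Agent.H17N.Defs
import Pool.Agent.H17N.GermC
import Pool.Agent.H17N.ResV

/-!
# H17N ResU: local equations of the fibres

* `exists_lu`: `tor.loc` at `σ 0` gives `v`; `g p = v (σ p) - v (σ 0)`; `u (σ p) - v (σ p) ∈ Λ` for all `p` near `0`.
* `LU.mul_smul`-type facts are not needed: `u` is invariant under scaling modulo `Λ` (`tor.smul`).
* `RU.chart` (pattern: `H17BP.ResAt.chart`): `IsChart.trans` gives `θ` with `σ' p = c • σ (θ p)` near `0`; `g ∘ θ` is the germ for `σ'` (`Bihol`, `ResN.comp`).  (`u (σ' p) - u (σ (θ p)) ∈ Λ`, `u (σ' 0) - u (σ 0) ∈ Λ`, `g (θ 0) = g 0 = 0`.)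
* `RU.pr` (pattern: `ResAt.pr`), `RU.mono_le`.
* `RU.near` (pattern: `ResAt.near`): let `σ, τ, g` be as in `RU`.  `y ∈ X` near `x`: `y = c • σ p`, `p = τ y` near `0`, `p ≠ 0`.  `x' ↦ σ (p + x')` is a chart at `σ p` (`IsChart.near`) with the germ `x' ↦ g (p + x') - g p`.  If `g p = 0` it is `Mono` by
  `ResN.near` (H17BP/FinG); if `g p ≠ 0` then `fderiv ℂ g p ≠ 0` by `crit_near` (GermC), so `ru0_of_ne`-argument.  Then `RU.pr`.
* `exists_ru`: `exists_resN` for the germ `g` of `exists_lu` (it does not vanish identically by `NonConst`).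
-/

set_option autoImplicit false

open Topology Filter

namespace Pool.Agent.H17N

open Pool.Agent.H17BP (Surface IsChart Tan Pr HolP ResN)

variable {V : Type} [NormedAddCommGroup V] [NormedSpace ℂ V] {X : Set V} {Λ : AddSubgroup ℂ} {u : V → ℂ} {σ' : ℂ × ℂ → V} {τ' : V → ℂ × ℂ}
  {x y : V} {n k : ℕ}

private theorem ResU_pr (hu : TMap X Λ u) (hx : y ∈ X) (h : Pr x y) : u x - u y ∈ Λ := by
  obtain ⟨c, hc, rfl⟩ := h
  exact hu.smul y hx c hc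

theorem exists_lu (hu : TMap X Λ u) (h : IsChart X σ' τ') : ∃ g, LU Λ u σ' g := by
  have hmem : σ' 0 ∈ X := h.σ_mem.self_of_nhds
  obtain ⟨v, hv, hev⟩ := hu.loc _ hmem
  have h0 : u (σ' 0) - v (σ' 0) ∈ Λ := hev.self_of_nhds hmem
  refine ⟨fun p => v (σ' p) - v (σ' 0), (hv.comp h.σ_an).sub analyticAt_const, sub_self _, ?_⟩
  filter_upwards [h.σ_mem, h.σ_an.continuousAt.tendsto.eventually hev] with p hp1 hp2
  have h1 : u (σ' p) - u (σ' 0) - (v (σ' p) - v (σ' 0)) = (u (σ' p) - v (σ' p)) - (u (σ' 0) - v (σ' 0)) := by ring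
  rw [h1]
  exact Λ.sub_mem (hp2 hp1) h0

theorem RU.mono_le (h : RU X Λ u x n) (hnk : n ≤ k) : RU X Λ u x k := by
  obtain ⟨σ, τ, g, h1, h2, h3, h4⟩ := h
  exact ⟨σ, τ, g, h1, h2, h3, h4.mono_le hnk⟩

theorem RU.chart (hX : ∀ x ∈ X, ∀ c : ℂ, c ≠ 0 → c • x ∈ X) (hu : TMap X Λ u) (h : RU X Λ u x n) (h' : IsChart X σ' τ') (h0 : Pr (σ' 0) x) :
    ∃ g, LU Λ u σ' g ∧ ResN n g := by
  obtain ⟨σ, τ, g, hc, hx, hg, hr⟩ := h
  rw [← hx] at h0
  obtain ⟨θ, hθ, hev⟩ := IsChart.trans hX hc h' h0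
  have hσ0 : σ 0 ∈ X := hc.σ_mem.self_of_nhds
  have h00 : u (σ' 0) - u (σ 0) ∈ Λ := ResU_pr hu hσ0 h0
  refine ⟨g ∘ θ, ⟨?_, ?_, ?_⟩, hr.comp hθ⟩
  · have h1 : AnalyticAt ℂ g (θ 0) := by rw [hθ.zero]; exact hg.1
    exact h1.comp hθ.an
  · show g (θ 0) = 0
    rw [hθ.zero]
    exact hg.2.1
  · filter_upwards [hev, hθ.tendsto.eventually hg.2.2, hθ.tendsto.eventually hc.σ_mem] with p hp1 hp2 hp3
    have h1 : u (σ' p) - u (σ (θ p)) ∈ Λ := ResU_pr hu hp3 hp1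
    have h2 : u (σ' p) - u (σ' 0) - (g ∘ θ) p = (u (σ' p) - u (σ (θ p))) + (u (σ (θ p)) - u (σ 0) - g (θ p)) - (u (σ' 0) - u (σ 0)) := by
      simp only [Function.comp_apply]
      ring
    rw [h2]
    exact Λ.sub_mem (Λ.add_mem h1 hp2) h00

theorem RU.pr (hX : ∀ x ∈ X, ∀ c : ℂ, c ≠ 0 → c • x ∈ X) (hu : TMap X Λ u) (h : RU X Λ u x n) (hy : Pr y x) : RU X Λ u y n := by
  obtain ⟨σ, τ, g, hc, hx, hg, hr⟩ := h
  obtain ⟨a, ha, rfl⟩ := hy
  refine ⟨fun p => a • σ p, fun y => τ (a⁻¹ • y), g, hc.scale hX ha, ?_, ⟨hg.1, hg.2.1, ?_⟩, hr⟩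
  · show a • σ 0 = a • x
    rw [hx]
  · have h0 : u (a • σ 0) - u (σ 0) ∈ Λ := hu.smul _ hc.σ_mem.self_of_nhds a ha
    filter_upwards [hg.2.2, hc.σ_mem] with p hp1 hp2
    have h1 : u (a • σ p) - u (σ p) ∈ Λ := hu.smul _ hp2 a ha
    have h2 : u (a • σ p) - u (a • σ 0) - g p = (u (a • σ p) - u (σ p)) + (u (σ p) - u (σ 0) - g p) - (u (a • σ 0) - u (σ 0)) := by ring
    rw [h2]
    exact Λ.sub_mem (Λ.add_mem h1 hp1) h0

theorem RU.near [FiniteDimensional ℂ V] (hX : ∀ x ∈ X, ∀ c : ℂ, c ≠ 0 → c • x ∈ X) (hu : TMap X Λ u) (h : RU X Λ u x n) :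
    ∀ᶠ y in 𝓝 x, y ∈ X → ¬ Pr y x → RU X Λ u y 0 := by
  obtain ⟨σ, τ, g, hc, hx, hg, hr⟩ := h
  have hτ0 : τ (σ 0) = 0 := hc.left.self_of_nhds
  have hτ : Tendsto τ (𝓝 (σ 0)) (𝓝 0) := by
    have h1 := hc.τ_an.continuousAt.tendsto
    rwa [hτ0] at h1
  have hadd : ∀ p : ℂ × ℂ, Tendsto (fun x : ℂ × ℂ => p + x) (𝓝 0) (𝓝 p) := fun p => by
    have h1 : Continuous fun x : ℂ × ℂ => p + x := by fun_prop
    have h2 := h1.tendsto 0
    simpa using h2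
  have e1 : ∀ᶠ p in 𝓝 (0 : ℂ × ℂ), LU Λ u (fun x => σ (p + x)) (fun x => g (p + x) - g p) := by
    filter_upwards [hg.1.eventually_analyticAt, eventually_eventually_nhds.2 hg.2.2] with p hp1 hp2
    refine ⟨?_, by simp, ?_⟩
    · have h1 : AnalyticAt ℂ (fun x : ℂ × ℂ => p + x) 0 := analyticAt_const.add analyticAt_id
      have h2 : AnalyticAt ℂ g ((fun x : ℂ × ℂ => p + x) 0) := by
        simp only [add_zero]
        exact hp1
      exact (h2.comp h1).sub analyticAt_const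
    · have h0 := hp2.self_of_nhds
      filter_upwards [(hadd p).eventually hp2] with x hx2
      have h2 : u (σ (p + x)) - u (σ (p + 0)) - (g (p + x) - g p) = (u (σ (p + x)) - u (σ 0) - g (p + x)) - (u (σ p) - u (σ 0) - g p) := by
        rw [add_zero]
        ring
      rw [h2]
      exact Λ.sub_mem hx2 h0
  have e2 : ∀ᶠ p in 𝓝 (0 : ℂ × ℂ), p ≠ 0 → Pool.Agent.H17BP.Mono fun x => g (p + x) :=
    eventually_nhdsWithin_iff.1 (ResN.near hr)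
  have e4 := crit_near hg.1 hg.2.1
  have e3 : ∀ᶠ p in 𝓝 (0 : ℂ × ℂ), p ≠ 0 → RU X Λ u (σ p) 0 := by
    filter_upwards [hc.near, e1, e2, e4, hg.1.eventually_analyticAt] with p hp1 hp2 hp3 hp4 hp5 hp0
    by_cases hgp : g p = 0
    · refine ⟨_, _, _, hp1, by simp, hp2, ?_⟩
      have h1 : (fun x => g (p + x) - g p) = fun x => g (p + x) := by
        funext x
        rw [hgp, sub_zero]
      rw [h1]
      exact hp3 hp0
    · have hd : fderiv ℂ (fun x => g (p + x) - g p) 0 ≠ 0 := by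
        have h1 : fderiv ℂ (fun x => g (p + x) - g p) 0 = fderiv ℂ g p := by
          rw [fderiv_sub_const, fderiv_comp_add_left, add_zero]
        rw [h1]
        exact hp4 hgp
      have h2 := ru0_of_ne hp1 hp2 hd
      simpa using h2
  rw [← hx]
  filter_upwards [hc.right, hτ.eventually e3] with y hy1 hy2 hyX hyn
  obtain ⟨c, hc0, hyc⟩ := hy1 hyX
  have hne : τ y ≠ 0 := by
    intro h0
    rw [h0] at hyc
    exact hyn ⟨c, hc0, hyc⟩
  exact (hy2 hne).pr hX hu ⟨c, hc0, hyc⟩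

theorem exists_ru (hX : Surface X) (hu : TMap X Λ u) (hn : NonConst X Λ u) (hx : x ∈ X) : ∃ n, RU X Λ u x n := by
  obtain ⟨σ, τ, hc, hσ⟩ := hX.chart x hx
  obtain ⟨g, hg⟩ := exists_lu hu hc
  obtain ⟨n, hr⟩ := Pool.Agent.H17BP.exists_resN hg.1 (hn σ τ g hc hg)
  exact ⟨n, σ, τ, g, hc, hσ, hg, hr⟩

end Pool.Agent.H17N
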