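import Pool.Agent.H17N.BlowF
import Pool.Agent.H17N.ResU

/-!
# H17N BlowG: the form on the blow-up is zero on no open set

* `thin_blow'`: let `σ1, τ1` be a chart of the blow-up, `υ1` a lift, such that the coefficient vanishes near `0`.  By `blow_chart` and `IsChart.trans` we may pass to the chart `σ2` of `blow_chart` at the same point (`σ2 p = c_p • σ1 (θ p)`; the vanishing of the form on `TX × TX` is a
  pointwise statement: the two partial derivatives of `σ1` and the point span the tangent space of the cone; so the form vanishes on all pairs of tangent vectors at all points near the given one; write it for tangent vectors: for `p` near `0`, `α (υ1 p) (σ1 p) v w = 0` for all `v, w ∈ Tan`), and then to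
  `X`: at the points `σ2 p` with `p.1 ≠ 0` the form `α` vanishes on the pairs `(v b, w b)`; these exhaust (modulo the point) the tangent vectors of `X` at `σ' p`, resp. `σ (e (p.1, p.1 p.2))`: the coefficient of `α` in the chart `σ'` (resp. `σ`) composed with the blow-up times the Jacobian
  `p.1 * det e` is the coefficient in `σ2` up to a scaling factor (`add_smul`, `scale`, `det` rules).  So the coefficient of `α` in `σ'` (resp. `σ`) vanishes identically (`van_of_blow`): contradiction to `ThinF X`.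
  In the second case the lift is `υ1`; the germ of a lift of `u` in the chart `σ`: `u (σ 0) ...`: use `exists_lu`-type lift `υ p = υ1 0 + g p`, `g` the germ of `u` in `σ`; then `υ (e (p.1, p.1 p.2)) = υ1 p'` near `0` because `Λ` is discrete (`LU.unique`).
-/

set_option autoImplicit false

open Topology Filter

namespace Pool.Agent.H17N

open Pool.Agent.H17BP (Surface IsChart Tan Pr HolP ResN)
open Pool.Agent.H62.BU (blow phi Ker)

variable {V : Type} [NormedAddCommGroup V] [NormedSpace ℂ V] {ι : Type} [Fintype ι] {l : ι → V →L[ℂ] ℂ} {X : Set V} {q : V}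
  {Λ : AddSubgroup ℂ} {u : V → ℂ} {α : ℂ → V → V → V → ℂ}

private theorem blowG_tan_smul (hX : ∀ x ∈ X, ∀ c : ℂ, c ≠ 0 → c • x ∈ X) {x v : V} (hv : v ∈ Tan X x) {c : ℂ} (hc : c ≠ 0) :
    c • v ∈ Tan X (c • x) := by
  obtain ⟨γ, hγ, hmem, h0, hd⟩ := hv
  refine ⟨fun z => c • γ z, analyticAt_const.smul hγ, ?_, by show c • γ 0 = c • x; rw [h0], ?_⟩
  · filter_upwards [hmem] with z hz
    exact hX _ hz c hc
  · have h1 : HasDerivAt γ v 0 := by
      rw [← hd]; exact hγ.differentiableAt.hasDerivAt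
    exact (h1.const_smul c).deriv

/-- the coefficients of the form in two parametrisations which are proportional -/
private theorem blowG_trans (hX : ∀ x ∈ X, ∀ c : ℂ, c ≠ 0 → c • x ∈ X) (hα : TF X Λ u α) {φ ψ : ℂ × ℂ → V} {β : ℂ × ℂ → ℂ × ℂ} {p : ℂ × ℂ}
    (hφ : AnalyticAt ℂ φ p) (hβ : AnalyticAt ℂ β p) (hψ : AnalyticAt ℂ ψ (β p)) (hψX : ∀ᶠ y in 𝓝 (β p), ψ y ∈ X)
    (hne : ψ (β p) ≠ 0) (hpr : ∀ᶠ y in 𝓝 p, Pr (φ y) (ψ (β y))) {z : ℂ} (hz : u (φ p) - z ∈ Λ) (hz' : u (ψ (β p)) - z ∈ Λ) :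
    α z (φ p) (fderiv ℂ φ p (1, 0)) (fderiv ℂ φ p (0, 1)) =
      ((fderiv ℂ β p (1, 0)).1 * (fderiv ℂ β p (0, 1)).2 - (fderiv ℂ β p (1, 0)).2 * (fderiv ℂ β p (0, 1)).1) *
        α z (ψ (β p)) (fderiv ℂ ψ (β p) (1, 0)) (fderiv ℂ ψ (β p) (0, 1)) := by
  obtain ⟨M, hM⟩ := exists_dual_vector ℂ (ψ (β p)) (norm_ne_zero_iff.mpr hne)
  have hM0 : M (ψ (β p)) ≠ 0 := by
    rw [hM.2]
    simpa using hne
  have hψβ : AnalyticAt ℂ (fun y => ψ (β y)) p := AnalyticAt.comp (g := ψ) (f := β) hψ hβ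
  have hMψ : AnalyticAt ℂ (fun y => M (ψ (β y))) p := AnalyticAt.comp (M.analyticAt _) hψβ
  have hMφ : AnalyticAt ℂ (fun y => M (φ y)) p := AnalyticAt.comp (M.analyticAt _) hφ
  obtain ⟨k, hk⟩ : ∃ k : ℂ × ℂ → ℂ, k = fun y => M (φ y) / M (ψ (β y)) := ⟨_, rfl⟩
  have hka : AnalyticAt ℂ k p := by
    rw [hk]
    exact hMφ.div hMψ hM0
  have hkφ : ∀ᶠ y in 𝓝 p, φ y = k y • ψ (β y) := by
    filter_upwards [hpr, hMψ.continuousAt.eventually_ne hM0] with y h1 h2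
    obtain ⟨c, hc, h3⟩ := h1
    rw [hk]
    simp only
    rw [h3, map_smul, smul_eq_mul, mul_div_cancel_right₀ _ h2]
  have hkp := hkφ.self_of_nhds
  obtain ⟨c, hc, hcp⟩ := hpr.self_of_nhds
  have hk0 : k p ≠ 0 := by
    have h1 : (k p - c) • ψ (β p) = 0 := by
      rw [sub_smul, ← hkp, ← hcp, sub_self]
    rcases smul_eq_zero.1 h1 with h2 | h2
    · rw [sub_eq_zero.1 h2]; exact hc
    · exact absurd h2 hne
  have hxX : ψ (β p) ∈ X := hψX.self_of_nhds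
  have hφX : φ p ∈ X := by
    rw [hkp]
    exact hX _ hxX _ hk0
  -- the derivative of `φ`
  have hd : ∀ w : ℂ × ℂ, fderiv ℂ φ p w = k p • fderiv ℂ ψ (β p) (fderiv ℂ β p w) + (fderiv ℂ k p w / k p) • φ p := by
    intro w
    have h1 : HasFDerivAt (fun y => k y • ψ (β y))
        (k p • (fderiv ℂ ψ (β p)).comp (fderiv ℂ β p) + (fderiv ℂ k p).smulRight (ψ (β p))) p :=
      hka.differentiableAt.hasFDerivAt.smul
        (hψ.differentiableAt.hasFDerivAt.comp p hβ.differentiableAt.hasFDerivAt)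
    have h2 : HasFDerivAt φ
        (k p • (fderiv ℂ ψ (β p)).comp (fderiv ℂ β p) + (fderiv ℂ k p).smulRight (ψ (β p))) p :=
      h1.congr_of_eventuallyEq hkφ
    rw [h2.fderiv]
    simp only [add_apply, smul_apply, ContinuousLinearMap.comp_apply,
      ContinuousLinearMap.smulRight_apply]
    rw [hkp, smul_smul, div_mul_cancel₀ _ hk0]
  -- tangent vectors
  have ht : ∀ w : ℂ × ℂ, fderiv ℂ ψ (β p) w ∈ Tan X (ψ (β p)) := fun w => H62.BU.tan_fderiv hψ hψX w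
  have hlin : ∀ a b : ℂ, fderiv ℂ ψ (β p) (a, b) = a • fderiv ℂ ψ (β p) (1, 0) + b • fderiv ℂ ψ (β p) (0, 1) := by
    intro a b
    rw [← map_smul, ← map_smul, ← map_add]
    simp
  have ht' : ∀ w : ℂ × ℂ, k p • fderiv ℂ ψ (β p) w ∈ Tan X (φ p) := fun w => by
    rw [hkp]
    exact blowG_tan_smul hX (ht w) hk0
  rw [hd (1, 0), hd (0, 1), hα.add_smul z (φ p) hφX hz _ (ht' _) _ (ht' _)]
  conv_lhs => rw [hkp]
  rw [hα.scale z _ hxX hz' _ (ht _) _ (ht _) _ hk0]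
  obtain ⟨⟨a, b⟩, h1⟩ : ∃ w, w = fderiv ℂ β p (1, 0) := ⟨_, rfl⟩
  obtain ⟨⟨c', d⟩, h2⟩ : ∃ w, w = fderiv ℂ β p (0, 1) := ⟨_, rfl⟩
  rw [← h1, ← h2, hlin a b, hlin c' d, hα.det z _ hxX hz' _ (ht _) _ (ht _)]

private theorem blowG_comp {φ : ℂ × ℂ → ι → V} {p : ℂ × ℂ} (hφ : AnalyticAt ℂ φ p) (b : ι) :
    AnalyticAt ℂ (fun y => φ y b) p ∧ ∀ w : ℂ × ℂ, fderiv ℂ (fun y => φ y b) p w = (fderiv ℂ φ p w) b := by
  refine ⟨AnalyticAt.comp ((ContinuousLinearMap.proj (R := ℂ) (φ := fun _ : ι => V) b).analyticAt _) hφ, fun w => ?_⟩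
  have h6 : HasFDerivAt (fun y => φ y b)
      ((ContinuousLinearMap.proj (R := ℂ) (φ := fun _ : ι => V) b).comp (fderiv ℂ φ p)) p :=
    ((ContinuousLinearMap.proj (R := ℂ) (φ := fun _ : ι => V) b).hasFDerivAt (x := φ p)).comp p hφ.differentiableAt.hasFDerivAt
  rw [h6.fderiv]
  rfl

/-- the coefficient of the form in a chart of `X` over a chart of the blow-up with vanishing coefficient -/
private theorem blowG_step [FiniteDimensional ℂ V] (hX : Surface X) (hu : TMap X Λ u) (hα : TF X Λ u α) {σ1 σ2 : ℂ × ℂ → ι → V} {τ1 τ2 : (ι → V) → ℂ × ℂ}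
    {υ1 : ℂ × ℂ → ℂ} (h1 : IsChart (blow l X) σ1 τ1) (hυ : ∀ᶠ p in 𝓝 (0 : ℂ × ℂ), uB u (σ1 p) - υ1 p ∈ Λ)
    (hv : ∀ᶠ p in 𝓝 (0 : ℂ × ℂ), aB α (υ1 p) (σ1 p) (fderiv ℂ σ1 p (1, 0)) (fderiv ℂ σ1 p (0, 1)) = 0)
    (h2 : IsChart (blow l X) σ2 τ2) {θ : ℂ × ℂ → ℂ × ℂ} (hθ : H17BP.Bihol θ) (hp : ∀ᶠ p in 𝓝 (0 : ℂ × ℂ), Pr (σ2 p) (σ1 (θ p)))
    {σ' : ℂ × ℂ → V} {β : ℂ × ℂ → ℂ × ℂ} (hσ' : AnalyticAt ℂ σ' 0) (hσX : ∀ᶠ p in 𝓝 (0 : ℂ × ℂ), σ' p ∈ X) (hσ0 : σ' 0 ≠ 0)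
    (hβ : AnalyticAt ℂ β 0) (hβ0 : β 0 = 0) (hb : ∀ᶠ p in 𝓝 (0 : ℂ × ℂ), ∀ b, σ2 p b ≠ 0 → Pr (σ2 p b) (σ' (β p))) :
    ∀ᶠ p in 𝓝 (0 : ℂ × ℂ), u (σ' (β p)) - υ1 (θ p) ∈ Λ ∧
      ((fderiv ℂ β p (1, 0)).1 * (fderiv ℂ β p (0, 1)).2 - (fderiv ℂ β p (1, 0)).2 * (fderiv ℂ β p (0, 1)).1) *
        α (υ1 (θ p)) (σ' (β p)) (fderiv ℂ σ' (β p) (1, 0)) (fderiv ℂ σ' (β p) (0, 1)) = 0 := by
  have : CompleteSpace V := FiniteDimensional.complete ℂ V
  have hX' := H17BP.surface_iff.2 hX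
  obtain ⟨b, hb0⟩ := H62.BU.exists_ne (σ2 0) h2.σ_mem.self_of_nhds
  have hβt : Tendsto β (𝓝 0) (𝓝 0) := by
    have := hβ.continuousAt.tendsto
    rwa [hβ0] at this
  have hne2 : ∀ᶠ p in 𝓝 (0 : ℂ × ℂ), σ2 p b ≠ 0 := (blowG_comp h2.σ_an b).1.continuousAt.eventually_ne hb0
  have hneσ : ∀ᶠ p in 𝓝 (0 : ℂ × ℂ), σ' (β p) ≠ 0 := by
    have h3 : ∀ᶠ p in 𝓝 (0 : ℂ × ℂ), σ' p ≠ 0 := hσ'.continuousAt.eventually_ne hσ0
    exact hβt.eventually h3
  filter_upwards [hne2, hneσ, hp.eventually_nhds, hb.eventually_nhds, hne2.eventually_nhds, h2.σ_an.eventually_analyticAt,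
    hθ.an.eventually_analyticAt, hθ.tendsto.eventually h1.σ_an.eventually_analyticAt, hβ.eventually_analyticAt,
    hβt.eventually hσ'.eventually_analyticAt, hβt.eventually hσX.eventually_nhds, h2.σ_mem,
    hθ.tendsto.eventually h1.σ_mem.eventually_nhds, hθ.tendsto.eventually hυ, hθ.tendsto.eventually hv]
    with p e1 e2 e3 e4 e5 e6 e7 e8 e9 e10 e11 e12 e13 e14 e15
  -- the components
  have f1 : σ1 (θ p) b ≠ 0 := by
    intro h0
    obtain ⟨c, hc, h3⟩ := e3.self_of_nhds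
    refine e1 ?_
    rw [h3, Pi.smul_apply, h0, smul_zero]
  have f2 : σ2 p b ∈ X := H62.BU.comp_mem hX' _ e12 e1
  have f3 : σ1 (θ p) b ∈ X := H62.BU.comp_mem hX' _ e13.self_of_nhds f1
  have f4 : u (σ1 (θ p) b) - υ1 (θ p) ∈ Λ := by
    have h3 := uB_eq hX hu e13.self_of_nhds f1
    have h4 := Λ.sub_mem e14 h3
    have h5 : uB u (σ1 (θ p)) - υ1 (θ p) - (uB u (σ1 (θ p)) - u (σ1 (θ p) b)) = u (σ1 (θ p) b) - υ1 (θ p) := by ring
    rwa [h5] at h4
  have f5 : u (σ2 p b) - υ1 (θ p) ∈ Λ := by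
    obtain ⟨c, hc, h3⟩ := e3.self_of_nhds
    have h4 := hu.smul _ f3 c hc
    have h5 := Λ.add_mem h4 f4
    rw [h3, Pi.smul_apply]
    have h6 : u (c • σ1 (θ p) b) - u (σ1 (θ p) b) + (u (σ1 (θ p) b) - υ1 (θ p)) = u (c • σ1 (θ p) b) - υ1 (θ p) := by ring
    rwa [h6] at h5
  have f6 : u (σ' (β p)) - υ1 (θ p) ∈ Λ := by
    obtain ⟨c, hc, h3⟩ := e4.self_of_nhds b e1
    have h4 := hu.smul _ e11.self_of_nhds c hc
    rw [← h3] at h4
    have h5 := Λ.sub_mem f5 h4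
    have h6 : u (σ2 p b) - υ1 (θ p) - (u (σ2 p b) - u (σ' (β p))) = u (σ' (β p)) - υ1 (θ p) := by ring
    rwa [h6] at h5
  refine ⟨f6, ?_⟩
  -- the form vanishes at `σ1 (θ p)`
  have g1 : α (υ1 (θ p)) (σ1 (θ p) b) (fderiv ℂ (fun y => σ1 y b) (θ p) (1, 0)) (fderiv ℂ (fun y => σ1 y b) (θ p) (0, 1)) = 0 := by
    rw [(blowG_comp e8 b).2, (blowG_comp e8 b).2]
    rw [← aB_eq hX hu hα e13.self_of_nhds e14 (H62.BU.tan_fderiv e8 e13 (1, 0)) (H62.BU.tan_fderiv e8 e13 (0, 1)) f1]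
    exact e15
  have t1 : Tendsto (fun y => σ1 y b) (𝓝 (θ p)) (𝓝 (σ1 (θ p) b)) := (blowG_comp e8 b).1.continuousAt
  have g2 : α (υ1 (θ p)) (σ2 p b) (fderiv ℂ (fun y => σ2 y b) p (1, 0)) (fderiv ℂ (fun y => σ2 y b) p (0, 1)) = 0 := by
    have h3 := blowG_trans (φ := fun y => σ2 y b) (ψ := fun y => σ1 y b) (β := θ) (p := p) hX.smul hα (blowG_comp e6 b).1 e7
      (blowG_comp e8 b).1 (by
        filter_upwards [e13, t1.eventually_ne f1] with y h4 h5
        exact H62.BU.comp_mem hX' _ h4 h5) f1 (by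
        filter_upwards [e3] with y h4
        obtain ⟨c, hc, h5⟩ := h4
        exact ⟨c, hc, by rw [h5, Pi.smul_apply]⟩) f5 f4
    rw [h3, g1, mul_zero]
  have h3 := blowG_trans (φ := fun y => σ2 y b) (ψ := σ') (β := β) (p := p) hX.smul hα (blowG_comp e6 b).1 e9
      e10 e11 e2 (by
        filter_upwards [e4, e5] with y h4 h5
        exact h4 b h5) f5 f6
  rw [← h3]
  exact g2

theorem thin_blow' [FiniteDimensional ℂ V] (hΛ : ∃ δ : ℝ, 0 < δ ∧ ∀ l ∈ Λ, ‖l‖ < δ → l = 0) (hX : Surface X) (hu : TMap X Λ u) (hα : TF X Λ u α)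
    (hl : Ker l q) (hq : q ∈ X) (ht : ThinF X Λ u α) : ThinF (blow l X) Λ (uB u) (aB α) := by
  intro σ1 τ1 υ1 h1 hυa hυ hv
  obtain ⟨σ, τ, hσ, hσ0⟩ := hX.chart q hq
  rcases blow_chart hX hl hσ hσ0 (y := σ1 0) h1.σ_mem.self_of_nhds with
    ⟨σ', τ', σ2, τ2, h', -, h2, h20, -, hb⟩ | ⟨e, σ2, τ2, h2, h20, hb⟩
  · obtain ⟨θ, hθ, hp⟩ := IsChart.trans H62.BU.blow_smul h1 h2 (by rw [h20]; exact Pr.refl _)
    have hst := blowG_step hX hu hα h1 hυ hv h2 hθ hp h'.σ_an h'.σ_mem h'.ne (β := fun p => p) analyticAt_id rfl hb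
    refine ht σ' τ' (fun p => υ1 (θ p)) h' ?_ (hst.mono fun p hp => hp.1) ?_
    · refine AnalyticAt.comp (g := υ1) (f := θ) ?_ hθ.an
      rw [hθ.zero]
      exact hυa
    · filter_upwards [hst] with p hp
      have h3 := hp.2
      have h4 : fderiv ℂ (fun p : ℂ × ℂ => p) p = ContinuousLinearMap.id ℂ (ℂ × ℂ) := fderiv_id
      rw [h4] at h3
      simpa using h3
  · obtain ⟨θ, hθ, hp⟩ := IsChart.trans H62.BU.blow_smul h1 h2 (by rw [h20]; exact Pr.refl _)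
    obtain ⟨β, hβ⟩ : ∃ β : ℂ × ℂ → ℂ × ℂ, β = fun p => e (p.1, p.1 * p.2) := ⟨_, rfl⟩
    have hin : ∀ p : ℂ × ℂ, HasFDerivAt (fun p : ℂ × ℂ => ((p.1, p.1 * p.2) : ℂ × ℂ))
        ((ContinuousLinearMap.fst ℂ ℂ ℂ).prod (p.1 • ContinuousLinearMap.snd ℂ ℂ ℂ + p.2 • ContinuousLinearMap.fst ℂ ℂ ℂ)) p := by
      intro p
      exact hasFDerivAt_fst.prodMk (hasFDerivAt_fst.mul hasFDerivAt_snd)
    have hβa : AnalyticAt ℂ β 0 := by
      rw [hβ]
      refine AnalyticAt.comp (g := fun p => e p) (f := fun p : ℂ × ℂ => ((p.1, p.1 * p.2) : ℂ × ℂ))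
        (e.toContinuousLinearMap.analyticAt _) ?_
      exact analyticAt_fst.prod (analyticAt_fst.mul analyticAt_snd)
    have hβ0 : β 0 = 0 := by
      rw [hβ]
      simp
    have hβd : ∀ p w : ℂ × ℂ, fderiv ℂ β p w = e (w.1, p.1 * w.2 + p.2 * w.1) := by
      intro p w
      have h3 : HasFDerivAt β ((e.toContinuousLinearMap).comp
          ((ContinuousLinearMap.fst ℂ ℂ ℂ).prod (p.1 • ContinuousLinearMap.snd ℂ ℂ ℂ + p.2 • ContinuousLinearMap.fst ℂ ℂ ℂ))) p := by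
        rw [hβ]
        exact (e.toContinuousLinearMap.hasFDerivAt).comp p (hin p)
      rw [h3.fderiv]
      simp
    have hst := blowG_step hX hu hα h1 hυ hv h2 hθ hp hσ.σ_an hσ.σ_mem hσ.ne hβa hβ0 (by rw [hβ]; exact hb)
    -- the lift
    obtain ⟨g, hga, hg0, hg⟩ := exists_lu hu hσ
    have h0 : u (σ 0) - υ1 0 ∈ Λ := by
      have h3 := hst.self_of_nhds.1
      rwa [hβ0, hθ.zero] at h3
    have hlift : ∀ᶠ p in 𝓝 (0 : ℂ × ℂ), u (σ p) - (υ1 0 + g p) ∈ Λ := by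
      filter_upwards [hg] with p h3
      have h4 := Λ.add_mem h3 h0
      have h5 : u (σ p) - u (σ 0) - g p + (u (σ 0) - υ1 0) = u (σ p) - (υ1 0 + g p) := by ring
      rwa [h5] at h4
    have hβt : Tendsto β (𝓝 0) (𝓝 0) := by
      have := hβa.continuousAt.tendsto
      rwa [hβ0] at this
    have huniq : ∀ᶠ p in 𝓝 (0 : ℂ × ℂ), g (β p) = υ1 (θ p) - υ1 0 := by
      refine LU.unique (a := fun p => u (σ (β p)) - υ1 0) (g := fun p => g (β p)) (g' := fun p => υ1 (θ p) - υ1 0) hΛ ?_ ?_ ?_ ?_ ?_ ?_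
      · refine AnalyticAt.comp (g := g) (f := β) ?_ hβa
        rw [hβ0]
        exact hga
      · refine (AnalyticAt.comp (g := υ1) (f := θ) ?_ hθ.an).sub analyticAt_const
        rw [hθ.zero]
        exact hυa
      · simp only [hβ0, hg0]
      · simp only [hθ.zero, sub_self]
      · filter_upwards [hβt.eventually hlift] with p h3
        have h5 : u (σ (β p)) - υ1 0 - g (β p) = u (σ (β p)) - (υ1 0 + g (β p)) := by ring
        rw [h5]
        exact h3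
      · filter_upwards [hst] with p h3
        have h5 : u (σ (β p)) - υ1 0 - (υ1 (θ p) - υ1 0) = u (σ (β p)) - υ1 (θ p) := by ring
        rw [h5]
        exact h3.1
    -- the coefficient in the chart `σ`
    obtain ⟨G, hG⟩ : ∃ G : ℂ × ℂ → ℂ, G = fun p => α (υ1 0 + g p) (σ p) (fderiv ℂ σ p (1, 0)) (fderiv ℂ σ p (0, 1)) := ⟨_, rfl⟩
    have hυσ : AnalyticAt ℂ (fun p => υ1 0 + g p) 0 := analyticAt_const.add hga
    have hGa : AnalyticAt ℂ G 0 := by
      rw [hG]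
      exact hα.analytic σ (fun p => υ1 0 + g p) 0 hσ.σ_an hυσ (hσ.σ_mem.and hlift)
    refine ht σ τ (fun p => υ1 0 + g p) hσ hυσ hlift ?_
    have hdet : (e (1, 0)).1 * (e (0, 1)).2 - (e (1, 0)).2 * (e (0, 1)).1 ≠ 0 := by
      intro hdet
      -- the image of a vector vanishes
      have h3 : ∀ w : ℂ × ℂ, w = 0 ∨ w ≠ 0 := fun w => em _
      have h4 : (e (0, 1)).2 • (1, 0) - (e (1, 0)).2 • (0, 1) = (0 : ℂ × ℂ) ∧ (e (0, 1)).1 • (1, 0) - (e (1, 0)).1 • (0, 1) = (0 : ℂ × ℂ) := by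
        constructor
        · apply e.injective
          rw [map_sub, map_smul, map_smul, map_zero]
          ext
          · simp only [Prod.fst_sub, Prod.smul_fst, smul_eq_mul, Prod.fst_zero]
            linear_combination hdet
          · simp only [Prod.snd_sub, Prod.smul_snd, smul_eq_mul, Prod.snd_zero]
            ring
        · apply e.injective
          rw [map_sub, map_smul, map_smul, map_zero]
          ext
          · simp only [Prod.fst_sub, Prod.smul_fst, smul_eq_mul, Prod.fst_zero]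
            ring
          · simp only [Prod.snd_sub, Prod.smul_snd, smul_eq_mul, Prod.snd_zero]
            linear_combination -hdet
      obtain ⟨h5, h6⟩ := h4
      rw [Prod.ext_iff] at h5 h6
      simp only [Prod.fst_sub, Prod.snd_sub, Prod.smul_fst, Prod.smul_snd, smul_eq_mul, mul_one, mul_zero, Prod.fst_zero,
        Prod.snd_zero, sub_zero, zero_sub, neg_eq_zero] at h5 h6
      have h7 : e (1, 0) = 0 := Prod.ext h6.2 h5.2
      have h8 := e.injective (h7.trans (map_zero e).symm)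
      simp at h8
    have hGβ : ∀ᶠ p in 𝓝 (0 : ℂ × ℂ), p.1 ≠ 0 → G (β p) = 0 := by
      filter_upwards [hst, huniq] with p h3 h4 h5
      obtain ⟨-, h6⟩ := h3
      rw [hβd, hβd] at h6
      have h7 : υ1 (θ p) = υ1 0 + g (β p) := by rw [h4]; ring
      rw [h7] at h6
      rw [hG]
      simp only
      have h8 : ∀ a b : ℂ, e (a, b) = a • e (1, 0) + b • e (0, 1) := by
        intro a b
        rw [← map_smul, ← map_smul, ← map_add]
        simp
      simp only at h6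
      rw [h8 1 (p.1 * 0 + p.2 * 1), h8 0 (p.1 * 1 + p.2 * 0)] at h6
      simp only [Prod.fst_add, Prod.snd_add, Prod.smul_fst, Prod.smul_snd, smul_eq_mul] at h6
      rcases mul_eq_zero.1 h6 with h9 | h9
      · exfalso
        refine mul_ne_zero h5 hdet ?_
        linear_combination h9
      · exact h9
    have hGc : ∀ᶠ p in 𝓝 (0 : ℂ × ℂ), ContinuousAt (fun p => G (β p)) p := by
      have h3 : AnalyticAt ℂ (fun p => G (β p)) 0 := by
        refine AnalyticAt.comp (g := G) (f := β) ?_ hβa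
        rw [hβ0]
        exact hGa
      exact h3.eventually_analyticAt.mono fun p hp => hp.continuousAt
    have hGz : ∀ᶠ p : ℂ × ℂ in 𝓝 0, G (e (p.1, p.1 * p.2)) = 0 := by
      filter_upwards [hGβ.eventually_nhds, hGc] with p h3 h4
      have e1 : G (e (p.1, p.1 * p.2)) = G (β p) := by rw [hβ]
      rw [e1]
      by_cases h0 : p.1 = 0
      · have h5 : Tendsto (fun s : ℂ => ((p.1 + s, p.2) : ℂ × ℂ)) (𝓝[≠] 0) (𝓝 p) := by
          have h6 : Continuous (fun s : ℂ => ((p.1 + s, p.2) : ℂ × ℂ)) := by fun_prop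
          have h7 := h6.tendsto 0
          simp only [add_zero] at h7
          exact h7.mono_left nhdsWithin_le_nhds
        have h6 : Tendsto (fun s : ℂ => G (β (p.1 + s, p.2))) (𝓝[≠] 0) (𝓝 (G (β p))) :=
          h4.tendsto.comp h5
        have h7 : (fun s : ℂ => G (β (p.1 + s, p.2))) =ᶠ[𝓝[≠] 0] fun _ => 0 := by
          filter_upwards [h5.eventually h3, self_mem_nhdsWithin] with s h8 h9
          refine h8 ?_
          simp only [h0, zero_add]
          exact h9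
        exact tendsto_nhds_unique h6 (tendsto_const_nhds.congr' h7.symm)
      · exact h3.self_of_nhds h0
    filter_upwards [van_of_blow hGa e hGz] with p h3
    rw [hG] at h3
    exact h3

end Pool.Agent.H17N
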