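import Pool.Agent.H17N.Defs
import Pool.Agent.H17EF.MainE

/-!
# H17N BaseB: the curves with `u (f z) = z` and their lifts

* `finSec_of_ss`: `L : V ≃L[ℂ] EN M`.  Let `f ∈ HSec X Λ u`.  `z ↦ Projectivization.mk ℂ ((LE M).symm (L (f z)))` is holomorphic (`HolomorphicInto` from `HolP`), so it has a global lift (`H17EF.exists_lift`): `F : ℂ → EN M` differentiable, `F z = c • L (f z)`, `c ≠ 0` (depending on `z`).  `F ∈ Sec (L.symm ⁻¹' X) Λ (u ∘ L.symm)`
  (`tor.smul`).  The finite set: `SS` is the image of `Sec`; choose for every element of the finite set `SS` an `F₀ ∈ Sec` with this image, and put `g z = L.symm (F₀ z)`; if `pr (F z) = pr (F₀ z)` then `F z` and `F₀ z` are proportional (`pr_eq_iff` in H62/EF), so `Pr (f z) (g z)`.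
* `ss_of_finSec`: conversely, `X = cone P`, `V = Fin (N+1) → ℂ`: `F ∈ Sec (coneE P) Λ w` gives `f z = (LE N).symm (F z)` in `HSec (cone P) Λ (fun x => w (LE N x))`; if `Pr (f z) (g z)` for all `z` then `pr (F z) = pr (LE N (g z))` (`pr_smul`): so `SS` is contained in the image of `S` under
  `g ↦ (z ↦ pr (LE N (g z)))`.
-/

set_option autoImplicit false

open Topology Filter

namespace Pool.Agent.H17N

open Pool.Agent.H17BP (Surface IsChart Tan Pr HolP ResN)
open Pool.Agent.H36.BP (EN)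
open Pool.Agent.H62.EF (Lat SS Sec pr pr_smul pr_eq_iff)
open Pool.Agent.H17EF (coneE LE)
open Pool.Agent.H13.SM (cone)

variable {V : Type} [NormedAddCommGroup V] [NormedSpace ℂ V] [FiniteDimensional ℂ V] {X : Set V} {Λ : AddSubgroup ℂ} {u : V → ℂ} {M N : ℕ}

omit [FiniteDimensional ℂ V] in
/-- the global lift of a holomorphic map to the projective space -/
private theorem BaseB_lift (L : V ≃L[ℂ] EN M) (hX : Surface X) {f : ℂ → V} (hf : ∀ z, HolP f z) (hfX : ∀ z, f z ∈ X) :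
    ∃ F : ℂ → EN M, Differentiable ℂ F ∧ ∀ z, ∃ c : ℂ, c ≠ 0 ∧ F z = c • L (f z) := by
  have hf0 : ∀ z, f z ≠ 0 := fun z h0 => hX.zero (h0 ▸ hfX z)
  have hne : ∀ z, (LE M).symm (L (f z)) ≠ 0 := fun z h0 => hf0 z (by simpa using h0)
  have hhol : Pool.Agent.H17.HolomorphicInto (fun z => Projectivization.mk ℂ ((LE M).symm (L (f z))) (hne z)) Set.univ := by
    intro z _
    obtain ⟨G, hG, hG0, hG1⟩ := hf z
    have h1 : AnalyticAt ℂ (fun w => L (G w)) z := ((L : V →L[ℂ] EN M).analyticAt _).comp hG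
    refine ⟨fun w => (LE M).symm (L (G w)), (((LE M).symm : EN M →L[ℂ] (Fin (M + 1) → ℂ)).analyticAt _).comp h1, ?_⟩
    filter_upwards [hG1, hG.continuousAt.eventually_ne hG0] with w hw hw0
    obtain ⟨c, hc, hw1⟩ := hw
    refine ⟨fun h0 => hw0 (by simpa using h0), ?_⟩
    rw [Projectivization.mk_eq_mk_iff']
    exact ⟨c, by rw [hw1, map_smul, map_smul]⟩
  obtain ⟨F, hF, hF1⟩ := Pool.Agent.H17EF.exists_lift hhol
  refine ⟨F, hF, fun z => ?_⟩
  obtain ⟨h0, h1⟩ := hF1 z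
  rw [Projectivization.mk_eq_mk_iff'] at h1
  obtain ⟨a, ha⟩ := h1
  -- `a • (LE M).symm (F z) = (LE M).symm (L (f z))`
  have h2 : a • F z = L (f z) := by
    have h3 := congrArg (fun y => (LE M) y) ha
    simpa using h3
  have ha0 : a ≠ 0 := by
    rintro rfl
    rw [zero_smul] at h2
    exact hf0 z (by simpa using h2.symm)
  refine ⟨a⁻¹, inv_ne_zero ha0, ?_⟩
  rw [← h2, smul_smul, inv_mul_cancel₀ ha0, one_smul]

theorem finSec_of_ss (L : V ≃L[ℂ] EN M) (hX : Surface X) (hu : TMap X Λ u)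
    (h : (SS (L.symm ⁻¹' X : Set (EN M)) Λ (fun x => u (L.symm x))).Finite) : FinSec X Λ u := by
  classical
  have hS0 : ∀ F ∈ Sec (L.symm ⁻¹' X : Set (EN M)) Λ (fun x => u (L.symm x)), ∀ z, F z ≠ 0 := by
    intro F hF z h0
    have h1 : L.symm (F z) ∈ X := hF.2.1 z
    rw [h0, map_zero] at h1
    exact hX.zero h1
  let G : (ℂ → Pool.Agent.H62.EF.MN M) → ℂ → V := fun Φ =>
    if hΦ : Φ ∈ SS (L.symm ⁻¹' X : Set (EN M)) Λ (fun x => u (L.symm x)) then fun z => L.symm (hΦ.choose z) else fun _ => 0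
  refine ⟨G '' SS (L.symm ⁻¹' X : Set (EN M)) Λ (fun x => u (L.symm x)), h.image G, fun f hf => ?_⟩
  obtain ⟨F, hF, hFf⟩ := BaseB_lift L hX hf.1 hf.2.1
  have hFS : F ∈ Sec (L.symm ⁻¹' X : Set (EN M)) Λ (fun x => u (L.symm x)) := by
    refine ⟨hF, fun z => ?_, fun z => ?_⟩
    · obtain ⟨c, hc, hz⟩ := hFf z
      change L.symm (F z) ∈ X
      rw [hz, map_smul, ContinuousLinearEquiv.symm_apply_apply]
      exact hX.smul _ (hf.2.1 z) c hc
    · obtain ⟨c, hc, hz⟩ := hFf z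
      change u (L.symm (F z)) - z ∈ Λ
      rw [hz, map_smul, ContinuousLinearEquiv.symm_apply_apply]
      have h1 := Λ.add_mem (hu.smul _ (hf.2.1 z) c hc) (hf.2.2 z)
      rwa [sub_add_sub_cancel] at h1
  have hΦ : (fun z => pr (F z)) ∈ SS (L.symm ⁻¹' X : Set (EN M)) Λ (fun x => u (L.symm x)) := ⟨F, hFS, rfl⟩
  refine ⟨G fun z => pr (F z), Set.mem_image_of_mem G hΦ, fun z => ?_⟩
  have hG : G (fun z => pr (F z)) = fun z => L.symm (hΦ.choose z) := dif_pos hΦ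
  rw [hG]
  have h1 := hΦ.choose_spec
  have h2 : pr (F z) = pr (hΦ.choose z) := congrFun h1.2 z
  obtain ⟨d, hd, h3⟩ := (pr_eq_iff (hS0 F hFS z) (hS0 _ h1.1 z)).1 h2
  obtain ⟨c, hc, hz⟩ := hFf z
  refine ⟨c⁻¹ * d, mul_ne_zero (inv_ne_zero hc) hd, ?_⟩
  have h4 : f z = c⁻¹ • L.symm (F z) := by
    rw [hz, map_smul, ContinuousLinearEquiv.symm_apply_apply, smul_smul, inv_mul_cancel₀ hc, one_smul]
  rw [h4, h3, map_smul, smul_smul]

theorem ss_of_finSec {P : Ideal (MvPolynomial (Fin (N + 1)) ℂ)} (hS : Surface (cone P)) {w : EN N → ℂ} (h : FinSec (cone P) Λ (fun x => w (LE N x))) :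
    (SS (coneE P) Λ w).Finite := by
  obtain ⟨S, hSf, hSm⟩ := h
  refine (hSf.image fun g : ℂ → Fin (N + 1) → ℂ => fun z => pr (LE N (g z))).subset ?_
  rintro Φ ⟨F, hF, rfl⟩
  have hf : (fun z => (LE N).symm (F z)) ∈ HSec (cone P) Λ (fun x => w (LE N x)) := by
    refine ⟨fun z => ⟨fun z => (LE N).symm (F z), ?_, ?_, Eventually.of_forall fun z => Pool.Agent.H17BP.Pr.refl _⟩, fun z => hF.2.1 z, fun z => ?_⟩
    · exact (((LE N).symm : EN N →L[ℂ] (Fin (N + 1) → ℂ)).analyticAt _).comp (hF.1.analyticAt z)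
    · exact (hF.2.1 z).1
    · change w (LE N ((LE N).symm (F z))) - z ∈ Λ
      rw [ContinuousLinearEquiv.apply_symm_apply]
      exact hF.2.2 z
  obtain ⟨g, hg, hg1⟩ := hSm _ hf
  refine ⟨g, hg, ?_⟩
  funext z
  obtain ⟨c, hc, h1⟩ := hg1 z
  have h2 : F z = c • LE N (g z) := by
    have h3 := congrArg (fun y => (LE N) y) h1
    simpa using h3
  change pr (LE N (g z)) = pr (F z)
  rw [h2, pr_smul _ hc]

end Pool.Agent.H17N
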