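import Pool.Agent.H17BP.BlowM
import Pool.Agent.H17BP.Model

/-!
# H17N BlowP: charts of the blow-up, with the projection

`blow_chart`: copy of the proof of `H62.BU.blow_local` (H62/BU/SurfB.lean) with another conclusion.  First case (off the exceptional curve): `σ1 p = c • phi l (σ' p)`, `(σ1 p) b = (c * l b (σ' p)) • σ' p`.  Second case:
`c • phi l (σ (e (p.1, p.1 * p.2))) = p.1 • σ1 p` near `0` (private lemma `SurfB_exc`, copy it): so for `p.1 ≠ 0` the component `(σ1 p) b` is a multiple of `σ (e (..))`; by the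
identity theorem / continuity (as at the end of the proof of `blow_local`, with a linear form `Λ` with `Λ (σ 0) ≠ 0`: `Λ (σ (e ..)) • σ1 p b = Λ (σ1 p b) • σ (e ..)` near `0`) this is true for all `p` near `0`.
`chart_iff`, `surface_iff` translate between H17BP and H62.BU.
-/

set_option autoImplicit false

open Topology Filter

namespace Pool.Agent.H17N

open Pool.Agent.H17BP (Surface IsChart Pr)
open Pool.Agent.H62.BU (blow phi Ker)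

variable {V : Type} [NormedAddCommGroup V] [NormedSpace ℂ V] {ι : Type} [Fintype ι] {l : ι → V →L[ℂ] ℂ} {X : Set V} {q : V}
  {σ : ℂ × ℂ → V} {τ : V → ℂ × ℂ}

private theorem BlowP_fderiv (h : H62.BU.IsChart X σ τ) (e : (ℂ × ℂ) ≃L[ℂ] (ℂ × ℂ)) (w : ℂ × ℂ) :
    fderiv ℂ (fun p => σ (e p)) 0 w = fderiv ℂ σ 0 (e w) := by
  have h1 : DifferentiableAt ℂ σ (e 0) := by
    rw [map_zero]
    exact h.σ_an.differentiableAt
  have h2 : HasFDerivAt (fun p => σ (e p)) ((fderiv ℂ σ (e 0)).comp (e : (ℂ × ℂ) →L[ℂ] (ℂ × ℂ))) 0 :=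
    h1.hasFDerivAt.comp 0 e.hasFDerivAt
  rw [h2.fderiv]
  simp [map_zero]

/-- chart of the blow-up at a point over `q` -/
private theorem BlowP_exc [FiniteDimensional ℂ V] (hX : H62.BU.Surface X) {q : V} (hl : Ker l q) (h : H62.BU.IsChart X σ τ) (h0 : σ 0 = q)
    {w : ℂ × ℂ} (hw : w ≠ 0) {c : ℂ} (hc : c ≠ 0) :
    ∃ (e : (ℂ × ℂ) ≃L[ℂ] (ℂ × ℂ)) (σ1 : ℂ × ℂ → ι → V) (τ1 : (ι → V) → ℂ × ℂ), H62.BU.IsChart (blow l X) σ1 τ1 ∧
      (σ1 0 = c • fun b => l b (fderiv ℂ σ 0 w) • q) ∧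
      ∀ᶠ p in 𝓝 (0 : ℂ × ℂ), c • phi l (σ (e (p.1, p.1 * p.2))) = p.1 • σ1 p := by
  obtain ⟨e, he⟩ := H62.BU.exists_equiv hw
  obtain ⟨σ1, τ1, h1, h2, h3⟩ := H62.BU.chart_exc hX hl (h.comp_linear e) (by simp only [map_zero]; exact h0)
  refine ⟨e, _, _, h1.scale H62.BU.blow_smul hc, ?_, ?_⟩
  · rw [h3]
    simp only [BlowP_fderiv h e, he]
  · filter_upwards [h2] with p hp
    rw [hp, smul_comm]

theorem blow_chart [FiniteDimensional ℂ V] (hX : Surface X) (hl : Ker l q) (h : IsChart X σ τ) (h0 : σ 0 = q) {y : ι → V} (hy : y ∈ blow l X) :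
    (∃ σ' τ' σ1 τ1, IsChart X σ' τ' ∧ (∃ b, l b (σ' 0) ≠ 0) ∧ IsChart (blow l X) σ1 τ1 ∧ σ1 0 = y ∧
      (∃ c : ℂ, c ≠ 0 ∧ ∀ p, σ1 p = c • phi l (σ' p)) ∧ ∀ᶠ p in 𝓝 (0 : ℂ × ℂ), ∀ b, σ1 p b ≠ 0 → Pr (σ1 p b) (σ' p)) ∨
    ∃ (e : (ℂ × ℂ) ≃L[ℂ] (ℂ × ℂ)) (σ1 : ℂ × ℂ → ι → V) (τ1 : (ι → V) → ℂ × ℂ), IsChart (blow l X) σ1 τ1 ∧ σ1 0 = y ∧
      ∀ᶠ p in 𝓝 (0 : ℂ × ℂ), ∀ b, σ1 p b ≠ 0 → Pr (σ1 p b) (σ (e (p.1, p.1 * p.2))) := by
  have hX' := H17BP.surface_iff.2 hX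
  have h' := H17BP.chart_iff.2 h
  rcases H62.BU.blow_cover hX' hl h' h0 y hy with hd | ⟨w, hw, c, hc, rfl⟩
  · left
    obtain ⟨x, hx, ⟨b, hb⟩, c, hc, rfl⟩ := hd
    obtain ⟨σ', τ', h1, h10⟩ := hX'.chart x hx
    have hb' : l b (σ' 0) ≠ 0 := by rw [h10]; exact hb
    have h2 := (H62.BU.chart_off hX' h1 hb').scale H62.BU.blow_smul hc
    refine ⟨σ', τ', _, _, H17BP.chart_iff.1 h1, ⟨b, hb'⟩, H17BP.chart_iff.1 h2, by simp only [h10], ⟨c, hc, fun p => rfl⟩,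
      Eventually.of_forall fun p b' hb2 => ⟨c * l b' (σ' p), ?_, ?_⟩⟩
    · intro h3
      apply hb2
      simp only [phi, Pi.smul_apply, smul_smul, h3, zero_smul]
    · simp only [phi, Pi.smul_apply, smul_smul]
  · right
    obtain ⟨e, σ1, τ1, h1, h2, h3⟩ := BlowP_exc hX' hl h' h0 hw hc
    refine ⟨e, σ1, τ1, H17BP.chart_iff.1 h1, h2, ?_⟩
    have hq0 : σ 0 ≠ 0 := h'.ne
    obtain ⟨Λ, -, hΛ⟩ := exists_dual_vector ℂ (σ 0) (norm_ne_zero_iff.mpr hq0)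
    have hΛ0 : Λ (σ 0) ≠ 0 := by
      rw [hΛ]
      simpa using hq0
    have hinner : AnalyticAt ℂ (fun p : ℂ × ℂ => e (p.1, p.1 * p.2)) 0 := by
      have h4 : AnalyticAt ℂ (fun p : ℂ × ℂ => (p.1, p.1 * p.2)) 0 :=
        analyticAt_fst.prod (analyticAt_fst.mul analyticAt_snd)
      exact ((e : (ℂ × ℂ) →L[ℂ] (ℂ × ℂ)).analyticAt _).comp h4
    have hz : e ((0 : ℂ × ℂ).1, (0 : ℂ × ℂ).1 * (0 : ℂ × ℂ).2) = 0 := by simp
    have hσe : AnalyticAt ℂ (fun p : ℂ × ℂ => σ (e (p.1, p.1 * p.2))) 0 := by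
      refine AnalyticAt.fun_comp (g := σ) ?_ hinner
      rw [hz]
      exact h'.σ_an
    have hcomp : ∀ b, AnalyticAt ℂ (fun p => σ1 p b) 0 := fun b =>
      ((ContinuousLinearMap.proj (R := ℂ) (φ := fun _ : ι => V) b).analyticAt _).comp h1.σ_an
    have hG : ∀ b, AnalyticAt ℂ (fun p : ℂ × ℂ => Λ (σ (e (p.1, p.1 * p.2))) • σ1 p b - Λ (σ1 p b) • σ (e (p.1, p.1 * p.2))) 0 := by
      intro b
      exact (((Λ.analyticAt _).comp hσe).smul (hcomp b)).sub (((Λ.analyticAt _).comp (hcomp b)).smul hσe)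
    have hG0 : ∀ b, ∀ᶠ p in 𝓝 (0 : ℂ × ℂ), Λ (σ (e (p.1, p.1 * p.2))) • σ1 p b - Λ (σ1 p b) • σ (e (p.1, p.1 * p.2)) = 0 := by
      intro b
      have h5 : ∀ᶠ p in 𝓝 (0 : ℂ × ℂ), p.1 ≠ 0 →
          Λ (σ (e (p.1, p.1 * p.2))) • σ1 p b - Λ (σ1 p b) • σ (e (p.1, p.1 * p.2)) = 0 := by
        filter_upwards [h3] with p hp hp1
        have h6 : σ1 p = p.1⁻¹ • (c • phi l (σ (e (p.1, p.1 * p.2)))) := by
          rw [hp, smul_smul, inv_mul_cancel₀ hp1, one_smul]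
        have h7 : σ1 p b = (p.1⁻¹ * (c * l b (σ (e (p.1, p.1 * p.2))))) • σ (e (p.1, p.1 * p.2)) := by
          rw [h6]
          simp only [phi, Pi.smul_apply, smul_smul]
        rw [h7, map_smul, smul_eq_mul, smul_smul, mul_comm, sub_self]
      filter_upwards [(hG b).eventually_analyticAt, h5.eventually_nhds] with p hp1 hp2
      have h8 : ∃ᶠ p' in 𝓝 p, p'.1 ≠ 0 := by
        have h9 : Dense (({0}ᶜ : Set ℂ) ×ˢ (Set.univ : Set ℂ)) := (dense_compl_singleton (0 : ℂ)).prod dense_univ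
        have h10 := mem_closure_iff_frequently.mp (h9 p)
        refine h10.mono fun p' hp' => ?_
        exact hp'.1
      have h11 := (h8.and_eventually hp2).mono fun p' hp' => hp'.2 hp'.1
      exact tendsto_nhds_unique_of_frequently_eq hp1.continuousAt tendsto_const_nhds h11
    have hΛe : ∀ᶠ p in 𝓝 (0 : ℂ × ℂ), Λ (σ (e (p.1, p.1 * p.2))) ≠ 0 := by
      have h12 : ContinuousAt (fun p : ℂ × ℂ => Λ (σ (e (p.1, p.1 * p.2)))) 0 :=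
        ((Λ.analyticAt _).comp hσe).continuousAt
      refine h12.eventually_ne ?_
      rw [hz]
      exact hΛ0
    filter_upwards [eventually_all.mpr hG0, hΛe] with p hpG hpΛ b hb
    have h13 : σ1 p b = ((Λ (σ (e (p.1, p.1 * p.2))))⁻¹ * Λ (σ1 p b)) • σ (e (p.1, p.1 * p.2)) := by
      rw [mul_smul, ← sub_eq_zero.mp (hpG b), smul_smul, inv_mul_cancel₀ hpΛ, one_smul]
    have hk : (Λ (σ (e (p.1, p.1 * p.2))))⁻¹ * Λ (σ1 p b) ≠ 0 := by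
      intro h14
      rw [h14, zero_smul] at h13
      exact hb h13
    exact ⟨_, hk, h13⟩

/-- a germ which vanishes after the blow-up vanishes -/
theorem van_of_blow {G : ℂ × ℂ → ℂ} (hG : AnalyticAt ℂ G 0) (e : (ℂ × ℂ) ≃L[ℂ] (ℂ × ℂ))
    (h : ∀ᶠ p : ℂ × ℂ in 𝓝 0, G (e (p.1, p.1 * p.2)) = 0) : ∀ᶠ p in 𝓝 (0 : ℂ × ℂ), G p = 0 := by
  have hGe : AnalyticAt ℂ (fun p => G (e p)) 0 := by
    have h1 : AnalyticAt ℂ G (e 0) := by rw [map_zero]; exact hG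
    exact h1.comp (e.toContinuousLinearMap.analyticAt 0)
  obtain ⟨r, hr, hGr⟩ := hGe.exists_ball_analyticOnNhd
  have ht : Tendsto (fun s : ℂ => ((s, 0) : ℂ × ℂ)) (𝓝[≠] 0) (𝓝 0) := by
    have h1 : Tendsto (fun s : ℂ => ((s, 0) : ℂ × ℂ)) (𝓝 0) (𝓝 (0, 0)) :=
      (continuous_id.prodMk continuous_const).tendsto 0
    exact h1.mono_left nhdsWithin_le_nhds
  obtain ⟨s, ⟨h1, h2⟩, h3⟩ := ((ht.eventually (h.eventually_nhds.and (Metric.ball_mem_nhds 0 hr))).and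
    (self_mem_nhdsWithin : ∀ᶠ s in 𝓝[≠] (0 : ℂ), s ∈ ({0}ᶜ : Set ℂ))).exists
  have hs : s ≠ 0 := h3
  have hψ : Tendsto (fun w : ℂ × ℂ => ((w.1, w.2 / w.1) : ℂ × ℂ)) (𝓝 (s, 0)) (𝓝 (s, 0)) := by
    have h4 : ContinuousAt (fun w : ℂ × ℂ => ((w.1, w.2 / w.1) : ℂ × ℂ)) (s, 0) :=
      continuousAt_fst.prodMk (continuousAt_snd.div continuousAt_fst hs)
    have h5 := h4.tendsto
    simp only [zero_div] at h5
    exact h5
  have hne : ∀ᶠ w : ℂ × ℂ in 𝓝 (s, 0), w.1 ≠ 0 := continuousAt_fst.eventually_ne hs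
  have h6 : (fun p => G (e p)) =ᶠ[𝓝 (s, 0)] 0 := by
    filter_upwards [hψ.eventually h1, hne] with w h7 h8
    rw [mul_div_cancel₀ _ h8] at h7
    exact h7
  have h7 := hGr.eqOn_zero_of_preconnected_of_eventuallyEq_zero
    (convex_ball (0 : ℂ × ℂ) r).isPreconnected h2 h6
  have h8 : ∀ᶠ p in 𝓝 (0 : ℂ × ℂ), G (e p) = 0 := by
    filter_upwards [Metric.ball_mem_nhds (0 : ℂ × ℂ) hr] with p hp
    exact h7 hp
  have h9 : Tendsto (fun p : ℂ × ℂ => e.symm p) (𝓝 0) (𝓝 0) := by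
    have h10 : Tendsto (fun p : ℂ × ℂ => e.symm p) (𝓝 0) (𝓝 (e.symm 0)) := e.symm.continuous.tendsto 0
    rwa [map_zero] at h10
  filter_upwards [h9.eventually h8] with p h10
  rwa [ContinuousLinearEquiv.apply_symm_apply] at h10

end Pool.Agent.H17N
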