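import Pool.Agent.H17N.Defs
import Pool.Agent.H17N.BlowP
import Pool.Agent.H17N.BlowT

/-!
# H17N BlowF: the form on the blow-up (pattern: H62/BU/FormB.lean, `om_eq`, `isForm_om`, and H17BP/BlowM.lean, `thin_blow`)

* `aB_eq`: independence of the component: copy of the private lemma `FormB_indep` (with `j = 0` and without the square): `comp_smul`, `tan_rel`, `tan_comp` (H62/BU/TanB.lean), `add_smul`, `scale`.  `u (y b) - z ∈ Λ` from `uB_eq`.
* `tf_blow`: copy of `isForm_om`; in `analytic` the extra datum `υ` is passed through: near `p` a fixed component `b` of `φ` is `≠ 0`, the function is `α (υ y) (φ y b) (fderiv (φ · b) y (1,0)) (fderiv (φ · b) y (0,1))`.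
* `per_blow`, `van_blow`: immediate from `aB_eq` and `tan_comp`.
-/

set_option autoImplicit false

open Topology Filter

namespace Pool.Agent.H17N

open Pool.Agent.H17BP (Surface IsChart Tan Pr HolP ResN)
open Pool.Agent.H62.BU (blow phi Ker)

variable {V : Type} [NormedAddCommGroup V] [NormedSpace ℂ V] {ι : Type} [Fintype ι] {l : ι → V →L[ℂ] ℂ} {X : Set V} {q : V}
  {Λ Γ : AddSubgroup ℂ} {u : V → ℂ} {α : ℂ → V → V → V → ℂ}

theorem tan_comp' (hX : Surface X) {y v : ι → V} (hy : y ∈ blow l X) (hv : v ∈ Tan (blow l X) y) {b : ι} (hb : y b ≠ 0) : v b ∈ Tan X (y b) := 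
  H62.BU.tan_comp (H17BP.surface_iff.2 hX) hy hv hb

private theorem BlowF_tan_smul {W : Type} [NormedAddCommGroup W] [NormedSpace ℂ W] {Y : Set W}
    (hY : ∀ x ∈ Y, ∀ c : ℂ, c ≠ 0 → c • x ∈ Y) {x v : W} (hv : v ∈ Tan Y x) {c : ℂ} (hc : c ≠ 0) :
    c • v ∈ Tan Y (c • x) := by
  obtain ⟨γ, hγ, hmem, h0, hd⟩ := hv
  refine ⟨fun z => c • γ z, analyticAt_const.smul hγ, ?_, by show c • γ 0 = c • x; rw [h0], ?_⟩
  · filter_upwards [hmem] with z hz
    exact hY _ hz c hc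
  · have h1 : HasDerivAt γ v 0 := by
      rw [← hd]; exact hγ.differentiableAt.hasDerivAt
    exact (h1.const_smul c).deriv

/-- the value of `u` at a component -/
private theorem BlowF_u (hX : Surface X) (hu : TMap X Λ u) {z : ℂ} {y : ι → V} (hy : y ∈ blow l X) (hz : uB u y - z ∈ Λ)
    {b : ι} (hb : y b ≠ 0) : u (y b) - z ∈ Λ := by
  have h1 := uB_eq hX hu hy hb
  have h2 := Λ.sub_mem hz h1
  have h3 : uB u y - z - (uB u y - u (y b)) = u (y b) - z := by ring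
  rwa [h3] at h2

private theorem BlowF_indep (hX : Surface X) (hu : TMap X Λ u) (hα : TF X Λ u α) {z : ℂ} {y v w : ι → V} (hy : y ∈ blow l X)
    (hz : uB u y - z ∈ Λ) (hv : v ∈ Tan (blow l X) y) (hw : w ∈ Tan (blow l X) y) {b b' : ι} (hb : y b ≠ 0) (hb' : y b' ≠ 0) :
    α z (y b') (v b') (w b') = α z (y b) (v b) (w b) := by
  have hX' := H17BP.surface_iff.2 hX
  obtain ⟨c, hc⟩ := H62.BU.comp_smul y hy hb b'
  have hc0 : c ≠ 0 := by
    rintro rfl
    rw [zero_smul] at hc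
    exact hb' hc
  obtain ⟨μ, hμ⟩ := H62.BU.tan_rel hy hv hb b'
  obtain ⟨ν, hν⟩ := H62.BU.tan_rel hy hw hb b'
  have e1 := hμ c hc
  have e2 := hν c hc
  have hyb : y b ∈ X := H62.BU.comp_mem hX' y hy hb
  have hcy : c • y b ∈ X := hX.smul _ hyb c hc0
  have tv := tan_comp' hX hy hv hb
  have tw := tan_comp' hX hy hw hb
  have tv' := BlowF_tan_smul hX.smul tv hc0
  have tw' := BlowF_tan_smul hX.smul tw hc0
  have hu1 := BlowF_u hX hu hy hz hb
  have hu2 : u (c • y b) - z ∈ Λ := by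
    have h1 := Λ.add_mem (hu.smul (y b) hyb c hc0) hu1
    have h2 : u (c • y b) - u (y b) + (u (y b) - z) = u (c • y b) - z := by ring
    rwa [h2] at h1
  have e4 : α z (y b') (v b') (w b') = α z (c • y b) (c • v b) (c • w b) := by
    have h1 := hα.add_smul z (c • y b) hcy hu2 (c • v b) tv' (c • w b) tw' (μ / c) (ν / c)
    rw [smul_smul, smul_smul, div_mul_cancel₀ _ hc0, div_mul_cancel₀ _ hc0] at h1
    rw [e1, e2, hc]
    exact h1
  rw [e4, hα.scale z (y b) hyb hu1 (v b) tv (w b) tw c hc0]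

theorem aB_eq (hX : Surface X) (hu : TMap X Λ u) (hα : TF X Λ u α) {z : ℂ} {y v w : ι → V} (hy : y ∈ blow l X) (hz : uB u y - z ∈ Λ)
    (hv : v ∈ Tan (blow l X) y) (hw : w ∈ Tan (blow l X) y) {b : ι} (hb : y b ≠ 0) : aB α z y v w = α z (y b) (v b) (w b) := by
  have h : ∃ b, y b ≠ 0 := ⟨b, hb⟩
  rw [aB, dif_pos h]
  exact BlowF_indep hX hu hα hy hz hv hw hb h.choose_spec

private theorem BlowF_def {y : ι → V} (hy : y ∈ blow l X) :
    ∃ b, y b ≠ 0 ∧ ∀ (z : ℂ) (v w : ι → V), aB α z y v w = α z (y b) (v b) (w b) := by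
  have h : ∃ b, y b ≠ 0 := H62.BU.exists_ne y hy
  refine ⟨h.choose, h.choose_spec, fun z v w => ?_⟩
  rw [aB, dif_pos h]

private theorem BlowF_analytic [FiniteDimensional ℂ V] (hX : Surface X) (hu : TMap X Λ u) (hα : TF X Λ u α) (φ : ℂ × ℂ → ι → V)
    (υ : ℂ × ℂ → ℂ) (p : ℂ × ℂ) (hφ : AnalyticAt ℂ φ p) (hυ : AnalyticAt ℂ υ p)
    (hmem : ∀ᶠ y in 𝓝 p, φ y ∈ blow l X ∧ uB u (φ y) - υ y ∈ Λ) :
    AnalyticAt ℂ (fun y => aB α (υ y) (φ y) (fderiv ℂ φ y (1, 0)) (fderiv ℂ φ y (0, 1))) p := by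
  have : CompleteSpace V := FiniteDimensional.complete ℂ V
  have hX' := H17BP.surface_iff.2 hX
  have hp : φ p ∈ blow l X := hmem.self_of_nhds.1
  obtain ⟨b, hb⟩ := H62.BU.exists_ne (φ p) hp
  have hψ : AnalyticAt ℂ (fun y => φ y b) p :=
    AnalyticAt.comp ((ContinuousLinearMap.proj (R := ℂ) (φ := fun _ : ι => V) b).analyticAt _) hφ
  have hne : ∀ᶠ y in 𝓝 p, φ y b ≠ 0 := by
    have h1 : Tendsto (fun y => φ y b) (𝓝 p) (𝓝 (φ p b)) := hψ.continuousAt
    exact h1.eventually_ne hb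
  have hψX : ∀ᶠ y in 𝓝 p, φ y b ∈ X ∧ u (φ y b) - υ y ∈ Λ := by
    filter_upwards [hmem, hne] with y h1 h2
    exact ⟨H62.BU.comp_mem hX' _ h1.1 h2, BlowF_u hX hu h1.1 h1.2 h2⟩
  have hαa := hα.analytic (fun y => φ y b) υ p hψ hυ hψX
  refine hαa.congr ?_
  filter_upwards [eventually_eventually_nhds.mpr hmem, hne, hφ.eventually_analyticAt] with y h1 h2 h3
  have h4 : ∀ w : ℂ × ℂ, fderiv ℂ (fun y => φ y b) y w = (fderiv ℂ φ y w) b := by
    intro w
    have h5 := h3.differentiableAt.hasFDerivAt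
    have h6 : HasFDerivAt (fun y => φ y b)
        ((ContinuousLinearMap.proj (R := ℂ) (φ := fun _ : ι => V) b).comp (fderiv ℂ φ y)) y :=
      ((ContinuousLinearMap.proj (R := ℂ) (φ := fun _ : ι => V) b).hasFDerivAt (x := φ y)).comp y h5
    rw [h6.fderiv]
    rfl
  have h7 : ∀ᶠ y in 𝓝 y, φ y ∈ blow l X := h1.mono fun y hy => hy.1
  rw [aB_eq hX hu hα h7.self_of_nhds h1.self_of_nhds.2 (H62.BU.tan_fderiv h3 h7 (1, 0)) (H62.BU.tan_fderiv h3 h7 (0, 1)) h2]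
  simp only [h4]

theorem tf_blow [FiniteDimensional ℂ V] (hX : Surface X) (hu : TMap X Λ u) (hα : TF X Λ u α) : TF (blow l X) Λ (uB u) (aB α) := by
  have hX' := H17BP.surface_iff.2 hX
  refine ⟨?_, ?_, ?_, ?_⟩
  · intro z y hy hz v hv w hw a b'
    obtain ⟨b, hb, hom⟩ := BlowF_def (l := l) (α := α) hy
    rw [hom, hom]
    have h1 := hα.add_smul z (y b) (H62.BU.comp_mem hX' y hy hb) (BlowF_u hX hu hy hz hb) (v b) (tan_comp' hX hy hv hb) (w b)
      (tan_comp' hX hy hw hb) a b'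
    simp only [Pi.add_apply, Pi.smul_apply]
    exact h1
  · intro z y hy hz v hv w hw a b' c d
    obtain ⟨b, hb, hom⟩ := BlowF_def (l := l) (α := α) hy
    rw [hom, hom]
    have h1 := hα.det z (y b) (H62.BU.comp_mem hX' y hy hb) (BlowF_u hX hu hy hz hb) (v b) (tan_comp' hX hy hv hb) (w b)
      (tan_comp' hX hy hw hb) a b' c d
    simp only [Pi.add_apply, Pi.smul_apply]
    exact h1
  · intro z y hy hz v hv w hw c hc
    obtain ⟨b, hb, hom⟩ := BlowF_def (l := l) (α := α) hy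
    have hcy : c • y ∈ blow l X := H62.BU.blow_smul y hy c hc
    have hcb : (c • y) b ≠ 0 := by
      rw [Pi.smul_apply]
      exact smul_ne_zero hc hb
    have hyb : y b ∈ X := H62.BU.comp_mem hX' y hy hb
    have hu1 := BlowF_u hX hu hy hz hb
    have hz2 : uB u (c • y) - z ∈ Λ := by
      have h1 := uB_eq hX hu hcy hcb
      have h2 := hu.smul (y b) hyb c hc
      have h3 := Λ.add_mem (Λ.add_mem h1 h2) hu1
      have h4 : uB u (c • y) - u ((c • y) b) + (u (c • y b) - u (y b)) + (u (y b) - z) = uB u (c • y) - z := by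
        rw [Pi.smul_apply]
        ring
      rwa [h4] at h3
    rw [hom, aB_eq hX hu hα hcy hz2 (BlowF_tan_smul H62.BU.blow_smul hv hc) (BlowF_tan_smul H62.BU.blow_smul hw hc) hcb]
    simp only [Pi.smul_apply]
    exact hα.scale z (y b) hyb hu1 (v b) (tan_comp' hX hy hv hb) (w b) (tan_comp' hX hy hw hb) c hc
  · intro φ υ p hφ hυ hmem
    exact BlowF_analytic hX hu hα φ υ p hφ hυ hmem

theorem per_blow (hX : Surface X) (hu : TMap X Λ u) (hα : TF X Λ u α) (hle : Γ ≤ Λ)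
    (hper : ∀ z, ∀ l ∈ Γ, ∀ x ∈ X, u x - z ∈ Λ → ∀ v ∈ Tan X x, ∀ w ∈ Tan X x, α (z + l) x v w = α z x v w) :
    ∀ z, ∀ c ∈ Γ, ∀ y ∈ blow l X, uB u y - z ∈ Λ → ∀ v ∈ Tan (blow l X) y, ∀ w ∈ Tan (blow l X) y, aB α (z + c) y v w = aB α z y v w := by
  intro z c hc y hy hz v hv w hw
  obtain ⟨b, hb, hom⟩ := BlowF_def (l := l) (α := α) hy
  rw [hom, hom]
  exact hper z c hc (y b) (H62.BU.comp_mem (H17BP.surface_iff.2 hX) y hy hb) (BlowF_u hX hu hy hz hb) (v b) (tan_comp' hX hy hv hb) (w b)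
    (tan_comp' hX hy hw hb)

theorem van_blow (hX : Surface X) (hu : TMap X Λ u) (hα : TF X Λ u α)
    (hvan : ∀ x ∈ X, u x ∈ Λ → ∀ v ∈ Tan X x, ∀ w ∈ Tan X x, α 0 x v w = 0) :
    ∀ y ∈ blow l X, uB u y ∈ Λ → ∀ v ∈ Tan (blow l X) y, ∀ w ∈ Tan (blow l X) y, aB α 0 y v w = 0 := by
  intro y hy hz v hv w hw
  obtain ⟨b, hb, hom⟩ := BlowF_def (l := l) (α := α) hy
  rw [hom]
  have h1 : u (y b) - 0 ∈ Λ := BlowF_u hX hu hy (by rwa [sub_zero]) hb
  rw [sub_zero] at h1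
  exact hvan (y b) (H62.BU.comp_mem (H17BP.surface_iff.2 hX) y hy hb) h1 (v b) (tan_comp' hX hy hv hb) (w b)
    (tan_comp' hX hy hw hb)

end Pool.Agent.H17N
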