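import Pool.Agent.H17N.ResU
import Pool.Agent.H17N.BlowT
import Pool.Agent.H17N.BlowP

/-!
# H17N BlowR: the resolution number on the blow-up (pattern: `H17BP.resAt_blow`, H17BP/BlowM.lean)

`q` is not a normal crossing point (`h0`), so `ResN (n+1) g` is the statement for all `BChart β`.  `blow_chart` (BlowP) at `y`:
* off the exceptional curve: `σ1 p = c • phi l (σ' p)`, `x = σ' 0`: `¬ Pr x q` because `l b x ≠ 0 = l b q`; if `RU X Λ u x k`, `RU.chart` gives a germ `g'` for `σ'`; it is a germ of `uB u` for `σ1`, because `uB u (σ1 p) - u (σ1 p b) ∈ Λ` for a component `≠ 0`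
  (`uB_eq` of BlowT) and `Pr (σ1 p b) (σ' p)`.
* over `q`: `uB u (σ1 p) - u (σ (e (p.1, p.1 * p.2))) ∈ Λ`: the germ is `g ∘ β`, `β p = e (p.1, p.1 * p.2)`, a `BChart` (as in `resAt_blow`).  And `σ1 0 b ≠ 0 → Pr (σ1 0 b) (σ 0)`, so `uB u y - u q ∈ Λ`.
-/

set_option autoImplicit false

open Topology Filter

namespace Pool.Agent.H17N

open Pool.Agent.H17BP (Surface IsChart Tan Pr HolP ResN)
open Pool.Agent.H62.BU (blow phi Ker)

variable {V : Type} [NormedAddCommGroup V] [NormedSpace ℂ V] {ι : Type} [Fintype ι] {l : ι → V →L[ℂ] ℂ} {X : Set V} {q : V}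
  {Λ : AddSubgroup ℂ} {u : V → ℂ}

private theorem BlowR_val (hX : Surface X) (hu : TMap X Λ u) {y : ι → V} (hy : y ∈ blow l X) {x : V}
    (h : ∀ b, y b ≠ 0 → Pr (y b) x) : uB u y - u x ∈ Λ := by
  obtain ⟨b, hb⟩ := H62.BU.exists_ne y hy
  have h1 := uB_eq hX hu hy hb
  have h2 : y b ∈ X := H62.BU.comp_mem (H17BP.surface_iff.2 hX) y hy hb
  obtain ⟨c, hc, h3⟩ := h b hb
  have h4 : x ∈ X := by
    have h5 := hX.smul _ h2 c⁻¹ (inv_ne_zero hc)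
    rwa [h3, smul_smul, inv_mul_cancel₀ hc, one_smul] at h5
  have h5 := hu.smul x h4 c hc
  rw [← h3] at h5
  have h6 := Λ.add_mem h1 h5
  rwa [sub_add_sub_cancel] at h6

private theorem BlowR_germ (hX : Surface X) (hu : TMap X Λ u) {σ1 : ℂ × ℂ → ι → V} {τ1 : (ι → V) → ℂ × ℂ}
    (h1 : IsChart (blow l X) σ1 τ1) {ψ : ℂ × ℂ → V} (h2 : ∀ᶠ p in 𝓝 (0 : ℂ × ℂ), ∀ b, σ1 p b ≠ 0 → Pr (σ1 p b) (ψ p))
    {g : ℂ × ℂ → ℂ} (hg : AnalyticAt ℂ g 0) (hg0 : g 0 = 0)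
    (h3 : ∀ᶠ p in 𝓝 (0 : ℂ × ℂ), u (ψ p) - u (ψ 0) - g p ∈ Λ) : LU Λ (uB u) σ1 g := by
  refine ⟨hg, hg0, ?_⟩
  have h4 : uB u (σ1 0) - u (ψ 0) ∈ Λ := BlowR_val hX hu h1.σ_mem.self_of_nhds h2.self_of_nhds
  filter_upwards [h2, h3, h1.σ_mem] with p h5 h6 h7
  have h8 : uB u (σ1 p) - u (ψ p) ∈ Λ := BlowR_val hX hu h7 h5
  have h9 := Λ.add_mem (Λ.sub_mem h8 h4) h6
  have h10 : uB u (σ1 p) - u (ψ p) - (uB u (σ1 0) - u (ψ 0)) + (u (ψ p) - u (ψ 0) - g p) =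
      uB u (σ1 p) - uB u (σ1 0) - g p := by ring
  rwa [h10] at h9

private theorem BlowR_bihol (e : (ℂ × ℂ) ≃L[ℂ] (ℂ × ℂ)) : H17BP.Bihol (fun x => e x) :=
  ⟨e.toContinuousLinearMap.analyticAt 0, map_zero e, fun x => e.symm x,
    e.symm.toContinuousLinearMap.analyticAt 0, map_zero e.symm,
    Eventually.of_forall fun x => e.symm_apply_apply x,
    Eventually.of_forall fun x => e.apply_symm_apply x⟩

theorem ru_blow [FiniteDimensional ℂ V] (hX : Surface X) (hu : TMap X Λ u) (hl : Ker l q) (hq : q ∈ X) {n : ℕ}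
    (hn : RU X Λ u q (n + 1)) (h0 : ¬ RU X Λ u q 0) {y : ι → V} (hy : y ∈ blow l X) :
    (uB u y - u q ∈ Λ ∧ RU (blow l X) Λ (uB u) y n) ∨ ∃ x ∈ X, ¬ Pr x q ∧ Pr y (phi l x) ∧ uB u y - u x ∈ Λ ∧
      ∀ k, RU X Λ u x k → RU (blow l X) Λ (uB u) y k := by
  obtain ⟨σ, τ, g, hσ, hσ0, hg, hN⟩ := hn
  have hN' : ∀ β, H17BP.BChart β → ResN n (g ∘ β) := by
    rcases hN with hN | hN
    · exact absurd ⟨σ, τ, g, hσ, hσ0, hg, hN⟩ h0
    · exact hN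
  rcases blow_chart hX hl hσ hσ0 hy with
    ⟨σ', τ', σ1, τ1, h1, ⟨b, hb⟩, h2, h3, ⟨c, hc, hc2⟩, h4⟩ | ⟨e, σ1, τ1, h2, h3, h4⟩
  · right
    refine ⟨σ' 0, h1.σ_mem.self_of_nhds, ?_, ⟨c, hc, ?_⟩, ?_, fun k hk => ?_⟩
    · rintro ⟨a, -, ha⟩
      have h5 : l b q = 0 := (hl q).2 ⟨1, (one_smul _ _).symm⟩ b
      rw [ha, map_smul, h5, smul_zero] at hb
      exact hb rfl
    · rw [← h3]
      exact hc2 0
    · refine BlowR_val hX hu hy fun b' hb' => ?_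
      rw [← h3] at hb' ⊢
      exact h4.self_of_nhds b' hb'
    · obtain ⟨g', ⟨hg1, hg2, hg3⟩, hg4⟩ := hk.chart hX.smul hu h1 (H17BP.Pr.refl _)
      exact ⟨σ1, τ1, g', h2, h3, BlowR_germ hX hu h2 h4 hg1 hg2 hg3, hg4⟩
  · left
    obtain ⟨β, hβ⟩ : ∃ β : ℂ × ℂ → ℂ × ℂ, β = fun p => e (p.1, p.1 * p.2) := ⟨_, rfl⟩
    have hBC : H17BP.BChart β := by
      refine ⟨fun x => e x, fun x => x, BlowR_bihol e, H17BP.Bihol.id, Eventually.of_forall fun x => ?_⟩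
      rw [hβ]
      simp only [H17BP.bl, zero_add]
    have h4' : ∀ᶠ p in 𝓝 (0 : ℂ × ℂ), ∀ b, σ1 p b ≠ 0 → Pr (σ1 p b) (σ (β p)) := by
      rw [hβ]
      exact h4
    refine ⟨?_, σ1, τ1, g ∘ β, h2, h3, ?_, hN' β hBC⟩
    · refine BlowR_val hX hu hy fun b' hb' => ?_
      have h5 := h4'.self_of_nhds b'
      rw [h3, hBC.zero, hσ0] at h5
      exact h5 hb'
    · refine BlowR_germ hX hu h2 h4' ?_ ?_ ?_
      · have h5 : AnalyticAt ℂ g (β 0) := by rw [hBC.zero]; exact hg.1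
        exact h5.comp hBC.an
      · show g (β 0) = 0
        rw [hBC.zero]
        exact hg.2.1
      · filter_upwards [hBC.tendsto.eventually hg.2.2] with p h5
        show u (σ (β p)) - u (σ (β 0)) - g (β p) ∈ Λ
        rw [hBC.zero]
        exact h5

/-- all points over values which are not in `B` are regular -/
theorem crit_blow [FiniteDimensional ℂ V] (hX : Surface X) (hu : TMap X Λ u) (hl : Ker l q) (hq : q ∈ X) {n : ℕ}
    (hn : RU X Λ u q (n + 1)) (h0 : ¬ RU X Λ u q 0) {B : Set ℂ} (hB : ∃ b ∈ B, u q - b ∈ Λ) (hc : ∀ x ∈ X, (∀ b ∈ B, u x - b ∉ Λ) → RU X Λ u x 0) :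
    ∀ y ∈ blow l X, (∀ b ∈ B, uB u y - b ∉ Λ) → RU (blow l X) Λ (uB u) y 0 := by
  intro y hy hyB
  obtain ⟨b₀, hb₀, hqb⟩ := hB
  rcases ru_blow hX hu hl hq hn h0 hy with ⟨h1, -⟩ | ⟨x, hx, -, -, h1, h2⟩
  · refine absurd ?_ (hyB b₀ hb₀)
    have h3 := Λ.add_mem h1 hqb
    rwa [sub_add_sub_cancel] at h3
  · refine h2 0 (hc x hx fun b hb h3 => hyB b hb ?_)
    have h4 := Λ.add_mem h1 h3
    rwa [sub_add_sub_cancel] at h4

end Pool.Agent.H17N
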