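import Pool.Agent.H17N.Defs
import Pool.Agent.H17N.BlowT

/-!
# H17N LiftS: the curves `f` with `u (f z) = z` lift to the blow-up

Let `f ∈ HSec X Λ u`.  Near every `z₀` the points with `Pr (f z) q` are isolated, because `u (f z) - z ∈ Λ` and `u (f z) - u q ∈ Λ` (`tor.smul`) give `z - u q ∈ Λ`, and `Λ` is discrete.  The lift: `H17BP.exists_lift` (TrP.lean) is stated for the punctured discs `z ≠ 0, ‖z‖ < r`; we need it on all of `ℂ`: copy its
proof (local lifts by `H62.BU.lift_curve`, `TrP_local`, `TrP_prop` are private: copy them; drop `z ≠ 0`, `‖z‖ < r`).  Result: `h : ℂ → ι → V`, `HolP h z`, `h z ∈ blow l X`, `h z b ≠ 0 → Pr (f z) (h z b)`.  So `uB u (h z) - z ∈ Λ` (`uB_eq`, `tor.smul`), that is `h ∈ HSec (blow l X) Λ (uB u)`.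
If `S` is the finite set for the blow-up, take the images `z ↦ cmp (g z)` for `g ∈ S`: if `Pr (h z) (g z)` then a component of `h z` which is `≠ 0` is proportional to the same component of `g z`, which is proportional to `cmp (g z)` (`g z = c⁻¹ • h z ∈ blow l X`, `H62.BU.comp_smul`).
-/

set_option autoImplicit false

open Topology Filter

namespace Pool.Agent.H17N

open Pool.Agent.H17BP (Surface IsChart Tan Pr HolP ResN)
open Pool.Agent.H62.BU (blow phi Ker)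

variable {V : Type} [NormedAddCommGroup V] [NormedSpace ℂ V] {ι : Type} [Fintype ι] {l : ι → V →L[ℂ] ℂ} {X : Set V} {q : V}
  {Λ : AddSubgroup ℂ} {u : V → ℂ}

private theorem LiftS_forms (hl : Ker l q) {x y : V} (h : Pr x y) (hy : y ≠ 0) : Pr x q ↔ ∀ b, l b y = 0 := by
  constructor
  · intro hx b
    obtain ⟨c, hc, e⟩ := h.symm.trans hx
    rw [e, map_smul, (hl q).2 ⟨1, (one_smul _ _).symm⟩ b, smul_zero]
  · intro hb
    obtain ⟨c, hc⟩ := (hl y).1 hb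
    refine h.trans ⟨c, ?_, hc⟩
    rintro rfl
    rw [zero_smul] at hc
    exact hy hc

private theorem LiftS_phi {x y : V} {c : ℂ} (h : x = c • y) : phi l x = c ^ 2 • phi l y := by
  rw [h, H62.BU.phi_smul]

/-- The local lift. -/
private theorem LiftS_local (hX : Surface X) (hl : Ker l q) {f : ℂ → V}
    (hf : ∀ z : ℂ, HolP f z ∧ f z ∈ X)
    (hi : ∀ z₀ : ℂ, ∀ᶠ z in 𝓝[≠] z₀, ¬ Pr (f z) q) (z₀ : ℂ) :
    ∃ (F : ℂ → V) (G : ℂ → ι → V) (k : ℕ), AnalyticAt ℂ F z₀ ∧ F z₀ ≠ 0 ∧ (∀ᶠ z in 𝓝 z₀, Pr (f z) (F z)) ∧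
      AnalyticAt ℂ G z₀ ∧ (∀ᶠ z in 𝓝 z₀, G z ∈ blow l X) ∧
      ∀ᶠ z in 𝓝 z₀, phi l (F z) = (z - z₀) ^ k • G z := by
  obtain ⟨F, hF, hF0, hfF⟩ := (hf z₀).1
  have hFX : ∀ᶠ z in 𝓝 z₀, F z ∈ X := by
    filter_upwards [hfF] with z h1
    exact (Pr.mem_iff hX.smul h1).1 (hf z).2
  have hne : ∃ᶠ z in 𝓝[≠] z₀, ∃ b, l b (F z) ≠ 0 := by
    refine Eventually.frequently ?_
    filter_upwards [hi z₀, hfF.filter_mono nhdsWithin_le_nhds,
      (hF.continuousAt.eventually_ne hF0).filter_mono nhdsWithin_le_nhds] with z h1 h2 h3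
    by_contra h4
    push Not at h4
    exact h1 ((LiftS_forms hl h2 h3).2 h4)
  obtain ⟨k, G, hG, hGb, hGe⟩ := H62.BU.lift_curve hF hFX hne
  exact ⟨F, G, k, hF, hF0, hfF, hG, hGb, hGe⟩

private theorem LiftS_prop {F : ℂ → V} {G : ℂ → ι → V} {k : ℕ} {z : ℂ} (hF : AnalyticAt ℂ F z)
    (hF0 : F z ≠ 0) (hG : AnalyticAt ℂ G z) (h : ∀ᶠ w in 𝓝 z, phi l (F w) = (w - z) ^ k • G w) {b : ι}
    (hb : G z b ≠ 0) : Pr (F z) (G z b) := by
  obtain ⟨Λ, hΛ1, hΛ2⟩ := exists_dual_vector ℂ (F z) (norm_ne_zero_iff.mpr hF0)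
  have hΛ : Λ (F z) ≠ 0 := by
    rw [hΛ2]
    simpa using hF0
  have hGb : ContinuousAt (fun w => G w b) z := (continuous_apply b).continuousAt.comp hG.continuousAt
  have h1 : Tendsto (fun w => Λ (F w) • G w b) (𝓝[≠] z) (𝓝 (Λ (F z) • G z b)) := by
    refine Tendsto.mono_left ?_ nhdsWithin_le_nhds
    exact ((Λ.continuous.continuousAt.comp hF.continuousAt).smul hGb).tendsto
  have h2 : Tendsto (fun w => Λ (G w b) • F w) (𝓝[≠] z) (𝓝 (Λ (G z b) • F z)) := by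
    refine Tendsto.mono_left ?_ nhdsWithin_le_nhds
    exact ((Λ.continuous.continuousAt.comp hGb).smul hF.continuousAt).tendsto
  have h3 : ∀ᶠ w in 𝓝[≠] z, Λ (F w) • G w b = Λ (G w b) • F w := by
    filter_upwards [h.filter_mono nhdsWithin_le_nhds, self_mem_nhdsWithin] with w h4 h5
    have h6 : (w - z) ^ k ≠ 0 := pow_ne_zero _ (sub_ne_zero.2 h5)
    have h7 : l b (F w) • F w = (w - z) ^ k • G w b := congrFun h4 b
    have h8 : (w - z) ^ k • (Λ (F w) • G w b) = (w - z) ^ k • (Λ (G w b) • F w) := by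
      have h9 : (w - z) ^ k * Λ (G w b) = l b (F w) * Λ (F w) := by
        have h10 := congrArg Λ h7
        rw [map_smul, map_smul, smul_eq_mul, smul_eq_mul] at h10
        exact h10.symm
      rw [smul_comm, ← h7, smul_smul ((w - z) ^ k), h9, smul_smul, mul_comm]
    exact (smul_right_injective V h6) h8
  have h4 : Λ (F z) • G z b = Λ (G z b) • F z :=
    tendsto_nhds_unique_of_eventuallyEq h1 h2 h3
  have h5 : G z b = ((Λ (F z))⁻¹ * Λ (G z b)) • F z := by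
    rw [mul_smul, ← h4, smul_smul, inv_mul_cancel₀ hΛ, one_smul]
  refine Pr.symm ⟨(Λ (F z))⁻¹ * Λ (G z b), ?_, h5⟩
  intro h0
  rw [h0, zero_smul] at h5
  exact hb h5

/-- The lift of an entire curve to the blow-up. -/
private theorem LiftS_exists (hX : Surface X) (hl : Ker l q) {f : ℂ → V}
    (hf : ∀ z : ℂ, HolP f z ∧ f z ∈ X)
    (hi : ∀ z₀ : ℂ, ∀ᶠ z in 𝓝[≠] z₀, ¬ Pr (f z) q) :
    ∃ h : ℂ → ι → V, (∀ z : ℂ, HolP h z ∧ h z ∈ blow l X) ∧
      ∀ z : ℂ, ∀ b, h z b ≠ 0 → Pr (f z) (h z b) := by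
  classical
  choose F G k hFG using LiftS_local (ι := ι) hX hl hf hi
  have hf0 : ∀ z : ℂ, f z ≠ 0 := fun z h3 => hX.zero (h3 ▸ (hf z).2)
  refine ⟨fun z => if ∃ b, l b (f z) ≠ 0 then phi l (f z) else G z z, ?_, ?_⟩
  · intro z₀
    obtain ⟨hF, hF0, hfF, hG, hGb, hGe⟩ := hFG z₀
    refine ⟨⟨G z₀, hG, hGb.self_of_nhds.2, ?_⟩, ?_⟩
    · have hi' : ∀ᶠ z in 𝓝 z₀, z ≠ z₀ → ¬ Pr (f z) q := by
        have := hi z₀
        rwa [eventually_nhdsWithin_iff] at this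
      filter_upwards [hfF, hGe, hi'] with z h1 h2 h3
      split_ifs with h5
      · obtain ⟨c, hc, e⟩ := h1
        have h6 : phi l (f z) = (c ^ 2 * (z - z₀) ^ k z₀) • G z₀ z := by
          rw [LiftS_phi e, h2, smul_smul]
        refine ⟨_, ?_, h6⟩
        intro h7
        rw [h7, zero_smul] at h6
        exact H62.BU.phi_ne h5 h6
      · push Not at h5
        have h6 : z = z₀ := by
          by_contra h7
          exact h3 h7 ((LiftS_forms hl (Pr.refl (f z)) (hf0 z)).2 h5)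
        rw [h6]
        exact Pr.refl _
    · show (if ∃ b, l b (f z₀) ≠ 0 then phi l (f z₀) else G z₀ z₀) ∈ blow l X
      split_ifs with h5
      · exact H62.BU.dense_sub (H62.BU.phi_mem_dense (hf z₀).2 h5)
      · exact hGb.self_of_nhds
  · intro z b
    obtain ⟨hF, hF0, hfF, hG, hGb, hGe⟩ := hFG z
    simp only
    split_ifs with h5
    · intro h6
      have h7 : phi l (f z) b = l b (f z) • f z := rfl
      rw [h7] at h6 ⊢
      have h8 : l b (f z) ≠ 0 := by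
        intro h9
        rw [h9, zero_smul] at h6
        exact h6 rfl
      exact Pr.symm ⟨_, h8, rfl⟩
    · intro h6
      exact (hfF.self_of_nhds).trans (LiftS_prop hF hF0 hG hGe h6)

theorem exists_lift_sec (hΛ : ∃ δ : ℝ, 0 < δ ∧ ∀ l ∈ Λ, ‖l‖ < δ → l = 0) (hX : Surface X) (hu : TMap X Λ u) (hl : Ker l q) (hq : q ∈ X) {f : ℂ → V}
    (hf : f ∈ HSec X Λ u) : ∃ h ∈ HSec (blow l X) Λ (uB u), ∀ z b, h z b ≠ 0 → Pr (f z) (h z b) := by
  obtain ⟨δ, hδ, hΛ⟩ := hΛ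
  have hpt : ∀ z, Pr (f z) q → z - u q ∈ Λ := by
    rintro z ⟨c, hc, e⟩
    have h1 := hu.smul q hq c hc
    have h2 := hf.2.2 z
    rw [e] at h2
    have h3 := Λ.sub_mem h1 h2
    have e2 : z - u q = u (c • q) - u q - (u (c • q) - z) := by ring
    rw [e2]; exact h3
  have hi : ∀ z₀ : ℂ, ∀ᶠ z in 𝓝[≠] z₀, ¬ Pr (f z) q := by
    intro z₀
    by_cases hz : ∃ z1 : ℂ, z1 ≠ z₀ ∧ dist z1 z₀ < δ / 2 ∧ z1 - u q ∈ Λ
    · obtain ⟨z1, h1, h2, h3⟩ := hz
      have h4 : ∀ᶠ z in 𝓝 z₀, z ≠ z1 := eventually_ne_nhds (Ne.symm h1)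
      filter_upwards [h4.filter_mono nhdsWithin_le_nhds,
        (Metric.ball_mem_nhds z₀ (half_pos hδ) : Metric.ball z₀ (δ / 2) ∈ 𝓝 z₀) |> (mem_nhdsWithin_of_mem_nhds ·)] with z h5 h6 h7
      have h8 := Λ.sub_mem (hpt z h7) h3
      have e3 : z - u q - (z1 - u q) = z - z1 := by ring
      rw [e3] at h8
      have h9 : ‖z - z1‖ < δ := by
        have h10 : dist z z₀ < δ / 2 := h6
        have h11 := dist_triangle_right z z1 z₀
        rw [dist_eq_norm] at h11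
        linarith
      exact h5 (sub_eq_zero.1 (hΛ _ h8 h9))
    · push Not at hz
      filter_upwards [self_mem_nhdsWithin,
        (Metric.ball_mem_nhds z₀ (half_pos hδ) : Metric.ball z₀ (δ / 2) ∈ 𝓝 z₀) |> (mem_nhdsWithin_of_mem_nhds ·)] with z h5 h6 h7
      exact hz z h5 h6 (hpt z h7)
  obtain ⟨h, h1, h2⟩ := LiftS_exists hX hl (fun z => ⟨hf.1 z, hf.2.1 z⟩) hi
  refine ⟨h, ⟨fun z => (h1 z).1, fun z => (h1 z).2, fun z => ?_⟩, h2⟩
  obtain ⟨b, hb⟩ := H62.BU.exists_ne (h z) (h1 z).2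
  have h3 := uB_eq hX hu (h1 z).2 hb
  have h4 := h2 z b hb
  have hbX : h z b ∈ X := (Pr.mem_iff hX.smul h4).1 (hf.2.1 z)
  obtain ⟨c, hc, e⟩ := h4
  have h5 := hu.smul _ hbX c hc
  rw [← e] at h5
  have h6 := hf.2.2 z
  have h7 := Λ.add_mem (Λ.sub_mem h3 h5) h6
  have e4 : uB u (h z) - z = uB u (h z) - u (h z b) - (u (f z) - u (h z b)) + (u (f z) - z) := by ring
  rw [e4]; exact h7

theorem finSec_of_blow (hΛ : ∃ δ : ℝ, 0 < δ ∧ ∀ l ∈ Λ, ‖l‖ < δ → l = 0) (hX : Surface X) (hu : TMap X Λ u) (hl : Ker l q) (hq : q ∈ X)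
    (h : FinSec (blow l X) Λ (uB u)) : FinSec X Λ u := by
  classical
  obtain ⟨S, hS, hS2⟩ := h
  refine ⟨(fun (g : ℂ → ι → V) z => cmp (g z)) '' S, hS.image _, fun f hf => ?_⟩
  obtain ⟨h1, hh, h2⟩ := exists_lift_sec hΛ hX hu hl hq hf
  obtain ⟨g, hg, h3⟩ := hS2 h1 hh
  refine ⟨_, Set.mem_image_of_mem _ hg, fun z => ?_⟩
  obtain ⟨b, hb⟩ := H62.BU.exists_ne (h1 z) (hh.2.1 z)
  obtain ⟨c, hc, e⟩ := h3 z
  have hgb : ∃ b, g z b ≠ 0 := by
    refine ⟨b, fun h0 => hb ?_⟩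
    rw [e, Pi.smul_apply, h0, smul_zero]
  have h4 : cmp (g z) = g z hgb.choose := by
    unfold cmp
    rw [dif_pos hgb]
  have h5 : g z hgb.choose ≠ 0 := hgb.choose_spec
  have h6 : h1 z hgb.choose = c • g z hgb.choose := by rw [e]; rfl
  show Pr (f z) (cmp (g z))
  rw [h4]
  exact (h2 z _ (by rw [h6]; exact smul_ne_zero hc h5)).trans ⟨c, hc, h6⟩

end Pool.Agent.H17N
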