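import Pool.Agent.H17G.PNG

/-!
# H17N PNDefs: a map which is constant on no open set
-/

set_option autoImplicit false

open Topology Filter

namespace Pool.Agent.H17N

open Pool.Agent.H17 (PN)

variable {N : ℕ}

/-- The map `u` is constant on no nonempty open subset of `X`: near every point `x` of `X` there are points `y` of `X` with `u y ≠ u x`. -/
def NowhereConstant {A : Type} (X : Set (PN N)) (u : PN N → A) : Prop :=
  ∀ (x : Fin (N + 1) → ℂ) (hx : x ≠ 0), Projectivization.mk ℂ x hx ∈ X →
    ∃ᶠ y in 𝓝 x, ∃ hy : y ≠ 0, Projectivization.mk ℂ y hy ∈ X ∧ u (Projectivization.mk ℂ y hy) ≠ u (Projectivization.mk ℂ x hx)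

end Pool.Agent.H17N
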