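import Pool.Agent.H17N.ResU
import Pool.Agent.H17N.PNDefs
import Pool.Agent.H17G.ChG
import Pool.Agent.H17EF.MainE

/-!
# H17N Start: the data of a projective surface

`V = Fin (N+1) → ℂ`, `X = cone P`, `u₀ x = uE Λ u (LE N x) - c₀`, `α z x v w = Ω (z + c₀) x v w`, `B₀ = {b | b + c₀ ∈ B}`.

* surf: given.  tor: from `H17EF.torusMap hP hu` (composition with `LE N`).
* `Over (projVar P) Λ u (z + c₀) x ↔ x ∈ cone P ∧ u₀ x - z ∈ Λ` (`H17G.over_iff`; `uE_eq`), `IsTangent (projVar P) x v ↔ v ∈ Tan (cone P) x` for `x ∈ cone P` (compare `H17G.isTangent_iff`; `mk_mem_projVar`): so form, per, van are the fields of `IsTwoForm`, `VanishesOver`.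
* thin: if the coefficient vanishes near `0` in a chart `σ` with the lift `υ`: then `Ω (υ p + c₀) (σ p) v w = 0` for all tangent vectors `v, w` at `σ p`, `p` near `0` (the tangent space of the cone at `σ p` is spanned by `σ p` and the two partial derivatives: for a curve `γ` in the cone, `γ z = a z • σ (τ (γ z))` with `a` analytic;
  compare `H17G.tform_thin`, its private lemma `chg_tan`), so also at the points `(z, y)` near `(υ 0 + c₀, σ 0)` over the surface (`y = a • σ (τ y)`, homogeneity; `z - υ (τ y) - c₀ ∈ Λ` small, so `0`): contradiction to `IsNowhereZero`.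
* nonconst: if the germ `g` of `u₀` in a chart `σ` vanishes near `0` then `u` is constant near `σ 0`: contradiction to `NowhereConstant`.
* fib: let `f` be a curve in a fibre, `HolP f z` for all `z`.  Global lift (`H17EF.exists_lift` for `z ↦ Projectivization.mk ℂ (f z)`; `HolomorphicInto` from `HolP`): `F : ℂ → EN N` differentiable, `F z = c • LE N (f z)`.  `hfib` gives `uE Λ u (F 0) ∈ B`; `uE Λ u (F 0) - uE Λ u (LE N (f 0)) ∈ Λ`, `B` is invariant.
* crit: `x ∈ cone P` with `u₀ x - b ∉ Λ` for all `b ∈ B₀`: then `uE Λ u (LE N x) ∉ B` (otherwise `b = u₀ x`).  `hreg` gives a tangent vector `w` with `DU (coneE P) Λ (uE Λ u) (LE N x) w 1`: a curve `γ` in the cone with `u ∘ γ` of derivative `1`.  Take a chart `σ, τ` at `x` with the germ `g` (`exists_lu`): `γ z = a z • σ (τ (γ z))`, so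
  `D z - D 0 = g (τ (γ z))` near `0` (both are lifts; `Λ` discrete), and the derivative `1` shows `fderiv ℂ g 0 ≠ 0`: `ru0_of_ne`.
-/

set_option autoImplicit false

open Topology Filter MvPolynomial

namespace Pool.Agent.H17N

open Pool.Agent.H17 (PN VanishesAt HolomorphicInto)
open Pool.Agent.H62.FC (Homog)
open Pool.Agent.H17BP (Surface IsChart Tan Pr HolP ResN)
open Pool.Agent.H36.BP (EN)
open Pool.Agent.H62.EF (Lat SS Sec DU)
open Pool.Agent.H17EF (projVar IsHolomorphicMap coneE uE LE mk_mem_projVar sub_mem_iff uE_eq)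
open Pool.Agent.H13.SM (cone)
open Pool.Agent.H17G (IsTwoForm IsNowhereZero VanishesOver)

variable {N : ℕ} {P : Ideal (MvPolynomial (Fin (N + 1)) ℂ)} {Λ Γ : AddSubgroup ℂ} {u : PN N → ℂ ⧸ Λ}

private theorem st_over (hP : Homog P) {z c₀ : ℂ} {x : Fin (N + 1) → ℂ} :
    Pool.Agent.H17G.Over (projVar P) Λ u (z + c₀) x ↔ x ∈ cone P ∧ uE Λ u (LE N x) - c₀ - z ∈ Λ := by
  have h := Pool.Agent.H17G.over_iff (Λ := Λ) (u := u) hP (z := z + c₀) (x := LE N x)
  rw [ContinuousLinearEquiv.symm_apply_apply] at h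
  rw [h]
  have h1 : LE N x ∈ coneE P ↔ x ∈ cone P := by
    show (LE N).symm (LE N x) ∈ cone P ↔ _
    rw [ContinuousLinearEquiv.symm_apply_apply]
  rw [h1, show uE Λ u (LE N x) - (z + c₀) = uE Λ u (LE N x) - c₀ - z by ring]

private theorem st_mem {x : Fin (N + 1) → ℂ} : LE N x ∈ coneE P ↔ x ∈ cone P := by
  show (LE N).symm (LE N x) ∈ cone P ↔ _
  rw [ContinuousLinearEquiv.symm_apply_apply]

private theorem st_tan (hP : Homog P) {x v : Fin (N + 1) → ℂ} : Pool.Agent.H17G.IsTangent (projVar P) x v ↔ v ∈ Tan (cone P) x := by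
  constructor
  · rintro ⟨γ, h1, h2, h3, h4⟩
    refine ⟨γ, h1, ?_, h2, h3⟩
    filter_upwards [h4] with z hz
    obtain ⟨h5, h6⟩ := hz
    exact (mk_mem_projVar hP h5).1 h6
  · rintro ⟨γ, h1, h2, h3, h4⟩
    refine ⟨γ, h1, h3, h4, ?_⟩
    filter_upwards [h2] with z hz
    exact ⟨hz.1, (mk_mem_projVar hP hz.1).2 hz⟩

private theorem st_tmap (hP : Homog P) (hu : IsHolomorphicMap (projVar P) Λ u) (c₀ : ℂ) :
    TMap (cone P) Λ (fun x => uE Λ u (LE N x) - c₀) := by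
  have hT := Pool.Agent.H17EF.torusMap hP hu
  constructor
  · intro x hx c hc
    have h1 := hT.smul (LE N x) (st_mem.2 hx) c hc
    rw [← map_smul] at h1
    show uE Λ u (LE N (c • x)) - c₀ - (uE Λ u (LE N x) - c₀) ∈ Λ
    rwa [sub_sub_sub_cancel_right]
  · intro x hx
    obtain ⟨v, hv, hv'⟩ := hT.loc (LE N x) (st_mem.2 hx)
    have hL : AnalyticAt ℂ (fun y : Fin (N + 1) → ℂ => LE N y) x := (LE N : (Fin (N + 1) → ℂ) →L[ℂ] EN N).analyticAt x
    refine ⟨fun y => v (LE N y) - c₀, (AnalyticAt.fun_comp (g := v) hv hL).sub analyticAt_const, ?_⟩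
    filter_upwards [hL.continuousAt.tendsto.eventually hv'] with y hy hyX
    show uE Λ u (LE N y) - c₀ - (v (LE N y) - c₀) ∈ Λ
    rw [sub_sub_sub_cancel_right]
    exact hy (st_mem.2 hyX)

private theorem st_small (hΛ : Lat Λ) {E : Type} [TopologicalSpace E] {f : E → ℂ} {x : E} (hf : ContinuousAt f x)
    (hm : ∀ᶠ y in 𝓝 x, f y ∈ Λ) : ∀ᶠ y in 𝓝 x, f y = f x := by
  obtain ⟨δ, hδ, hdisc⟩ := hΛ.discrete
  have h1 : Tendsto (fun y => ‖f y - f x‖) (𝓝 x) (𝓝 ‖f x - f x‖) := (hf.tendsto.sub_const _).norm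
  rw [sub_self, norm_zero] at h1
  filter_upwards [hm, h1.eventually_lt_const hδ] with y h2 h3
  exact sub_eq_zero.1 (hdisc _ (Λ.sub_mem h2 hm.self_of_nhds) h3)

section gen

variable {V : Type} [NormedAddCommGroup V] [NormedSpace ℂ V] [FiniteDimensional ℂ V] {X : Set V} {σ : ℂ × ℂ → V} {τ : V → ℂ × ℂ}

omit [FiniteDimensional ℂ V] in
private theorem st_tau (h : IsChart X σ τ) : Tendsto τ (𝓝 (σ 0)) (𝓝 0) := by
  have h1 := h.τ_an.continuousAt.tendsto
  rwa [h.left.self_of_nhds] at h1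

/-- the tangent vectors at the points near `σ 0` -/
private theorem st_tanv (h : IsChart X σ τ) : ∀ᶠ y in 𝓝 (σ 0), y ∈ X → ∀ v ∈ Tan X y, ∀ c : ℂ, y = c • σ (τ y) → c ≠ 0 →
    ∃ (e : ℂ × ℂ) (a : ℂ), c⁻¹ • v = fderiv ℂ σ (τ y) e + a • σ (τ y) := by
  have : CompleteSpace V := FiniteDimensional.complete ℂ V
  filter_upwards [h.τ_an.eventually_analyticAt, (st_tau h).eventually h.σ_an.eventually_analyticAt, eventually_eventually_nhds.2 h.right,
    (st_tau h).eventually (h.σ_an.continuousAt.eventually_ne h.ne)] with y h1 h2 h3 h4 hyX v hv c hyc hc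
  obtain ⟨F, hF, hFX, hF0, hFv⟩ := hv
  obtain ⟨L, hL⟩ : ∃ L : V →L[ℂ] ℂ, L (σ (τ y)) ≠ 0 := by
    obtain ⟨L, hL⟩ := exists_dual_vector ℂ (σ (τ y)) (norm_ne_zero_iff.mpr h4)
    refine ⟨L, ?_⟩
    rw [hL.2]
    simpa using h4
  have hτF : AnalyticAt ℂ (fun z => τ (F z)) 0 := AnalyticAt.fun_comp (g := τ) (by rw [hF0]; exact h1) hF
  have hσF : AnalyticAt ℂ (fun z => σ (τ (F z))) 0 := AnalyticAt.fun_comp (g := σ) (by rw [hF0]; exact h2) hτF
  have hLσ : AnalyticAt ℂ (fun z => L (σ (τ (F z)))) 0 := AnalyticAt.fun_comp (g := fun x => L x) (L.analyticAt _) hσF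
  have hLF : AnalyticAt ℂ (fun z => L (F z)) 0 := AnalyticAt.fun_comp (g := fun x => L x) (L.analyticAt _) hF
  have hL0 : L (σ (τ (F 0))) ≠ 0 := by rw [hF0]; exact hL
  have hg : AnalyticAt ℂ (fun z => L (F z) / L (σ (τ (F z)))) 0 := hLF.div hLσ hL0
  have hFt : Tendsto F (𝓝 0) (𝓝 y) := by
    have h5 := hF.continuousAt.tendsto
    rwa [hF0] at h5
  have hev : F =ᶠ[𝓝 0] fun z => (L (F z) / L (σ (τ (F z)))) • σ (τ (F z)) := by
    filter_upwards [hFt.eventually h3, hFX, hLσ.continuousAt.eventually_ne hL0] with z g1 g2 g3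
    obtain ⟨a, ha, g4⟩ := g1 g2
    have g5 : L (F z) = a * L (σ (τ (F z))) := by
      conv_lhs => rw [g4]
      rw [map_smul, smul_eq_mul]
    rw [g5, mul_div_cancel_right₀ _ g3]
    exact g4
  have hg0 : L (F 0) / L (σ (τ (F 0))) = c := by
    rw [hF0]
    have g5 : L y = c * L (σ (τ y)) := by
      conv_lhs => rw [hyc]
      rw [map_smul, smul_eq_mul]
    rw [g5, mul_div_cancel_right₀ _ hL]
  have hd1 : HasDerivAt (fun z => σ (τ (F z))) (fderiv ℂ σ (τ y) (deriv (fun z => τ (F z)) 0)) 0 := by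
    have g1 : HasFDerivAt σ (fderiv ℂ σ (τ y)) (τ (F 0)) := by
      rw [hF0]
      exact h2.differentiableAt.hasFDerivAt
    exact g1.comp_hasDerivAt (0 : ℂ) hτF.differentiableAt.hasDerivAt
  have hd2 := hg.differentiableAt.hasDerivAt.smul hd1
  have hd3 : HasDerivAt F v 0 := by
    rw [← hFv]
    exact hF.differentiableAt.hasDerivAt
  have hd4 := hd3.unique (hd2.congr_of_eventuallyEq hev)
  refine ⟨deriv (fun z => τ (F z)) 0, c⁻¹ * deriv (fun z => L (F z) / L (σ (τ (F z)))) 0, ?_⟩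
  rw [hd4, hg0, hF0, smul_add, smul_smul, smul_smul, inv_mul_cancel₀ hc, one_smul]

end gen

theorem udata_start (hP : Homog P) (hS : Surface (cone P)) (hΛ : Lat Λ) (hu : IsHolomorphicMap (projVar P) Λ u)
    (hnon : NowhereConstant (projVar P) u) {Ω : ℂ → (Fin (N + 1) → ℂ) → (Fin (N + 1) → ℂ) → (Fin (N + 1) → ℂ) → ℂ}
    (hΩ : IsTwoForm (projVar P) Λ Γ u Ω) (hnz : IsNowhereZero (projVar P) Λ u Ω) {c₀ : ℂ} (hvan : VanishesOver (projVar P) Λ u Ω c₀)
    {B : Set ℂ} (hinv : ∀ b ∈ B, ∀ l ∈ Λ, b + l ∈ B)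
    (hreg : ∀ x ∈ coneE P, uE Λ u x ∉ B → ∃ w, DU (coneE P) Λ (uE Λ u) x w 1)
    (hfib : ∀ F : ℂ → EN N, Differentiable ℂ F → (∀ z, F z ∈ coneE P) → (∀ z w, uE Λ u (F z) - uE Λ u (F w) ∈ Λ) →
        (∃ z w, ∀ c : ℂ, F z ≠ c • F w) → uE Λ u (F 0) ∈ B) :
    UData (cone P) Λ Γ (fun x => uE Λ u (LE N x) - c₀) {b | b + c₀ ∈ B} (fun z x v w => Ω (z + c₀) x v w) := by
  have hT := st_tmap hP hu c₀
  refine ⟨hS, hT, ?_, ?_, ?_, ?_, ?_, ?_, ?_⟩
  · -- nonconst
    intro σ τ g hc hg hg0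
    have hx : σ 0 ∈ cone P := hc.σ_mem.self_of_nhds
    refine (hnon (σ 0) hx.1 ((mk_mem_projVar hP hx.1).2 hx)) ?_
    filter_upwards [hc.right, (st_tau hc).eventually hg.2.2, (st_tau hc).eventually hg0, (st_tau hc).eventually hc.σ_mem] with y h1 h2 h3 h4
    rintro ⟨hy, hyX, hne⟩
    apply hne
    have hyc : y ∈ cone P := (mk_mem_projVar hP hy).1 hyX
    obtain ⟨c, hc0, h5⟩ := h1 hyc
    have h6 : uE Λ u (LE N y) - uE Λ u (LE N (σ 0)) ∈ Λ := by
      have h7 := hT.smul _ h4 c hc0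
      rw [← h5] at h7
      rw [h3] at h2
      have h8 := Λ.add_mem h7 h2
      have h9 : uE Λ u (LE N y) - uE Λ u (LE N (σ 0)) = uE Λ u (LE N y) - c₀ - (uE Λ u (LE N (σ (τ y))) - c₀) +
          (uE Λ u (LE N (σ (τ y))) - c₀ - (uE Λ u (LE N (σ 0)) - c₀) - 0) := by ring
      rw [h9]
      exact h8
    have hL1 : (LE N).symm (LE N y) ≠ 0 := by rw [ContinuousLinearEquiv.symm_apply_apply]; exact hy
    have hL2 : (LE N).symm (LE N (σ 0)) ≠ 0 := by rw [ContinuousLinearEquiv.symm_apply_apply]; exact hx.1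
    rw [sub_mem_iff, uE_eq Λ u hL1, uE_eq Λ u hL2] at h6
    simpa only [ContinuousLinearEquiv.symm_apply_apply] using h6
  · -- form
    constructor
    · intro z x hx hz v hv w hw a b
      exact hΩ.horizontal _ _ ((st_over hP).2 ⟨hx, hz⟩) _ _ ((st_tan hP).2 hv) ((st_tan hP).2 hw) a b
    · intro z x hx hz v hv w hw a b c d
      exact hΩ.alternating _ _ ((st_over hP).2 ⟨hx, hz⟩) _ _ ((st_tan hP).2 hv) ((st_tan hP).2 hw) a b c d
    · intro z x hx hz v hv w hw c hc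
      exact hΩ.homogeneous _ _ ((st_over hP).2 ⟨hx, hz⟩) _ _ ((st_tan hP).2 hv) ((st_tan hP).2 hw) c hc
    · intro φ υ p hφ hυ hφX
      refine hΩ.holomorphic φ (fun y => υ y + c₀) p hφ (hυ.add analyticAt_const) ?_
      filter_upwards [hφX] with y hy
      exact (st_over hP).2 hy
  · -- per
    intro z l hl x hx hz v hv w hw
    have h1 := hΩ.periodic (z + c₀) l hl x ((st_over hP).2 ⟨hx, hz⟩) v w ((st_tan hP).2 hv) ((st_tan hP).2 hw)
    show Ω (z + l + c₀) x v w = Ω (z + c₀) x v w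
    rw [show z + l + c₀ = z + c₀ + l by ring]
    exact h1
  · -- van
    intro x hx hz v hv w hw
    show Ω (0 + c₀) x v w = 0
    have h1 : Pool.Agent.H17G.Over (projVar P) Λ u (0 + c₀) x := (st_over hP).2 ⟨hx, by rw [sub_zero]; exact hz⟩
    rw [zero_add] at h1 ⊢
    exact hvan x h1 v w ((st_tan hP).2 hv) ((st_tan hP).2 hw)
  · -- thin
    intro σ τ υ hc hυ hlift htc
    have hx : σ 0 ∈ cone P := hc.σ_mem.self_of_nhds
    refine (hnz _ _ ((st_over hP).2 ⟨hx, hlift.self_of_nhds⟩)) ?_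
    obtain ⟨δ, hδ, hdisc⟩ := hΛ.discrete
    have hst : Tendsto (fun q : ℂ × (Fin (N + 1) → ℂ) => q.2) (𝓝 (υ 0 + c₀, σ 0)) (𝓝 (σ 0)) := continuousAt_snd
    have hqt : Tendsto (fun q : ℂ × (Fin (N + 1) → ℂ) => τ q.2) (𝓝 (υ 0 + c₀, σ 0)) (𝓝 0) := (st_tau hc).comp hst
    have hev2 : ∀ᶠ y in 𝓝 (0 : ℂ × ℂ), ‖υ y - υ 0‖ < δ / 2 := by
      have h1 : Tendsto (fun y => ‖υ y - υ 0‖) (𝓝 0) (𝓝 ‖υ 0 - υ 0‖) := (hυ.continuousAt.tendsto.sub_const _).norm
      rw [sub_self, norm_zero] at h1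
      exact h1.eventually_lt_const (by positivity)
    have hev3 : ∀ᶠ q : ℂ × (Fin (N + 1) → ℂ) in 𝓝 (υ 0 + c₀, σ 0), ‖q.1 - (υ 0 + c₀)‖ < δ / 2 := by
      have h0 : Tendsto (fun q : ℂ × (Fin (N + 1) → ℂ) => q.1) (𝓝 (υ 0 + c₀, σ 0)) (𝓝 (υ 0 + c₀)) := continuousAt_fst
      have h1 : Tendsto (fun q : ℂ × (Fin (N + 1) → ℂ) => ‖q.1 - (υ 0 + c₀)‖) (𝓝 (υ 0 + c₀, σ 0)) (𝓝 ‖υ 0 + c₀ - (υ 0 + c₀)‖) :=
        (h0.sub_const _).norm
      rw [sub_self, norm_zero] at h1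
      exact h1.eventually_lt_const (by positivity)
    filter_upwards [hst.eventually hc.right, hst.eventually (st_tanv hc), hev3, hqt.eventually hev2, hqt.eventually hlift, hqt.eventually htc,
      hqt.eventually hc.σ_mem, hqt.eventually (eventually_eventually_nhds.2 hc.σ_mem), hqt.eventually hc.σ_an.eventually_analyticAt]
      with q q1 q2 q3 q4 q5 q6 q7 q8 q9
    rintro ⟨hov, v, w, hv, hw, hne⟩
    apply hne
    have hov' : Pool.Agent.H17G.Over (projVar P) Λ u ((q.1 - c₀) + c₀) q.2 := by rw [sub_add_cancel]; exact hov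
    obtain ⟨hyX, hyz⟩ := (st_over hP).1 hov'
    obtain ⟨c, hc0, hyc⟩ := q1 hyX
    -- the value of z
    have hz : q.1 = υ (τ q.2) + c₀ := by
      have h1 : uE Λ u (LE N q.2) - c₀ - (uE Λ u (LE N (σ (τ q.2))) - c₀) ∈ Λ := by
        have h2 := hT.smul _ q7 c hc0
        rwa [← hyc] at h2
      have h2 : q.1 - (υ (τ q.2) + c₀) ∈ Λ := by
        have h3 := Λ.add_mem (Λ.sub_mem h1 hyz) q5
        have h4 : uE Λ u (LE N q.2) - c₀ - (uE Λ u (LE N (σ (τ q.2))) - c₀) - (uE Λ u (LE N q.2) - c₀ - (q.1 - c₀)) +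
            (uE Λ u (LE N (σ (τ q.2))) - c₀ - υ (τ q.2)) = q.1 - (υ (τ q.2) + c₀) := by ring
        rwa [h4] at h3
      have h3 : ‖q.1 - (υ (τ q.2) + c₀)‖ < δ := by
        calc ‖q.1 - (υ (τ q.2) + c₀)‖ = ‖(q.1 - (υ 0 + c₀)) - (υ (τ q.2) - υ 0)‖ := by ring_nf
          _ ≤ ‖q.1 - (υ 0 + c₀)‖ + ‖υ (τ q.2) - υ 0‖ := norm_sub_le _ _
          _ < δ / 2 + δ / 2 := add_lt_add q3 q4
          _ = δ := by ring
      exact sub_eq_zero.1 (hdisc _ h2 h3)
    have hv' := (st_tan hP).1 hv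
    have hw' := (st_tan hP).1 hw
    obtain ⟨e, a, he⟩ := q2 hyX v hv' c hyc hc0
    obtain ⟨e', a', he'⟩ := q2 hyX w hw' c hyc hc0
    have hT' : ∀ e : ℂ × ℂ, fderiv ℂ σ (τ q.2) e ∈ Tan (cone P) (σ (τ q.2)) := by
      intro e
      have h0 : τ q.2 + (0 : ℂ) • e = τ q.2 := by rw [zero_smul, add_zero]
      have h1 : AnalyticAt ℂ (fun z : ℂ => τ q.2 + z • e) 0 := by fun_prop
      have h2 : Tendsto (fun z : ℂ => τ q.2 + z • e) (𝓝 0) (𝓝 (τ q.2)) := by
        have h3 := h1.continuousAt.tendsto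
        rwa [h0] at h3
      refine ⟨fun z => σ (τ q.2 + z • e), AnalyticAt.fun_comp (g := σ) (by rw [h0]; exact q9) h1, h2.eventually q8, by simp only [h0], ?_⟩
      have h3 : HasFDerivAt σ (fderiv ℂ σ (τ q.2)) (τ q.2 + (0 : ℂ) • e) := by
        rw [h0]
        exact q9.differentiableAt.hasFDerivAt
      have h4 : HasDerivAt (fun z : ℂ => τ q.2 + z • e) e 0 := by
        have h5 := ((hasDerivAt_id (0 : ℂ)).smul_const e).const_add (τ q.2)
        simpa using h5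
      exact (h3.comp_hasDerivAt (0 : ℂ) h4).deriv
    have hlin : ∀ e : ℂ × ℂ, fderiv ℂ σ (τ q.2) e = e.1 • fderiv ℂ σ (τ q.2) (1, 0) + e.2 • fderiv ℂ σ (τ q.2) (0, 1) := by
      intro e
      have h1 : e = e.1 • ((1 : ℂ), (0 : ℂ)) + e.2 • ((0 : ℂ), (1 : ℂ)) := by
        ext <;> simp
      conv_lhs => rw [h1]
      rw [map_add, map_smul, map_smul]
    have hxc' : c⁻¹ • q.2 = σ (τ q.2) := by
      conv_lhs => rw [hyc]
      rw [smul_smul, inv_mul_cancel₀ hc0, one_smul]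
    have hov2 : Pool.Agent.H17G.Over (projVar P) Λ u q.1 (σ (τ q.2)) := by
      rw [hz]
      exact (st_over hP).2 ⟨q7, q5⟩
    have hlc : ∀ e : ℂ × ℂ, Pool.Agent.H17G.IsTangent (projVar P) (σ (τ q.2)) (fderiv ℂ σ (τ q.2) e) := fun e => (st_tan hP).2 (hT' e)
    have h1 := hΩ.homogeneous q.1 q.2 hov v w hv hw c⁻¹ (inv_ne_zero hc0)
    rw [hxc', he, he', hΩ.horizontal _ _ hov2 _ _ (hlc e) (hlc e'), hlin e, hlin e', hΩ.alternating _ _ hov2 _ _ (hlc _) (hlc _)] at h1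
    have h2 : Ω q.1 (σ (τ q.2)) (fderiv ℂ σ (τ q.2) (1, 0)) (fderiv ℂ σ (τ q.2) (0, 1)) = 0 := by
      rw [hz]
      exact q6
    rw [h2, mul_zero] at h1
    exact h1.symm
  · -- fib
    intro f hf hfX hfu hne
    have h0 : ∀ z, f z ≠ 0 := fun z => (hfX z).1
    have hol : HolomorphicInto (fun z => Projectivization.mk ℂ (f z) (h0 z)) Set.univ := by
      intro z₀ _
      obtain ⟨F, hF, hF0, hfF⟩ := hf z₀
      refine ⟨F, hF, ?_⟩
      filter_upwards [hfF, hF.continuousAt.eventually_ne hF0] with z h1 h2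
      obtain ⟨c, hc, h3⟩ := h1
      refine ⟨h2, ?_⟩
      rw [Projectivization.mk_eq_mk_iff']
      exact ⟨c, h3.symm⟩
    obtain ⟨F, hF, hFf⟩ := Pool.Agent.H17EF.exists_lift hol
    have hFX : ∀ z, F z ∈ coneE P := by
      intro z
      obtain ⟨h1, h2⟩ := hFf z
      refine (mk_mem_projVar hP h1).1 ?_
      rw [← h2]
      exact (mk_mem_projVar hP (h0 z)).2 (hfX z)
    have hval : ∀ z, uE Λ u (F z) - uE Λ u (LE N (f z)) ∈ Λ := by
      intro z
      obtain ⟨h1, h2⟩ := hFf z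
      have hL1 : (LE N).symm (LE N (f z)) ≠ 0 := by rw [ContinuousLinearEquiv.symm_apply_apply]; exact h0 z
      rw [sub_mem_iff, uE_eq Λ u h1, uE_eq Λ u hL1, ← h2]
      simp only [ContinuousLinearEquiv.symm_apply_apply]
    have hFB : uE Λ u (F 0) ∈ B := by
      refine hfib F hF hFX ?_ ?_
      · intro z w
        have h1 := Λ.sub_mem (Λ.add_mem (hval z) (hfu z w)) (hval w)
        have h2 : uE Λ u (F z) - uE Λ u (F w) = uE Λ u (F z) - uE Λ u (LE N (f z)) + (uE Λ u (LE N (f z)) - c₀ - (uE Λ u (LE N (f w)) - c₀)) -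
            (uE Λ u (F w) - uE Λ u (LE N (f w))) := by ring
        rw [h2]
        exact h1
      · obtain ⟨z, w, hzw⟩ := hne
        refine ⟨z, w, fun c hc => hzw ?_⟩
        obtain ⟨h1, h2⟩ := hFf z
        obtain ⟨h3, h4⟩ := hFf w
        have hc0 : c ≠ 0 := by
          rintro rfl
          rw [zero_smul] at hc
          rw [hc, map_zero] at h1
          exact h1 rfl
        have h5 : Projectivization.mk ℂ (f z) (h0 z) = Projectivization.mk ℂ (f w) (h0 w) := by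
          have h6 : Projectivization.mk ℂ ((LE N).symm (F z)) h1 = Projectivization.mk ℂ ((LE N).symm (F w)) h3 := by
            rw [Projectivization.mk_eq_mk_iff']
            refine ⟨c, ?_⟩
            rw [← map_smul, ← hc]
          exact h2.trans (h6.trans h4.symm)
        rw [Projectivization.mk_eq_mk_iff'] at h5
        obtain ⟨a, ha⟩ := h5
        refine ⟨a, ?_, ha.symm⟩
        rintro rfl
        rw [zero_smul] at ha
        exact h0 z ha.symm
    refine ⟨uE Λ u (LE N (f 0)) - c₀, ?_, ?_⟩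
    · show uE Λ u (LE N (f 0)) - c₀ + c₀ ∈ B
      have h1 := hinv _ hFB _ (Λ.neg_mem (hval 0))
      rw [show uE Λ u (LE N (f 0)) - c₀ + c₀ = uE Λ u (F 0) + -(uE Λ u (F 0) - uE Λ u (LE N (f 0))) by ring]
      exact h1
    · show uE Λ u (LE N (f 0)) - c₀ - (uE Λ u (LE N (f 0)) - c₀) ∈ Λ
      rw [sub_self]
      exact Λ.zero_mem
  · -- crit
    intro x hx hb
    have hxB : uE Λ u (LE N x) ∉ B := by
      intro h
      refine hb (uE Λ u (LE N x) - c₀) ?_ ?_
      · show uE Λ u (LE N x) - c₀ + c₀ ∈ B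
        rw [sub_add_cancel]
        exact h
      · show uE Λ u (LE N x) - c₀ - (uE Λ u (LE N x) - c₀) ∈ Λ
        rw [sub_self]
        exact Λ.zero_mem
    obtain ⟨w, γ, D, hγ, hγX, hγ0, -, hD, hγD, hD1⟩ := hreg (LE N x) (st_mem.2 hx) hxB
    obtain ⟨σ, τ, hc, hσ0⟩ := hS.chart x hx
    obtain ⟨g, hg⟩ := exists_lu hT hc
    have hne : fderiv ℂ g 0 ≠ 0 := by
      intro hg0
      -- the curve in the chart
      have hx' : (LE N).symm (γ 0) = σ 0 := by rw [hγ0, ContinuousLinearEquiv.symm_apply_apply, hσ0]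
      have hG : AnalyticAt ℂ (fun z => (LE N).symm (γ z)) 0 :=
        AnalyticAt.fun_comp (g := fun y : EN N => (LE N).symm y) (((LE N).symm : EN N →L[ℂ] (Fin (N + 1) → ℂ)).analyticAt _) hγ
      have hp : AnalyticAt ℂ (fun z => τ ((LE N).symm (γ z))) 0 := AnalyticAt.fun_comp (g := τ) (by rw [hx']; exact hc.τ_an) hG
      have hp0 : τ ((LE N).symm (γ 0)) = 0 := by rw [hx']; exact hc.left.self_of_nhds
      have hgp : AnalyticAt ℂ (fun z => g (τ ((LE N).symm (γ z)))) 0 := AnalyticAt.fun_comp (g := g) (by rw [hp0]; exact hg.1) hp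
      have hGt : Tendsto (fun z => (LE N).symm (γ z)) (𝓝 0) (𝓝 (σ 0)) := by
        have h1 := hG.continuousAt.tendsto
        rwa [hx'] at h1
      have hpt : Tendsto (fun z => τ ((LE N).symm (γ z))) (𝓝 0) (𝓝 0) := (st_tau hc).comp hGt
      have hmem : ∀ᶠ z in 𝓝 (0 : ℂ), D z - g (τ ((LE N).symm (γ z))) - uE Λ u (LE N (σ 0)) ∈ Λ := by
        filter_upwards [hγX, hγD, hGt.eventually hc.right, hpt.eventually hg.2.2, hpt.eventually hc.σ_mem] with z h1 h2 h3 h4 h5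
        obtain ⟨a, ha, h6⟩ := h3 h1
        have h7 := hT.smul _ h5 a ha
        rw [← h6] at h7
        have h7' : uE Λ u (LE N ((LE N).symm (γ z))) - c₀ - (uE Λ u (LE N (σ (τ ((LE N).symm (γ z))))) - c₀) ∈ Λ := h7
        rw [ContinuousLinearEquiv.apply_symm_apply] at h7'
        have h8 : D z - g (τ ((LE N).symm (γ z))) - uE Λ u (LE N (σ 0)) =
            uE Λ u (γ z) - c₀ - (uE Λ u (LE N (σ (τ ((LE N).symm (γ z))))) - c₀) - (uE Λ u (γ z) - D z) +
            (uE Λ u (LE N (σ (τ ((LE N).symm (γ z))))) - c₀ - (uE Λ u (LE N (σ 0)) - c₀) - g (τ ((LE N).symm (γ z)))) := by ring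
        rw [h8]
        exact Λ.add_mem (Λ.sub_mem h7' h2) h4
      have hcst := st_small hΛ (f := fun z => D z - g (τ ((LE N).symm (γ z))) - uE Λ u (LE N (σ 0))) (x := (0 : ℂ))
        ((hD.sub hgp).sub analyticAt_const).continuousAt hmem
      have hd1 : HasDerivAt (fun z => g (τ ((LE N).symm (γ z)))) (fderiv ℂ g 0 (deriv (fun z => τ ((LE N).symm (γ z))) 0)) 0 := by
        have g1 : HasFDerivAt g (fderiv ℂ g 0) (τ ((LE N).symm (γ 0))) := by
          rw [hp0]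
          exact hg.1.differentiableAt.hasFDerivAt
        exact g1.comp_hasDerivAt (0 : ℂ) hp.differentiableAt.hasDerivAt
      have hd2 := (hD.differentiableAt.hasDerivAt.sub hd1).sub_const (uE Λ u (LE N (σ 0)))
      have hd3 : HasDerivAt (fun z => D z - g (τ ((LE N).symm (γ z))) - uE Λ u (LE N (σ 0))) 0 0 :=
        (hasDerivAt_const (0 : ℂ) _).congr_of_eventuallyEq hcst
      have hd4 := hd3.unique hd2
      rw [hg0, hD1] at hd4
      simp at hd4
    have h1 := ru0_of_ne hc hg hne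
    rwa [hσ0] at h1

end Pool.Agent.H17N
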