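import Pool.Agent.EG.Bad
import Pool.Agent.H17N.GermC

/-!
# H17N BadN: the bad values, without any hypothesis on the fibres

Copy of `EG.bad_isolated` (EG/HyDis.lean) and `EG.exists_bad_reg` (EG/Bad.lean) without the hypothesis `NC` / `IsNCPoint`.

* `DU_of_ne`: let `χ : Chart X`, `υ` analytic at `p ∈ ball 0 2` with `u (χ.σ p') - υ p' ∈ Λ` for `p'` near `p`, `fderiv ℂ υ p ≠ 0`, `A ≠ 0`.  There is a direction `e` with `fderiv ℂ υ p e = 1`; the curve `z ↦ A • χ.σ (p + z • e)` gives `DU X Λ u (A • χ.σ p) w 1` (pattern: `DU_level`).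
* `level_of_badQ'`: copy of `level_of_badQ` for a general lift `υ` (analytic near `χ.q (γ 0)`) instead of `c₀ + κ p.1^a p.2^b`: the curve `π z = χ.q (γ z)`: `υ (π z) = υ (π 0)` near `0` (the difference is in `Λ`, small), `q (χ.σ (π z)) = 0`, `deriv π 0 ≠ 0`.
* `bad_isolatedN`: as `bad_isolated`; the chart `χ` at `x₀` is from `Charts X`; the germ of `u` is from `TorusMap.loc` at `χ.σ 0`: `υ p = v (χ.σ p)`, analytic at `0`, `u (χ.σ p) - υ p ∈ Λ` for `p` near `0`; put `g p = υ p - υ 0`.  `crit_near` and `level_near` (GermC) for `g` and `Q p = q (χ.σ p)`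
  give a radius.  For large `n` the point `p = χ.q (x n)` is near `0`, `g p - (c n - c) ∈ Λ` is small, so `g p = c n - c ≠ 0`: so `fderiv g p ≠ 0` (`DU_of_ne`), and there is no level curve in `{Q = 0}`: contradiction.
* `exists_badN`: as `exists_bad_reg`.
-/

set_option autoImplicit false

open Topology Filter Metric MvPolynomial

namespace Pool.Agent.H17N

open Pool.Agent.EG (Bad BadQ Reg mem_fibre_of_tendsto near_chart exists_good_form vertical_const separated)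
open Pool.Agent.H36.BP (EN fs wd formT isCone_transport tan_transport)
open Pool.Agent.H14.PP (IsCone Chart Form Tan)
open Pool.Agent.H62.EF
open Pool.Agent.H62.FC (Homog)
open Pool.Agent.H17 (PN)
open Pool.Agent.H17BP (Surface IsForm)
open Pool.Agent.H17LG.Variety (FunField IsLogGeneralType)
open Pool.Agent.H13.SM (conTan cone)
open Pool.Agent.H17EF

variable {N : ℕ} {Λ : AddSubgroup ℂ}

section aux

variable {X : Set (EN N)} {u q : EN N → ℂ}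

private lemma badN_near_const (hΛ : Lat Λ) {E : ℂ → ℂ} (hE : ContinuousAt E 0) (h : ∀ᶠ z in 𝓝 (0 : ℂ), E z ∈ Λ) :
    ∀ᶠ z in 𝓝 (0 : ℂ), E z = E 0 := by
  obtain ⟨δ, hδ, hd⟩ := hΛ.discrete
  have h0 : E 0 ∈ Λ := h.self_of_nhds
  have h1 : ∀ᶠ z in 𝓝 (0 : ℂ), ‖E z - E 0‖ < δ := by
    have h2 : Tendsto (fun z => ‖E z - E 0‖) (𝓝 (0 : ℂ)) (𝓝 ‖E 0 - E 0‖) :=
      ((hE.sub continuousAt_const).norm).tendsto
    rw [sub_self, norm_zero] at h2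
    exact h2.eventually_lt_const hδ
  filter_upwards [h, h1] with z hz hz1
  exact sub_eq_zero.1 (hd _ (Λ.sub_mem hz h0) hz1)

/-- a point where the derivative of a local lift of `u` does not vanish -/
private lemma DU_of_ne (hX : IsCone X) (hu : TorusMap X Λ u) {χ : Chart X} {υ : ℂ × ℂ → ℂ} {p : ℂ × ℂ} (hp : p ∈ ball (0 : ℂ × ℂ) 2)
    (hυa : AnalyticAt ℂ υ p) (hυ : ∀ᶠ p' in 𝓝 p, u (χ.σ p') - υ p' ∈ Λ) (hd : fderiv ℂ υ p ≠ 0) {A : ℂ} (hA : A ≠ 0) :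
    ∃ w : EN N, DU X Λ u (A • χ.σ p) w 1 := by
  obtain ⟨e, he⟩ : ∃ e : ℂ × ℂ, fderiv ℂ υ p e = 1 := by
    have h1 : ∃ e, fderiv ℂ υ p e ≠ 0 := by
      by_contra h
      push Not at h
      exact hd (ContinuousLinearMap.ext h)
    obtain ⟨e, he⟩ := h1
    refine ⟨(fderiv ℂ υ p e)⁻¹ • e, ?_⟩
    rw [map_smul, smul_eq_mul, inv_mul_cancel₀ he]
  have hla : AnalyticAt ℂ (fun z : ℂ => p + z • e) 0 :=
    analyticAt_const.add (analyticAt_id.smul analyticAt_const)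
  have h0 : p + (0 : ℂ) • e = p := by rw [zero_smul, add_zero]
  have h3 : Tendsto (fun z : ℂ => p + z • e) (𝓝 (0 : ℂ)) (𝓝 p) := by
    have h4 := hla.continuousAt.tendsto
    rwa [h0] at h4
  have hev : ∀ᶠ z in 𝓝 (0 : ℂ), p + z • e ∈ ball (0 : ℂ × ℂ) 2 := h3.eventually (isOpen_ball.mem_nhds hp)
  have hσ : AnalyticAt ℂ χ.σ (p + (0 : ℂ) • e) := by
    rw [h0]
    exact χ.σ_an p hp
  have hυ0 : AnalyticAt ℂ υ (p + (0 : ℂ) • e) := by rwa [h0]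
  refine ⟨deriv (fun z : ℂ => A • χ.σ (p + z • e)) 0, fun z => A • χ.σ (p + z • e), fun z : ℂ => υ (p + z • e),
    analyticAt_const.fun_smul (AnalyticAt.fun_comp hσ hla), ?_, by simp, rfl, AnalyticAt.fun_comp hυ0 hla, ?_, ?_⟩
  · filter_upwards [hev] with z hz
    exact hX.smul_mem _ (χ.σ_mem _ hz).1 A hA
  · filter_upwards [hev, h3.eventually hυ] with z hz hz1
    have h5 := Λ.add_mem (hu.smul _ (χ.σ_mem _ hz).1 A hA) hz1
    have h8 : u (A • χ.σ (p + z • e)) - υ (p + z • e) =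
        u (A • χ.σ (p + z • e)) - u (χ.σ (p + z • e)) + (u (χ.σ (p + z • e)) - υ (p + z • e)) := by ring
    rw [h8]
    exact h5
  · have h6 : HasDerivAt (fun z : ℂ => p + z • e) e 0 := by
      have := ((hasDerivAt_id (0 : ℂ)).smul_const e).const_add p
      simpa using this
    have h7 : HasFDerivAt υ (fderiv ℂ υ p) (p + (0 : ℂ) • e) := by
      rw [h0]
      exact hυa.differentiableAt.hasFDerivAt
    have h8 := h7.comp_hasDerivAt (0 : ℂ) h6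
    rw [he] at h8
    exact h8.deriv

private lemma level_of_badQN (hX : IsCone X) (hu : TorusMap X Λ u) (hΛ : Lat Λ) {d : ℕ} (hhom : ∀ (c : ℂ) (x : EN N), q (c • x) = c ^ d * q x)
    {χ : Chart X} {υ : ℂ × ℂ → ℂ} {c : ℂ} {γ : ℂ → EN N} (hγ : AnalyticAt ℂ γ 0)
    (hγX : ∀ᶠ z in 𝓝 (0 : ℂ), γ z ∈ X ∧ u (γ z) - c ∈ Λ ∧ q (γ z) = 0) (hwd : 0 < wd (γ 0) (deriv γ 0)) (hU : γ 0 ∈ χ.U)
    (hυa : ContinuousAt υ (χ.q (γ 0))) (hυ : ∀ᶠ p in 𝓝 (χ.q (γ 0)), u (χ.σ p) - υ p ∈ Λ) :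
    ∃ π : ℂ → ℂ × ℂ, AnalyticAt ℂ π 0 ∧ π 0 = χ.q (γ 0) ∧
      (∀ᶠ z in 𝓝 (0 : ℂ), υ (π z) = υ (π 0)) ∧ (∀ᶠ z in 𝓝 (0 : ℂ), q (χ.σ (π z)) = 0) ∧ deriv π 0 ≠ 0 := by
  have hγ0 : γ 0 ∈ X := hγX.self_of_nhds.1
  obtain ⟨hp, a₀, ha₀, hγa⟩ := χ.surj _ hγ0 hU
  obtain ⟨p, hpdef⟩ : ∃ p : ℂ × ℂ, p = χ.q (γ 0) := ⟨_, rfl⟩
  rw [← hpdef] at hp hγa hυa hυ
  have hm := χ.σ_mem p hp
  have hx0 : χ.σ p ≠ 0 := fun h => hX.zero_notMem (h ▸ hm.1)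
  have hγ00 : γ 0 ≠ 0 := fun h => hX.zero_notMem (h ▸ hγ0)
  have hγc : Tendsto γ (𝓝 (0 : ℂ)) (𝓝 (γ 0)) := hγ.continuousAt.tendsto
  have hUe : ∀ᶠ z in 𝓝 (0 : ℂ), γ z ∈ χ.U := hγc.eventually (χ.isOpen_U.mem_nhds hU)
  obtain ⟨π, hπ⟩ : ∃ π : ℂ → ℂ × ℂ, π = fun z => χ.q (γ z) := ⟨_, rfl⟩
  have hπa : AnalyticAt ℂ π 0 := by
    rw [hπ]
    exact AnalyticAt.fun_comp (χ.q_an _ hU) hγ
  have hπ0 : π 0 = p := by
    rw [hπ, hpdef]
  have hσa : AnalyticAt ℂ χ.σ (π 0) := by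
    rw [hπ0]
    exact χ.σ_an p hp
  have hσπ : AnalyticAt ℂ (fun z => χ.σ (π z)) 0 := AnalyticAt.fun_comp hσa hπa
  have hπc : Tendsto π (𝓝 (0 : ℂ)) (𝓝 p) := by
    have h8 := hπa.continuousAt.tendsto
    rwa [hπ0] at h8
  have hπb : ∀ᶠ z in 𝓝 (0 : ℂ), π z ∈ ball (0 : ℂ × ℂ) 2 := hπc.eventually (isOpen_ball.mem_nhds hp)
  have hsj : ∀ᶠ z in 𝓝 (0 : ℂ), ∃ a : ℂ, a ≠ 0 ∧ γ z = a • χ.σ (π z) := by
    filter_upwards [hγX, hUe] with z hz hz1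
    rw [hπ]
    exact (χ.surj _ hz.1 hz1).2
  refine ⟨π, hπa, by rw [hπ0, hpdef], ?_, ?_, ?_⟩
  · have hE : ContinuousAt (fun z => υ (π z) - c) 0 := by
      have h1 : ContinuousAt (fun z => υ (π z)) 0 := by
        refine ContinuousAt.comp (g := υ) (f := π) ?_ hπa.continuousAt
        rwa [hπ0]
      exact h1.sub continuousAt_const
    have hEm : ∀ᶠ z in 𝓝 (0 : ℂ), υ (π z) - c ∈ Λ := by
      filter_upwards [hγX, hsj, hπb, hπc.eventually hυ] with z hz hz1 hz2 hz3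
      obtain ⟨A, hA, hzA⟩ := hz1
      have h1 := hu.smul _ (χ.σ_mem _ hz2).1 A hA
      rw [← hzA] at h1
      have h3 := Λ.sub_mem (Λ.sub_mem hz.2.1 h1) hz3
      have h4 : u (γ z) - c - (u (γ z) - u (χ.σ (π z))) - (u (χ.σ (π z)) - υ (π z)) = υ (π z) - c := by ring
      rwa [h4] at h3
    filter_upwards [badN_near_const hΛ hE hEm] with z hz
    have h6 : υ (π z) - c = υ (π 0) - c := hz
    linear_combination h6
  · filter_upwards [hγX, hsj] with z hz hz1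
    obtain ⟨A, hA, hzA⟩ := hz1
    have h1 := hz.2.2
    rw [hzA, hhom] at h1
    exact (mul_eq_zero.1 h1).resolve_left (pow_ne_zero _ hA)
  · intro hd0
    obtain ⟨L, hL⟩ : ∃ L : EN N →L[ℂ] ℂ, L = innerSL ℂ (χ.σ p) := ⟨_, rfl⟩
    have hL0 : L (χ.σ p) ≠ 0 := by
      rw [hL, innerSL_apply_apply]
      exact inner_self_ne_zero.2 hx0
    have hnum : AnalyticAt ℂ (fun z => L (γ z)) 0 := AnalyticAt.fun_comp (L.analyticAt (γ 0)) hγ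
    have hden : AnalyticAt ℂ (fun z => L (χ.σ (π z))) 0 :=
      AnalyticAt.fun_comp (g := L) (f := fun z => χ.σ (π z)) (L.analyticAt (χ.σ (π 0))) hσπ
    have hden0 : L (χ.σ (π 0)) ≠ 0 := by
      rw [hπ0]
      exact hL0
    obtain ⟨A, hA⟩ : ∃ A : ℂ → ℂ, A = fun z => L (γ z) / L (χ.σ (π z)) := ⟨_, rfl⟩
    have hAa : AnalyticAt ℂ A 0 := by
      rw [hA]
      exact hnum.fun_div hden hden0
    have hdne : ∀ᶠ z in 𝓝 (0 : ℂ), L (χ.σ (π z)) ≠ 0 := hden.continuousAt.eventually_ne hden0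
    have hAe : γ =ᶠ[𝓝 (0 : ℂ)] fun z => A z • χ.σ (π z) := by
      filter_upwards [hsj, hdne] with z hz hz1
      obtain ⟨a, ha, hza⟩ := hz
      have h8 : A z = a := by
        rw [hA]
        change L (γ z) / L (χ.σ (π z)) = a
        rw [hza, map_smul, smul_eq_mul, mul_div_assoc, div_self hz1, mul_one]
      rw [h8]
      exact hza
    have hσd : HasDerivAt (fun z => χ.σ (π z)) (fderiv ℂ χ.σ p (deriv π 0)) 0 := by
      have h8 := hσa.differentiableAt.hasFDerivAt.comp_hasDerivAt (0 : ℂ) hπa.differentiableAt.hasDerivAt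
      rw [hπ0] at h8
      exact h8
    have hder : deriv γ 0 = A 0 • fderiv ℂ χ.σ p (deriv π 0) + deriv A 0 • χ.σ (π 0) := by
      rw [hAe.deriv_eq]
      exact (hAa.differentiableAt.hasDerivAt.fun_smul hσd).deriv
    rw [hd0, map_zero, smul_zero, zero_add, hπ0] at hder
    have hder2 : deriv γ 0 = (deriv A 0 * a₀⁻¹) • γ 0 := by
      rw [hder, hγa, smul_smul, mul_assoc, inv_mul_cancel₀ ha₀, mul_one]
    have h9 := (Pool.Agent.H36.BP.wd_eq_zero hγ00).2 ⟨_, hder2⟩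
    rw [h9] at hwd
    exact lt_irrefl _ hwd

end aux

theorem bad_isolatedN {X : Set (EN N)} {u q : EN N → ℂ} (hX : IsCone X) (hch : Charts X) (hu : TorusMap X Λ u) (hΛ : Lat Λ)
    (han : ∀ x, AnalyticAt ℂ q x) {d : ℕ} (hhom : ∀ (c : ℂ) (x : EN N), q (c • x) = c ^ d * q x)
    (hthin : ∀ x ∈ X, ¬ ∀ᶠ y in 𝓝 x, y ∈ X → q y = 0) (c : ℂ) :
    ∃ ε : ℝ, 0 < ε ∧ ∀ c' ∈ Bad X Λ u q, ‖c' - c‖ < ε → c' = c := by
  by_contra hcon
  push Not at hcon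
  have hcon' : ∀ n : ℕ, ∃ c' ∈ Bad X Λ u q, ‖c' - c‖ < 1 / ((n : ℝ) + 1) ∧ c' ≠ c := fun n => hcon _ (by positivity)
  choose cs hbad hcs hne using hcon'
  -- the points
  have hpt : ∀ n, ∃ x ∈ X, u x - cs n ∈ Λ ∧ ((¬ ∃ w : EN N, DU X Λ u x w 1) ∨
      ∃ γ : ℂ → EN N, AnalyticAt ℂ γ 0 ∧ (∀ᶠ z in 𝓝 (0 : ℂ), γ z ∈ X ∧ u (γ z) - cs n ∈ Λ ∧ q (γ z) = 0) ∧
        0 < wd (γ 0) (deriv γ 0) ∧ γ 0 = x) := by
    intro n
    rcases hbad n with h | ⟨γ, h1, h2, h3⟩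
    · unfold Reg at h
      push Not at h
      obtain ⟨x, hx, hux, hw⟩ := h
      refine ⟨x, hx, hux, Or.inl ?_⟩
      rintro ⟨w, hw'⟩
      exact hw w hw'
    · have h4 := h2.self_of_nhds
      exact ⟨γ 0, h4.1, h4.2.1, Or.inr ⟨γ, h1, h2, h3, rfl⟩⟩
  choose x hxX hux hP using hpt
  obtain ⟨y, hy, φ, hφ, hlim⟩ := (isCompact_pr hX).tendsto_subseq (x := fun n => pr (x n)) (fun n => ⟨x n, hxX n, rfl⟩)
  obtain ⟨x₀, hx₀, rfl⟩ := hy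
  have hz : Tendsto (fun n : ℕ => 1 / ((φ n : ℝ) + 1)) atTop (𝓝 0) :=
    (tendsto_one_div_add_atTop_nhds_zero_nat (𝕜 := ℝ)).comp hφ.tendsto_atTop
  have hclim : Tendsto (fun n => cs (φ n)) atTop (𝓝 c) := by
    rw [tendsto_iff_norm_sub_tendsto_zero]
    exact squeeze_zero (fun n => norm_nonneg _) (fun n => (hcs (φ n)).le) hz
  have hux₀ : u x₀ - c ∈ Λ := mem_fibre_of_tendsto hX hu hΛ (l := atTop) (x := fun n => x (φ n)) (c := fun n => cs (φ n))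
    (Eventually.of_forall fun n => ⟨hxX _, hux _⟩) hx₀ hlim hclim
  obtain ⟨χ, hxU, hq0⟩ := hch x₀ hx₀
  have h02 : (0 : ℂ × ℂ) ∈ ball (0 : ℂ × ℂ) 2 := mem_ball_self two_pos
  have hm0 := χ.σ_mem 0 h02
  -- the lift of `u` in the chart
  obtain ⟨v, hva, hv⟩ := hu.loc (χ.σ 0) hm0.1
  have hσ0 : AnalyticAt ℂ χ.σ 0 := χ.σ_an 0 h02
  obtain ⟨υ, hυd⟩ : ∃ υ : ℂ × ℂ → ℂ, υ = fun p => v (χ.σ p) := ⟨_, rfl⟩
  have hυa : AnalyticAt ℂ υ 0 := by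
    rw [hυd]
    exact AnalyticAt.fun_comp hva hσ0
  have hb2 : ∀ᶠ p in 𝓝 (0 : ℂ × ℂ), p ∈ ball (0 : ℂ × ℂ) 2 := isOpen_ball.mem_nhds h02
  have hυ : ∀ᶠ p in 𝓝 (0 : ℂ × ℂ), u (χ.σ p) - υ p ∈ Λ := by
    have h1 : Tendsto χ.σ (𝓝 (0 : ℂ × ℂ)) (𝓝 (χ.σ 0)) := hσ0.continuousAt.tendsto
    filter_upwards [h1.eventually hv, hb2] with p hp hp2
    rw [hυd]
    exact hp (χ.σ_mem p hp2).1
  obtain ⟨g, hg⟩ : ∃ g : ℂ × ℂ → ℂ, g = fun p => υ p - υ 0 := ⟨_, rfl⟩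
  have hga : AnalyticAt ℂ g 0 := by
    rw [hg]
    exact hυa.fun_sub analyticAt_const
  have hg0 : g 0 = 0 := by
    rw [hg]
    exact sub_self _
  have hc₀ : υ 0 - c ∈ Λ := by
    obtain ⟨-, A, hA, hxA⟩ := χ.surj _ hx₀ hxU
    rw [hq0] at hxA
    have h1 := hu.smul _ hm0.1 A hA
    rw [← hxA] at h1
    have h2 := hυ.self_of_nhds
    have h4 := Λ.sub_mem (Λ.sub_mem hux₀ h1) h2
    have h5 : u x₀ - c - (u x₀ - u (χ.σ 0)) - (u (χ.σ 0) - υ 0) = υ 0 - c := by ring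
    rwa [h5] at h4
  -- the function `q` in the chart
  have hQa : AnalyticAt ℂ (fun p => q (χ.σ p)) 0 := AnalyticAt.fun_comp (han _) hσ0
  have hQ0 : ¬ ∀ᶠ p in 𝓝 (0 : ℂ × ℂ), q (χ.σ p) = 0 := by
    intro h
    refine hthin (χ.σ 0) hm0.1 ?_
    have h1 : Tendsto χ.q (𝓝 (χ.σ 0)) (𝓝 (0 : ℂ × ℂ)) := by
      have := (χ.q_an _ hm0.2.1).continuousAt.tendsto
      rwa [hm0.2.2] at this
    filter_upwards [h1.eventually h, χ.isOpen_U.mem_nhds hm0.2.1] with y hy hyU hyX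
    obtain ⟨-, A, hA, hyA⟩ := χ.surj y hyX hyU
    rw [hyA, hhom, hy, mul_zero]
  obtain ⟨δ, hδ, hlev⟩ := level_near hga hg0 hQa hQ0
  obtain ⟨δΛ, hδΛ, hdisc⟩ := hΛ.discrete
  have hsc : ∀ᶠ p in 𝓝 (0 : ℂ × ℂ), ‖g p‖ < δΛ / 2 := by
    have h2 := hga.continuousAt.norm.tendsto
    rw [hg0, norm_zero] at h2
    exact h2.eventually_lt_const (half_pos hδΛ)
  obtain ⟨ε₁, hε₁, hsc'⟩ := Metric.eventually_nhds_iff_ball.1
    (hsc.and (hb2.and (hυ.eventually_nhds.and (hυa.eventually_analyticAt.and (crit_near hga hg0)))))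
  obtain ⟨δ', hδ', hnear⟩ := near_chart hX χ hx₀ hxU hq0 (lt_min hε₁ hδ)
  have e1 : ∀ᶠ n in atTop, dist (pr (x (φ n))) (pr x₀) < δ' := Metric.tendsto_nhds.1 hlim δ' hδ'
  have e2 : ∀ᶠ n in atTop, dist (cs (φ n)) c < δΛ / 2 := Metric.tendsto_nhds.1 hclim _ (half_pos hδΛ)
  obtain ⟨n, h1, h2⟩ := (e1.and e2).exists
  obtain ⟨hnU, hnq⟩ := hnear _ (hxX _) h1
  obtain ⟨hpb, A, hA, hxA⟩ := χ.surj _ (hxX (φ n)) hnU
  obtain ⟨p, hp⟩ : ∃ p : ℂ × ℂ, p = χ.q (x (φ n)) := ⟨_, rfl⟩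
  rw [← hp] at hnq hpb hxA
  have hp1 : p ∈ ball (0 : ℂ × ℂ) ε₁ := by
    rw [mem_ball_zero_iff]
    exact hnq.trans_le (min_le_left _ _)
  have hpδ : p ∈ ball (0 : ℂ × ℂ) δ := by
    rw [mem_ball_zero_iff]
    exact hnq.trans_le (min_le_right _ _)
  obtain ⟨h3, -, hυp, hυan, hcr⟩ := hsc' p hp1
  have h4 : g p - (cs (φ n) - c) ∈ Λ := by
    have h5 := hu.smul _ (χ.σ_mem p hpb).1 A hA
    rw [← hxA] at h5
    have h6 := Λ.sub_mem (Λ.sub_mem (Λ.sub_mem (hux (φ n)) h5) hυp.self_of_nhds) hc₀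
    have h7 : u (x (φ n)) - cs (φ n) - (u (x (φ n)) - u (χ.σ p)) - (u (χ.σ p) - υ p) - (υ 0 - c) =
        υ p - υ 0 - (cs (φ n) - c) := by ring
    rw [h7] at h6
    rw [hg]
    exact h6
  have h5 : ‖g p - (cs (φ n) - c)‖ < δΛ := by
    have h6 := norm_sub_le (g p) (cs (φ n) - c)
    rw [dist_eq_norm] at h2
    linarith
  have h6 := hdisc _ h4 h5
  have hs : g p ≠ 0 := by
    intro h7
    rw [h7, zero_sub, neg_eq_zero, sub_eq_zero] at h6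
    exact hne _ h6
  have hfd : fderiv ℂ υ p ≠ 0 := by
    have h7 := hcr hs
    rw [hg, fderiv_sub_const] at h7
    exact h7
  rcases hP (φ n) with h7 | ⟨γ, g1, g2, g3, g4⟩
  · apply h7
    rw [hxA]
    exact DU_of_ne hX hu hpb hυan hυp hfd hA
  · have hγU : γ 0 ∈ χ.U := by
      rw [g4]
      exact hnU
    have hqp : χ.q (γ 0) = p := by rw [g4, hp]
    obtain ⟨π, k1, k2, k3, k4, k5⟩ := level_of_badQN hX hu hΛ hhom (υ := υ) g1 g2 g3 hγU (by rw [hqp]; exact hυan.continuousAt)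
      (by rw [hqp]; exact hυp)
    rw [hqp] at k2
    refine k5 (hlev π k1 ?_ ?_ ?_ k4)
    · rw [k2]
      exact hpδ
    · rw [k2]
      exact hs
    · filter_upwards [k3] with z hz
      rw [hg]
      show υ (π z) - υ 0 = υ (π 0) - υ 0
      rw [hz]

theorem exists_badN {P : Ideal (MvPolynomial (Fin (N + 1)) ℂ)} [P.IsPrime] {z : Fin 2 → FunField P} (hP : Homog P) (hz : IsTranscendenceBasis ℂ z)
    (hsm : ∀ y : Fin (N + 1) → ℂ, y ≠ 0 → (∀ Q ∈ P, eval y Q = 0) → Module.finrank ℂ (conTan P y) ≤ 3) (hgt : GT P 2)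
    (hΛ : Lat Λ) {u : PN N → ℂ ⧸ Λ} (hu : IsHolomorphicMap (projVar P) Λ u) :
    ∃ B : Set ℂ, (∀ b ∈ B, ∀ l ∈ Λ, b + l ∈ B) ∧ (∃ δ : ℝ, 0 < δ ∧ ∀ b ∈ B, ∀ b' ∈ B, b ≠ b' → δ ≤ ‖b - b'‖) ∧
      (∀ x ∈ coneE P, uE Λ u x ∉ B → ∃ w, DU (coneE P) Λ (uE Λ u) x w 1) ∧
      ∀ F : ℂ → EN N, Differentiable ℂ F → (∀ z, F z ∈ coneE P) → (∀ z w, uE Λ u (F z) - uE Λ u (F w) ∈ Λ) →
        (∃ z w, ∀ c : ℂ, F z ≠ c • F w) → uE Λ u (F 0) ∈ B := by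
  have hS : Surface (cone P) := Pool.Agent.H13.SM.surface_cone hP hz fun y hy => hsm y hy.1 hy.2
  have hX := isCone_transport (LE N) hS
  have hch := charts hS
  have huE := torusMap hP hu
  obtain ⟨M, Ω, q, d, hM, han, hhom, hthin, hΩ⟩ := exists_good_form hP hz hsm hgt
  have hinv : ∀ c ∈ Bad (coneE P) Λ (uE Λ u) q, ∀ l ∈ Λ, c + l ∈ Bad (coneE P) Λ (uE Λ u) q := fun c hc l hl => Bad.add hc hl
  refine ⟨Bad (coneE P) Λ (uE Λ u) q, hinv, separated hΛ hinv (bad_isolatedN hX hch huE hΛ han hhom hthin), ?_, ?_⟩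
  · intro x hx hB
    exact Bad.reg hB x hx (by rw [sub_self]; exact Λ.zero_mem)
  · intro F hF hFX hFu hne
    by_contra hB
    obtain ⟨z, w, hzw⟩ := hne
    obtain ⟨a, ha⟩ := vertical_const hX hch huE hΛ hM Ω hΩ hB hF hFX (fun z => hFu z 0) z w
    exact hzw a ha

end Pool.Agent.H17N
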