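import Pool.Agent.H17BP.ResS
import Pool.Agent.H17BP.BlowM
import Pool.Agent.H17BP.TrP
import Pool.Agent.H17BP.FinS

/-!
# H17N Defs: a surface with a holomorphic map to an elliptic curve, in a general vector space

`V` is a finite dimensional complex normed space, a projective surface is given by its cone `X ⊆ V ∖ {0}` (`H17BP.Surface`), a holomorphic map to
`ℂ / Λ` by a function `u : V → ℂ` (only the class modulo `Λ` matters), and a `2`-form on the covering `{(x, z) : u x = z mod Λ}` by a function `α`.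
-/

set_option autoImplicit false

open Topology Filter

namespace Pool.Agent.H17N

open Pool.Agent.H17BP (Surface IsChart Tan Pr HolP ResN)

variable {V : Type} [NormedAddCommGroup V] [NormedSpace ℂ V]

/-- `u` is a holomorphic map from the surface to `ℂ / Λ` -/
structure TMap (X : Set V) (Λ : AddSubgroup ℂ) (u : V → ℂ) : Prop where
  smul : ∀ x ∈ X, ∀ c : ℂ, c ≠ 0 → u (c • x) - u x ∈ Λ
  loc : ∀ x ∈ X, ∃ v : V → ℂ, AnalyticAt ℂ v x ∧ ∀ᶠ y in 𝓝 x, y ∈ X → u y - v y ∈ Λ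

/-- `g` is the germ of `u ∘ σ - u (σ 0)` modulo `Λ` -/
def LU (Λ : AddSubgroup ℂ) (u : V → ℂ) (σ : ℂ × ℂ → V) (g : ℂ × ℂ → ℂ) : Prop :=
  AnalyticAt ℂ g 0 ∧ g 0 = 0 ∧ ∀ᶠ p in 𝓝 (0 : ℂ × ℂ), u (σ p) - u (σ 0) - g p ∈ Λ

/-- the fibre of `u` through `x` has normal crossings after at most `n` point blow-ups over every point -/
def RU (X : Set V) (Λ : AddSubgroup ℂ) (u : V → ℂ) (x : V) (n : ℕ) : Prop :=
  ∃ σ τ g, IsChart X σ τ ∧ σ 0 = x ∧ LU Λ u σ g ∧ ResN n g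

/-- `α` is a holomorphic `2`-form on `{(x, z) : u x = z mod Λ}` -/
structure TF (X : Set V) (Λ : AddSubgroup ℂ) (u : V → ℂ) (α : ℂ → V → V → V → ℂ) : Prop where
  add_smul : ∀ z, ∀ x ∈ X, u x - z ∈ Λ → ∀ v ∈ Tan X x, ∀ w ∈ Tan X x, ∀ a b : ℂ, α z x (v + a • x) (w + b • x) = α z x v w
  det : ∀ z, ∀ x ∈ X, u x - z ∈ Λ → ∀ v ∈ Tan X x, ∀ w ∈ Tan X x, ∀ a b c d : ℂ,
    α z x (a • v + b • w) (c • v + d • w) = (a * d - b * c) * α z x v w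
  scale : ∀ z, ∀ x ∈ X, u x - z ∈ Λ → ∀ v ∈ Tan X x, ∀ w ∈ Tan X x, ∀ c : ℂ, c ≠ 0 → α z (c • x) (c • v) (c • w) = α z x v w
  analytic : ∀ (φ : ℂ × ℂ → V) (υ : ℂ × ℂ → ℂ) (p : ℂ × ℂ), AnalyticAt ℂ φ p → AnalyticAt ℂ υ p →
    (∀ᶠ y in 𝓝 p, φ y ∈ X ∧ u (φ y) - υ y ∈ Λ) →
    AnalyticAt ℂ (fun y => α (υ y) (φ y) (fderiv ℂ φ y (1, 0)) (fderiv ℂ φ y (0, 1))) p

/-- the map `u` is constant on no open set -/
def NonConst (X : Set V) (Λ : AddSubgroup ℂ) (u : V → ℂ) : Prop :=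
  ∀ σ τ g, IsChart X σ τ → LU Λ u σ g → ¬ ∀ᶠ p in 𝓝 (0 : ℂ × ℂ), g p = 0

/-- the form `α` is `0` on no open set -/
def ThinF (X : Set V) (Λ : AddSubgroup ℂ) (u : V → ℂ) (α : ℂ → V → V → V → ℂ) : Prop :=
  ∀ σ τ υ, IsChart X σ τ → AnalyticAt ℂ υ 0 → (∀ᶠ p in 𝓝 (0 : ℂ × ℂ), u (σ p) - υ p ∈ Λ) →
    ¬ ∀ᶠ p in 𝓝 (0 : ℂ × ℂ), α (υ p) (σ p) (fderiv ℂ σ p (1, 0)) (fderiv ℂ σ p (0, 1)) = 0

/-- the non-constant entire curves in the fibres lie in fibres over `B` -/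
def FibB (X : Set V) (Λ : AddSubgroup ℂ) (u : V → ℂ) (B : Set ℂ) : Prop :=
  ∀ f : ℂ → V, (∀ z, HolP f z) → (∀ z, f z ∈ X) → (∀ z w, u (f z) - u (f w) ∈ Λ) → (∃ z w, ¬ Pr (f z) (f w)) →
    ∃ b ∈ B, u (f 0) - b ∈ Λ

/-- all the data -/
structure UData (X : Set V) (Λ Γ : AddSubgroup ℂ) (u : V → ℂ) (B : Set ℂ) (α : ℂ → V → V → V → ℂ) : Prop where
  surf : Surface X
  tor : TMap X Λ u
  nonconst : NonConst X Λ u
  form : TF X Λ u α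
  per : ∀ z, ∀ l ∈ Γ, ∀ x ∈ X, u x - z ∈ Λ → ∀ v ∈ Tan X x, ∀ w ∈ Tan X x, α (z + l) x v w = α z x v w
  van : ∀ x ∈ X, u x ∈ Λ → ∀ v ∈ Tan X x, ∀ w ∈ Tan X x, α 0 x v w = 0
  thin : ThinF X Λ u α
  fib : FibB X Λ u B
  crit : ∀ x ∈ X, (∀ b ∈ B, u x - b ∉ Λ) → RU X Λ u x 0

/-- the entire curves `f` with `u (f z) = z` modulo `Λ` -/
def HSec (X : Set V) (Λ : AddSubgroup ℂ) (u : V → ℂ) : Set (ℂ → V) :=
  {f | (∀ z, HolP f z) ∧ (∀ z, f z ∈ X) ∧ ∀ z, u (f z) - z ∈ Λ}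

/-- there are only finitely many of them (as maps to the projective space) -/
def FinSec (X : Set V) (Λ : AddSubgroup ℂ) (u : V → ℂ) : Prop :=
  ∃ S : Set (ℂ → V), S.Finite ∧ ∀ f ∈ HSec X Λ u, ∃ g ∈ S, ∀ z, Pr (f z) (g z)

variable {ι : Type} [Fintype ι]

open Classical in
/-- a component of `y` which is not `0` -/
noncomputable def cmp (y : ι → V) : V := if h : ∃ b, y b ≠ 0 then y h.choose else 0

/-- the map `u` on the blow-up -/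
noncomputable def uB (u : V → ℂ) (y : ι → V) : ℂ := u (cmp y)

open Classical in
/-- the form on the blow-up -/
noncomputable def aB (α : ℂ → V → V → V → ℂ) (z : ℂ) (y v w : ι → V) : ℂ :=
  if h : ∃ b, y b ≠ 0 then α z (y h.choose) (v h.choose) (w h.choose) else 0

end Pool.Agent.H17N
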