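import Pool.Agent.H17BP.Art
import Pool.Agent.H17BP.FinG

/-!
# H17N GermD: the zero set of a germ is covered by finitely many discs

`discs_near`: let `g` be analytic at `0`, not identically zero near `0`.  For every `ε > 0` there are finitely many analytic maps `ψ i` from the disc of radius `2` to the ball of radius `ε`, with
`g (ψ i t) = 0`, such that near `0` every zero of `g` is `ψ i t` for some `i` and some `t` with `‖t‖ < 1`.
By `exists_resN` (H17BP/Art) there is `n` with `ResN n g`; induction on `n` (statement: for all `g` with `ResN n g`).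
- Invariance: if the statement is true for `g ∘ θ'` (`θ'` biholomorphic germ) it is true for `g` (compose the discs with `θ'`; take `ε' ` small enough that `θ'` is analytic on the ball of radius `ε'` and maps it
  into the ball of radius `ε`).
- `Mono g`: after a change of coordinates the zero set is that of `p.1 ^ a * p.2 ^ b`: the discs `t ↦ (0, ε t / 4)` (if `a ≥ 1`) and `t ↦ (ε t / 4, 0)` (if `b ≥ 1`); no disc if `a = b = 0`.
- step: `ResN n (g ∘ β)` for all `BChart β` (and `g 0 = 0`; if `g 0 ≠ 0` no disc is needed).  For every `c : ℂ` apply the induction hypothesis to `g ∘ bl c` with `ε_c` so small that `bl c` maps the ball of radius `ε_c` into the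
  ball of radius `ε`; it gives discs and a radius `δ_c`; the same for `g ∘ blInf` with `δ_∞`.  Compactness: the directions `c` with `‖c‖ ≤ 1 / δ_∞` are covered by finitely many balls `ball c δ_c`.  Let `δ ≤` all the
  finitely many `δ_c`, `δ_∞` used.  Let `‖p‖ < δ`, `g p = 0`.  If `p.1 ≠ 0` and `‖p.2 / p.1‖ ≤ 1 / δ_∞` then `p.2 / p.1 ∈ ball c δ_c` for one of the chosen `c`, and `p = bl c (p.1, p.2 / p.1 - c)`: covered by a disc
  for `g ∘ bl c`, composed with `bl c`.  Otherwise `p.2 ≠ 0` (unless `p = 0`) and `‖p.1 / p.2‖ < δ_∞`: `p = blInf (p.1 / p.2, p.2)`.  `p = 0`: constant disc `ψ = 0` (analytic, `g 0 = 0`).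
-/

set_option autoImplicit false

open Topology Filter Metric

namespace Pool.Agent.H17N

open Pool.Agent.H17BP (Bihol Coord Mono bl blInf BChart ResN exists_resN)

private theorem GD_pow {z : ℂ} {a : ℕ} (h : z ^ a = 0) : z = 0 ∧ a ≠ 0 := by
  refine ⟨eq_zero_of_pow_eq_zero h, ?_⟩
  rintro rfl
  rw [pow_zero] at h
  exact one_ne_zero h

/-- the statement for one germ and one radius -/
private def GD (g : ℂ × ℂ → ℂ) (ε : ℝ) : Prop :=
  ∃ (n : ℕ) (ψ : Fin n → ℂ → ℂ × ℂ) (δ : ℝ), 0 < δ ∧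
    (∀ i, ∀ t ∈ ball (0 : ℂ) 2, AnalyticAt ℂ (ψ i) t ∧ ψ i t ∈ ball (0 : ℂ × ℂ) ε ∧ g (ψ i t) = 0) ∧
    ∀ p ∈ ball (0 : ℂ × ℂ) δ, g p = 0 → ∃ i, ∃ t ∈ ball (0 : ℂ) 1, ψ i t = p

private theorem GD_mk {g : ℂ × ℂ → ℂ} {ε : ℝ} {ι : Type} [Finite ι] (ψ : ι → ℂ → ℂ × ℂ) {δ : ℝ} (hδ : 0 < δ)
    (h1 : ∀ i, ∀ t ∈ ball (0 : ℂ) 2, AnalyticAt ℂ (ψ i) t ∧ ψ i t ∈ ball (0 : ℂ × ℂ) ε ∧ g (ψ i t) = 0)
    (h2 : ∀ p ∈ ball (0 : ℂ × ℂ) δ, g p = 0 → ∃ i, ∃ t ∈ ball (0 : ℂ) 1, ψ i t = p) : GD g ε := by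
  obtain ⟨n, ⟨e⟩⟩ := Finite.exists_equiv_fin ι
  refine ⟨n, fun i => ψ (e.symm i), δ, hδ, fun i t ht => h1 _ t ht, fun p hp hg => ?_⟩
  obtain ⟨i, t, ht, he⟩ := h2 p hp hg
  refine ⟨e i, t, ht, ?_⟩
  change ψ (e.symm (e i)) t = p
  rw [e.symm_apply_apply]
  exact he

/-- only the zero set matters -/
private theorem GD_congr {g g₁ : ℂ × ℂ → ℂ} (h : ∀ᶠ x in 𝓝 (0 : ℂ × ℂ), g x = 0 ↔ g₁ x = 0)
    (h₁ : ∀ ε : ℝ, 0 < ε → GD g₁ ε) : ∀ ε : ℝ, 0 < ε → GD g ε := by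
  intro ε hε
  obtain ⟨r, hr, hr'⟩ := Metric.eventually_nhds_iff_ball.1 h
  obtain ⟨n, ψ, δ, hδ, h2, h3⟩ := h₁ (min ε r) (lt_min hε hr)
  refine ⟨n, ψ, min δ r, lt_min hδ hr, fun i t ht => ?_, fun p hp hg => ?_⟩
  · obtain ⟨h4, h5, h6⟩ := h2 i t ht
    exact ⟨h4, ball_subset_ball (min_le_left _ _) h5, (hr' _ (ball_subset_ball (min_le_right _ _) h5)).2 h6⟩
  · exact h3 p (ball_subset_ball (min_le_left _ _) hp) ((hr' _ (ball_subset_ball (min_le_right _ _) hp)).1 hg)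

/-- change of coordinates -/
private theorem GD_of_comp {g : ℂ × ℂ → ℂ} {θ : ℂ × ℂ → ℂ × ℂ} (hθ : Bihol θ)
    (h₁ : ∀ ε : ℝ, 0 < ε → GD (g ∘ θ) ε) : ∀ ε : ℝ, 0 < ε → GD g ε := by
  intro ε hε
  have h1 : ∀ᶠ x in 𝓝 (0 : ℂ × ℂ), AnalyticAt ℂ θ x ∧ θ x ∈ ball (0 : ℂ × ℂ) ε :=
    hθ.an.eventually_analyticAt.and (hθ.tendsto.eventually (ball_mem_nhds 0 hε))
  obtain ⟨r, hr, hr'⟩ := Metric.eventually_nhds_iff_ball.1 h1
  obtain ⟨n, ψ, δ, hδ, h2, h3⟩ := h₁ r hr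
  obtain ⟨θ', h4, -, h5⟩ := hθ.exists_inv
  obtain ⟨δ', hδ', h6⟩ := Metric.eventually_nhds_iff_ball.1 (h5.and (h4.tendsto.eventually (ball_mem_nhds 0 hδ)))
  refine ⟨n, fun i t => θ (ψ i t), δ', hδ', fun i t ht => ?_, fun p hp hg => ?_⟩
  · obtain ⟨h7, h8, h9⟩ := h2 i t ht
    exact ⟨(hr' _ h8).1.comp h7, (hr' _ h8).2, h9⟩
  · obtain ⟨h7, h8⟩ := h6 p hp
    obtain ⟨i, t, ht, h9⟩ := h3 (θ' p) h8 (by rw [Function.comp_apply, h7, hg])
    exact ⟨i, t, ht, by change θ (ψ i t) = p; rw [h9, h7]⟩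

private theorem GD_monomial (a b : ℕ) {ε : ℝ} (hε : 0 < ε) : GD (fun p => p.1 ^ a * p.2 ^ b) ε := by
  have hb : ∀ t ∈ ball (0 : ℂ) 2, ‖(ε : ℂ) / 4 * t‖ < ε := by
    intro t ht
    rw [mem_ball_zero_iff] at ht
    rw [norm_mul, norm_div, Complex.norm_real, Real.norm_of_nonneg hε.le]
    have : ‖(4 : ℂ)‖ = 4 := by simp
    rw [this]
    nlinarith
  have hc : ∀ z : ℂ, ‖z‖ < ε / 4 → 4 / (ε : ℂ) * z ∈ ball (0 : ℂ) 1 ∧ (ε : ℂ) / 4 * (4 / (ε : ℂ) * z) = z := by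
    intro z hz
    have hε' : (ε : ℂ) ≠ 0 := by exact_mod_cast hε.ne'
    constructor
    · rw [mem_ball_zero_iff, norm_mul, norm_div, Complex.norm_real, Real.norm_of_nonneg hε.le]
      have : ‖(4 : ℂ)‖ = 4 := by simp
      rw [this, div_mul_eq_mul_div, div_lt_one hε]
      linarith
    · field_simp
  refine GD_mk (ι := {i : Bool // if i then a ≠ 0 else b ≠ 0})
    (fun i t => if i.1 then ((0 : ℂ), (ε : ℂ) / 4 * t) else ((ε : ℂ) / 4 * t, (0 : ℂ))) (δ := ε / 4) (by positivity) ?_ ?_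
  · rintro ⟨i, hi⟩ t ht
    cases i
    · simp only [Bool.false_eq_true, if_false] at hi ⊢
      refine ⟨(analyticAt_const.mul analyticAt_id).prod analyticAt_const, ?_, ?_⟩
      · rw [mem_ball_zero_iff, Prod.norm_def, max_lt_iff]
        exact ⟨hb t ht, by simpa using hε⟩
      · rw [zero_pow hi, mul_zero]
    · simp only [if_true] at hi ⊢
      refine ⟨analyticAt_const.prod (analyticAt_const.mul analyticAt_id), ?_, ?_⟩
      · rw [mem_ball_zero_iff, Prod.norm_def, max_lt_iff]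
        exact ⟨by simpa using hε, hb t ht⟩
      · rw [zero_pow hi, zero_mul]
  · intro p hp hg
    rw [mem_ball_zero_iff, Prod.norm_def, max_lt_iff] at hp
    rcases mul_eq_zero.1 hg with h | h
    · obtain ⟨h1, h2⟩ := GD_pow h
      exact ⟨⟨true, by simpa using h2⟩, 4 / (ε : ℂ) * p.2, (hc _ hp.2).1, by
        simp only [if_true]
        rw [(hc _ hp.2).2, ← h1]⟩
    · obtain ⟨h1, h2⟩ := GD_pow h
      exact ⟨⟨false, by simpa using h2⟩, 4 / (ε : ℂ) * p.1, (hc _ hp.1).1, by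
        simp only [Bool.false_eq_true, if_false]
        rw [(hc _ hp.1).2, ← h1]⟩

private theorem GD_mono {g : ℂ × ℂ → ℂ} (h : Mono g) : ∀ ε : ℝ, 0 < ε → GD g ε := by
  obtain ⟨S, T, a, b, u, hST, hu, hu0, hg⟩ := h
  obtain ⟨θ', h1, -, h3⟩ := hST.exists_inv
  have h4 : ∀ᶠ x in 𝓝 (0 : ℂ × ℂ), g x = 0 ↔ (fun x => S x ^ a * T x ^ b) x = 0 := by
    filter_upwards [hg, hu.continuousAt.eventually_ne hu0] with x hx hx'
    rw [hx]
    simp [hx']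
  refine GD_congr h4 (GD_of_comp h1 ?_)
  refine GD_congr ?_ (fun ε hε => GD_monomial a b hε)
  filter_upwards [h3] with x hx
  have h5 : S (θ' x) = x.1 := congrArg Prod.fst hx
  have h6 : T (θ' x) = x.2 := congrArg Prod.snd hx
  simp only [Function.comp_apply]
  rw [h5, h6]

/-- transport by a blow-up chart -/
private theorem GD_push {g : ℂ × ℂ → ℂ} {β : ℂ × ℂ → ℂ × ℂ} (hβ : ∀ x, AnalyticAt ℂ β x) (hβ0 : β 0 = 0)
    (h₁ : ∀ ε : ℝ, 0 < ε → GD (g ∘ β) ε) {ε : ℝ} (hε : 0 < ε) :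
    ∃ (n : ℕ) (ψ : Fin n → ℂ → ℂ × ℂ) (δ : ℝ), 0 < δ ∧
      (∀ i, ∀ t ∈ ball (0 : ℂ) 2, AnalyticAt ℂ (ψ i) t ∧ ψ i t ∈ ball (0 : ℂ × ℂ) ε ∧ g (ψ i t) = 0) ∧
      ∀ p ∈ ball (0 : ℂ × ℂ) δ, g (β p) = 0 → ∃ i, ∃ t ∈ ball (0 : ℂ) 1, ψ i t = β p := by
  have h1 : ∀ᶠ x in 𝓝 (0 : ℂ × ℂ), β x ∈ ball (0 : ℂ × ℂ) ε := by
    have h2 := (hβ 0).continuousAt.tendsto
    rw [hβ0] at h2
    exact h2.eventually (ball_mem_nhds 0 hε)
  obtain ⟨r, hr, hr'⟩ := Metric.eventually_nhds_iff_ball.1 h1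
  obtain ⟨n, ψ, δ, hδ, h2, h3⟩ := h₁ r hr
  refine ⟨n, fun i t => β (ψ i t), δ, hδ, fun i t ht => ?_, fun p hp hg => ?_⟩
  · obtain ⟨h7, h8, h9⟩ := h2 i t ht
    exact ⟨(hβ _).comp h7, hr' _ h8, h9⟩
  · obtain ⟨i, t, ht, h9⟩ := h3 p hp hg
    exact ⟨i, t, ht, by change β (ψ i t) = β p; rw [h9]⟩

private theorem GD_step {g : ℂ × ℂ → ℂ} (hc : ∀ c : ℂ, ∀ ε : ℝ, 0 < ε → GD (g ∘ bl c) ε)
    (hinf : ∀ ε : ℝ, 0 < ε → GD (g ∘ blInf) ε) : ∀ ε : ℝ, 0 < ε → GD g ε := by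
  intro ε hε
  have h1 := fun c => GD_push (Pool.Agent.H17BP.analyticAt_bl c) (Pool.Agent.H17BP.bl_zero c) (hc c) hε
  choose n ψ δ hδ hd hcov using h1
  obtain ⟨n', ψ', δ', hδ', hd', hcov'⟩ :=
    GD_push Pool.Agent.H17BP.analyticAt_blInf Pool.Agent.H17BP.blInf_zero hinf hε
  obtain ⟨T, -, hT⟩ := (isCompact_closedBall (0 : ℂ) (1 / δ')).elim_nhds_subcover (fun c => ball c (δ c))
    (fun c _ => ball_mem_nhds c (hδ c))
  obtain ⟨δ₀, hδ₀, hδ₁, hδ₂⟩ : ∃ δ₀ : ℝ, 0 < δ₀ ∧ δ₀ ≤ δ' ∧ ∀ c ∈ T, δ₀ ≤ δ c := by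
    have h2 : ∀ᶠ x in 𝓝[>] (0 : ℝ), x ≤ δ' ∧ ∀ c ∈ T, x ≤ δ c := by
      refine Filter.Eventually.and ?_ ((Filter.eventually_all_finset T).2 fun c _ => ?_)
      · exact mem_nhdsWithin_of_mem_nhds (Iic_mem_nhds hδ')
      · exact mem_nhdsWithin_of_mem_nhds (Iic_mem_nhds (hδ c))
    obtain ⟨x, hx, hx'⟩ := (h2.and (eventually_mem_nhdsWithin)).exists
    exact ⟨x, hx', hx.1, hx.2⟩
  refine GD_mk (ι := {_u : Unit // g 0 = 0} ⊕ (Fin n' ⊕ (Σ c : T, Fin (n c.1))))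
    (Sum.elim (fun _ _ => 0) (Sum.elim ψ' fun i => ψ i.1.1 i.2)) hδ₀ ?_ ?_
  · rintro (⟨-, h0⟩ | i | ⟨c, i⟩) t ht
    · exact ⟨analyticAt_const, mem_ball_self hε, h0⟩
    · exact hd' i t ht
    · exact hd c.1 i t ht
  · intro p hp hg
    by_cases hp0 : p = 0
    · subst hp0
      exact ⟨Sum.inl ⟨(), hg⟩, 0, mem_ball_self one_pos, rfl⟩
    have hp' := hp
    rw [mem_ball_zero_iff, Prod.norm_def, max_lt_iff] at hp'
    by_cases hA : p.1 ≠ 0 ∧ ‖p.2 / p.1‖ ≤ 1 / δ'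
    · obtain ⟨hp1, hp2⟩ := hA
      have h3 := hT (mem_closedBall_zero_iff.2 hp2)
      rw [Set.mem_iUnion₂] at h3
      obtain ⟨c, hcT, h4⟩ := h3
      have h5 : bl c (p.1, p.2 / p.1 - c) = p := by
        unfold bl
        ext
        · rfl
        · simp only
          field_simp
          ring
      obtain ⟨i, t, ht, h6⟩ := hcov c (p.1, p.2 / p.1 - c) (by
        rw [mem_ball_zero_iff, Prod.norm_def, max_lt_iff]
        refine ⟨hp'.1.trans_le (hδ₂ c hcT), ?_⟩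
        rwa [mem_ball_iff_norm] at h4) (by rw [h5]; exact hg)
      exact ⟨Sum.inr (Sum.inr ⟨⟨c, hcT⟩, i⟩), t, ht, by rw [h5] at h6; exact h6⟩
    · have hp2 : p.2 ≠ 0 := by
        intro h0
        refine hA ⟨fun h => hp0 (Prod.ext h h0), ?_⟩
        rw [h0, zero_div, norm_zero]
        positivity
      have h3 : ‖p.1 / p.2‖ < δ' := by
        by_cases hp1 : p.1 = 0
        · rw [hp1, zero_div, norm_zero]
          exact hδ'
        · have h4 : 1 / δ' < ‖p.2 / p.1‖ := by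
            by_contra hcon
            exact hA ⟨hp1, not_lt.1 hcon⟩
          rw [norm_div] at h4 ⊢
          have h5 : 0 < ‖p.1‖ := norm_pos_iff.2 hp1
          have h6 : 0 < ‖p.2‖ := norm_pos_iff.2 hp2
          rw [div_lt_div_iff₀ hδ' h5, one_mul] at h4
          rw [div_lt_iff₀ h6]
          linarith
      have h5 : blInf (p.1 / p.2, p.2) = p := by
        unfold blInf
        ext
        · simp only
          field_simp
        · rfl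
      obtain ⟨i, t, ht, h6⟩ := hcov' (p.1 / p.2, p.2) (by
        rw [mem_ball_zero_iff, Prod.norm_def, max_lt_iff]
        exact ⟨h3, hp'.2.trans_le hδ₁⟩) (by rw [h5]; exact hg)
      exact ⟨Sum.inr (Sum.inl i), t, ht, by rw [h5] at h6; exact h6⟩

private theorem GD_res {n : ℕ} : ∀ {g : ℂ × ℂ → ℂ}, ResN n g → ∀ ε : ℝ, 0 < ε → GD g ε := by
  induction n with
  | zero => intro g h; exact GD_mono h
  | succ n ih =>
    intro g h
    rcases h with h | h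
    · exact GD_mono h
    · exact GD_step (fun c => ih (h (bl c) (Pool.Agent.H17BP.bchart_bl c)))
        (ih (h blInf Pool.Agent.H17BP.bchart_blInf))

theorem discs_near {g : ℂ × ℂ → ℂ} (hg : AnalyticAt ℂ g 0) (hne : ¬ ∀ᶠ p in 𝓝 (0 : ℂ × ℂ), g p = 0) {ε : ℝ} (hε : 0 < ε) :
    ∃ (n : ℕ) (ψ : Fin n → ℂ → ℂ × ℂ) (δ : ℝ), 0 < δ ∧
      (∀ i, ∀ t ∈ ball (0 : ℂ) 2, AnalyticAt ℂ (ψ i) t ∧ ψ i t ∈ ball (0 : ℂ × ℂ) ε ∧ g (ψ i t) = 0) ∧
      ∀ p ∈ ball (0 : ℂ × ℂ) δ, g p = 0 → ∃ i, ∃ t ∈ ball (0 : ℂ) 1, ψ i t = p := by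
  obtain ⟨n, hn⟩ := exists_resN hg hne
  exact GD_res hn ε hε

end Pool.Agent.H17N
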