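import Pool.Agent.H17G.FibForm
import Pool.Agent.H17N.GermD
import Pool.Agent.H17N.PNDefs

/-!
# H17N FibN: the fibres are algebraic

Copy of `H17G.cover_discs` and `H17G.fibre_form` (H17G/FibForm.lean; the private lemmas there are to be copied, or made available with other names) with `NowhereConstant` instead of `IsNCPoint`.
In `cover_discsN` only the local part changes: let `x` be in the fibre over `c`.  `charts hS` gives a chart `χ : Chart (coneE P)` at `x` (`χ.q x = 0`), `TorusMap.loc` at `χ.σ 0` an analytic lift; `g p = v (χ.σ p) - v (χ.σ 0)`, so `uE (χ.σ p) - c - g p ∈ Λ` for `‖p‖ < ε`, and `‖g p‖ < η` =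
half of the number of `Lat.discrete`; so `uE (χ.σ p) - c ∈ Λ ↔ g p = 0` there.  `g` does not vanish identically near `0`: otherwise `u` is constant near `x` (a neighbourhood of `x` in the cone is in the image of the chart, up to scaling), against `NowhereConstant`.  `discs_near` (GermD) for `g`, `ε` gives discs `ψ i` and `δ`;
the discs in the cone are `t ↦ χ.σ (ψ i t)`; the neighbourhood of `x` is `V_x = {y ∈ χ.U | ‖χ.q y‖ < δ}`.
-/

set_option autoImplicit false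

open Topology Filter Metric MvPolynomial

noncomputable section

namespace Pool.Agent.H17N

open Pool.Agent.H17 (PN VanishesAt HolomorphicInto)
open Pool.Agent.H62.FC (Homog)
open Pool.Agent.H62.EF (MN pr Lat TorusMap Sec DU Charts)
open Pool.Agent.H17BP (Surface)
open Pool.Agent.H17LG.Variety (FunField)
open Pool.Agent.H13.SM (cone conTan)
open Pool.Agent.H36.BP (EN IsGermChart)
open Pool.Agent.H14.PP (IsCone Chart Tan)
open Pool.Agent.H17EF (projVar IsHolomorphicMap coneE uE LE)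

variable {N : ℕ} {P : Ideal (MvPolynomial (Fin (N + 1)) ℂ)} {Λ : AddSubgroup ℂ} {u : PN N → ℂ ⧸ Λ}

/-- the part of a fibre on the unit sphere is compact -/
private theorem FibN_compact {X : Set (EN N)} {v : EN N → ℂ} (hX : IsCone X) (htor : TorusMap X Λ v) (hΛ : Lat Λ) (c : ℂ) :
    IsCompact {x : EN N | x ∈ X ∧ ‖x‖ = 1 ∧ v x - c ∈ Λ} := by
  have h1 : IsCompact ((insert 0 (X)) ∩ sphere (0 : EN N) 1) := (isCompact_sphere (0 : EN N) 1).inter_left hX.closed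
  refine h1.of_isClosed_subset ?_ ?_
  · rw [← closure_subset_iff_isClosed]
    intro x hx
    have hx1 : x ∈ insert (0 : EN N) (X) ∩ sphere (0 : EN N) 1 := by
      refine closure_minimal ?_ h1.isClosed hx
      rintro y ⟨hy1, hy2, -⟩
      exact ⟨Set.mem_insert_of_mem _ hy1, mem_sphere_zero_iff_norm.mpr hy2⟩
    have hn : ‖x‖ = 1 := mem_sphere_zero_iff_norm.mp hx1.2
    have hxX : x ∈ X := by
      rcases hx1.1 with h0 | h0
      · rw [h0, norm_zero] at hn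
        exact absurd hn (by norm_num)
      · exact h0
    refine ⟨hxX, hn, ?_⟩
    obtain ⟨w, hw, hv'⟩ := htor.loc x hxX
    have h2 : w x - c ∈ Λ := by
      refine hΛ.mem_of_close fun ε hε => ?_
      have h3 : ∀ᶠ y in 𝓝 x, ‖w y - w x‖ < ε := by
        have h4 := hw.continuousAt.tendsto
        rw [tendsto_iff_norm_sub_tendsto_zero] at h4
        exact h4.eventually (gt_mem_nhds hε)
      obtain ⟨y, ⟨hy1, hy2⟩, hy3, -, hy4⟩ := mem_closure_iff_nhds.mp hx _ (h3.and hv')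
      refine ⟨w y - c, ?_, ?_⟩
      · have h5 := hy2 hy3
        have h6 : w y - c = (v y - c) - (v y - w y) := by ring
        rw [h6]
        exact Λ.sub_mem hy4 h5
      · have h7 : w x - c - (w y - c) = -(w y - w x) := by ring
        rw [h7, norm_neg]
        exact hy1
    have h8 := hv'.self_of_nhds hxX
    have h9 : v x - c = (v x - w x) + (w x - c) := by ring
    rw [h9]
    exact Λ.add_mem h8 h2
  · rintro y ⟨hy1, hy2, -⟩
    exact ⟨Set.mem_insert_of_mem _ hy1, mem_sphere_zero_iff_norm.mpr hy2⟩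

theorem cover_discsN (hP : Homog P) (hS : Surface (cone P)) (hΛ : Lat Λ) (hu : IsHolomorphicMap (projVar P) Λ u)
    (hnon : NowhereConstant (projVar P) u) (c : ℂ) : ∃ (n : ℕ) (ψ : Fin n → ℂ → EN N),
      (∀ i, ∀ t ∈ ball (0 : ℂ) 2, AnalyticAt ℂ (ψ i) t ∧ ψ i t ∈ coneE P ∧ uE Λ u (ψ i t) - c ∈ Λ) ∧
      ∀ x ∈ coneE P, uE Λ u x - c ∈ Λ → ∃ i, ∃ t ∈ ball (0 : ℂ) 1, ∃ a : ℂ, a ≠ 0 ∧ x = a • ψ i t := by
  classical
  have hX : IsCone (coneE P) := Pool.Agent.H36.BP.isCone_transport (LE N) hS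
  have htor : TorusMap (coneE P) Λ (uE Λ u) := Pool.Agent.H17EF.torusMap hP hu
  have hne : ∀ y ∈ coneE P, y ≠ 0 := fun y hy h0 => hX.zero_notMem (h0 ▸ hy)
  -- the multiples of a point of the fibre
  have hfs : ∀ x ∈ coneE P, ∀ a : ℂ, a ≠ 0 → (uE Λ u (a • x) - c ∈ Λ ↔ uE Λ u x - c ∈ Λ) := by
    intro x hx a ha
    have h1 := htor.smul x hx a ha
    constructor
    · intro h2
      have h3 : uE Λ u x - c = (uE Λ u (a • x) - c) - (uE Λ u (a • x) - uE Λ u x) := by ring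
      rw [h3]
      exact Λ.sub_mem h2 h1
    · intro h2
      have h3 : uE Λ u (a • x) - c = (uE Λ u (a • x) - uE Λ u x) + (uE Λ u x - c) := by ring
      rw [h3]
      exact Λ.add_mem h1 h2
  obtain ⟨δ, hδ, hΛδ⟩ := hΛ.discrete
  have hK : IsCompact {x : EN N | x ∈ coneE P ∧ ‖x‖ = 1 ∧ uE Λ u x - c ∈ Λ} := FibN_compact hX htor hΛ c
  -- finitely many discs
  obtain ⟨L, hL1, hL2⟩ : ∃ L : List (ℂ → EN N), (∀ ψ ∈ L, ∀ t ∈ ball (0 : ℂ) 2, AnalyticAt ℂ ψ t ∧ ψ t ∈ coneE P ∧ uE Λ u (ψ t) - c ∈ Λ) ∧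
      ∀ x ∈ {x : EN N | x ∈ coneE P ∧ ‖x‖ = 1 ∧ uE Λ u x - c ∈ Λ}, x ∈ coneE P → uE Λ u x - c ∈ Λ → ∃ ψ ∈ L, ∃ t ∈ ball (0 : ℂ) 1, ∃ a : ℂ, a ≠ 0 ∧ x = a • ψ t := by
    refine hK.induction_on (p := fun s => ∃ L : List (ℂ → EN N), (∀ ψ ∈ L, ∀ t ∈ ball (0 : ℂ) 2, AnalyticAt ℂ ψ t ∧ ψ t ∈ coneE P ∧
      uE Λ u (ψ t) - c ∈ Λ) ∧ ∀ x ∈ s, x ∈ coneE P → uE Λ u x - c ∈ Λ → ∃ ψ ∈ L, ∃ t ∈ ball (0 : ℂ) 1, ∃ a : ℂ, a ≠ 0 ∧ x = a • ψ t) ?_ ?_ ?_ ?_
    · exact ⟨[], by simp, by simp⟩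
    · rintro s t hst ⟨L, h1, h2⟩
      exact ⟨L, h1, fun x hx => h2 x (hst hx)⟩
    · rintro s t ⟨L, h1, h2⟩ ⟨L', h1', h2'⟩
      refine ⟨L ++ L', fun ψ hψ => ?_, fun x hx hxX hxc => ?_⟩
      · rcases List.mem_append.mp hψ with h | h
        · exact h1 ψ h
        · exact h1' ψ h
      · rcases hx with h | h
        · obtain ⟨ψ, hψ, h3⟩ := h2 x h hxX hxc
          exact ⟨ψ, List.mem_append.mpr (Or.inl hψ), h3⟩
        · obtain ⟨ψ, hψ, h3⟩ := h2' x h hxX hxc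
          exact ⟨ψ, List.mem_append.mpr (Or.inr hψ), h3⟩
    · rintro x ⟨hxX, -, hxc⟩
      obtain ⟨χ, hxU, hχ0⟩ := Pool.Agent.H17EF.charts hS x hxX
      have h0b : (0 : ℂ × ℂ) ∈ ball (0 : ℂ × ℂ) 2 := mem_ball_self two_pos
      obtain ⟨hσX, hσU, hqσ⟩ := χ.σ_mem 0 h0b
      obtain ⟨-, a₀, ha₀, hxa⟩ := χ.surj x hxX hxU
      rw [hχ0] at hxa
      have hσc : uE Λ u (χ.σ 0) - c ∈ Λ := by
        rw [← hfs _ hσX a₀ ha₀, ← hxa]
        exact hxc
      obtain ⟨w, hw, hv'⟩ := htor.loc (χ.σ 0) hσX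
      have hσan : AnalyticAt ℂ χ.σ 0 := χ.σ_an 0 h0b
      set g : ℂ × ℂ → ℂ := fun p => w (χ.σ p) - w (χ.σ 0) with hg
      have hgan : AnalyticAt ℂ g 0 := (AnalyticAt.fun_comp hw hσan).sub analyticAt_const
      have hg0 : g 0 = 0 := sub_self _
      have hlift : ∀ᶠ p in 𝓝 (0 : ℂ × ℂ), uE Λ u (χ.σ p) - c - g p ∈ Λ := by
        have h1 : ∀ᶠ p in 𝓝 (0 : ℂ × ℂ), χ.σ p ∈ coneE P → uE Λ u (χ.σ p) - w (χ.σ p) ∈ Λ := hσan.continuousAt.tendsto.eventually hv'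
        filter_upwards [h1, isOpen_ball.mem_nhds h0b] with p hp hp2
        have h2 := hp (χ.σ_mem p hp2).1
        have h3 := hv'.self_of_nhds hσX
        have h4 : uE Λ u (χ.σ p) - c - g p = (uE Λ u (χ.σ p) - w (χ.σ p)) - (uE Λ u (χ.σ 0) - w (χ.σ 0)) + (uE Λ u (χ.σ 0) - c) := by
          rw [hg]
          ring
        rw [h4]
        exact Λ.add_mem (Λ.sub_mem h2 h3) hσc
      have hsm : ∀ᶠ p in 𝓝 (0 : ℂ × ℂ), ‖g p‖ < δ := by
        have h1 := hgan.continuousAt.norm.tendsto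
        rw [hg0, norm_zero] at h1
        exact h1.eventually (gt_mem_nhds hδ)
      -- not identically zero
      have hgne : ¬ ∀ᶠ p in 𝓝 (0 : ℂ × ℂ), g p = 0 := by
        intro hz
        have hqc : Tendsto χ.q (𝓝 x) (𝓝 0) := by
          have h1 := (χ.q_an x hxU).continuousAt.tendsto
          rwa [hχ0] at h1
        have h1 : ∀ᶠ y in 𝓝 x, y ∈ coneE P → uE Λ u y - uE Λ u x ∈ Λ := by
          filter_upwards [χ.isOpen_U.mem_nhds hxU, hqc.eventually hz, hqc.eventually hlift] with y hyU hy1 hy2 hyX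
          obtain ⟨hq2, a, ha, hay⟩ := χ.surj y hyX hyU
          rw [hy1, sub_zero] at hy2
          have h3 : uE Λ u y - c ∈ Λ := by
            rw [hay]
            exact (hfs _ (χ.σ_mem _ hq2).1 a ha).2 hy2
          have h4 : uE Λ u y - uE Λ u x = (uE Λ u y - c) - (uE Λ u x - c) := by ring
          rw [h4]
          exact Λ.sub_mem h3 hxc
        obtain ⟨hr, hxP⟩ := (Pool.Agent.H17EF.mem_coneE hP).1 hxX
        have h2 := hnon ((LE N).symm x) hr hxP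
        have h3 : Tendsto (fun y => (LE N) y) (𝓝 ((LE N).symm x)) (𝓝 x) := by
          have h4 := (LE N).continuous.tendsto ((LE N).symm x)
          rwa [ContinuousLinearEquiv.apply_symm_apply] at h4
        obtain ⟨y, ⟨hy, hyP, hyu⟩, hy2⟩ := (h2.and_eventually (h3.eventually h1)).exists
        have hsym : (LE N).symm ((LE N) y) = y := ContinuousLinearEquiv.symm_apply_apply _ _
        have hr' : (LE N).symm ((LE N) y) ≠ 0 := by rw [hsym]; exact hy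
        have hmk : Projectivization.mk ℂ ((LE N).symm ((LE N) y)) hr' = Projectivization.mk ℂ y hy := by
          congr 1
        have hyX : (LE N) y ∈ coneE P := (Pool.Agent.H17EF.mem_coneE hP).2 ⟨hr', by rw [hmk]; exact hyP⟩
        have h5 := hy2 hyX
        rw [Pool.Agent.H17EF.sub_mem_iff, Pool.Agent.H17EF.uE_eq Λ u hr', Pool.Agent.H17EF.uE_eq Λ u hr, hmk] at h5
        exact hyu h5
      obtain ⟨ε, hε, hε2, hεg⟩ : ∃ ε : ℝ, 0 < ε ∧ ε ≤ 2 ∧ ∀ p ∈ ball (0 : ℂ × ℂ) ε, (uE Λ u (χ.σ p) - c ∈ Λ ↔ g p = 0) := by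
        obtain ⟨ε, hε, h1⟩ := Metric.eventually_nhds_iff_ball.1 (hlift.and hsm)
        refine ⟨min ε 2, lt_min hε two_pos, min_le_right _ _, fun p hp => ?_⟩
        obtain ⟨h2, h3⟩ := h1 p (ball_subset_ball (min_le_left _ _) hp)
        constructor
        · intro h4
          have h5 : g p = (uE Λ u (χ.σ p) - c) - (uE Λ u (χ.σ p) - c - g p) := by ring
          refine hΛδ _ ?_ h3
          rw [h5]
          exact Λ.sub_mem h4 h2
        · intro h4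
          rwa [h4, sub_zero] at h2
      obtain ⟨n, ψ, δ', hδ', hψ, hψc⟩ := discs_near hgan hgne hε
      refine ⟨{y | y ∈ χ.U ∧ ‖χ.q y‖ < min δ' ε}, ?_, List.ofFn fun (i : Fin n) (t : ℂ) => χ.σ (ψ i t), ?_, ?_⟩
      · refine mem_nhdsWithin_of_mem_nhds ?_
        have h1 : ∀ᶠ y in 𝓝 x, y ∈ χ.U := χ.isOpen_U.mem_nhds hxU
        have h2 : ∀ᶠ y in 𝓝 x, ‖χ.q y‖ < min δ' ε := by
          have h3 := (χ.q_an x hxU).continuousAt.norm.tendsto
          rw [hχ0, norm_zero] at h3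
          exact h3.eventually (gt_mem_nhds (lt_min hδ' hε))
        exact h1.and h2
      · intro f hf t ht
        obtain ⟨i, rfl⟩ := List.mem_ofFn.1 hf
        obtain ⟨h1, h2, h3⟩ := hψ i t ht
        have h4 : ψ i t ∈ ball (0 : ℂ × ℂ) 2 := ball_subset_ball hε2 h2
        exact ⟨(χ.σ_an _ h4).fun_comp h1, (χ.σ_mem _ h4).1, (hεg _ h2).2 h3⟩
      · rintro y ⟨hyU, hyq⟩ hyX hyc
        obtain ⟨hq2, a, ha, hay⟩ := χ.surj y hyX hyU
        have h1 : uE Λ u (χ.σ (χ.q y)) - c ∈ Λ := by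
          rw [← hfs _ (χ.σ_mem _ hq2).1 a ha, ← hay]
          exact hyc
        have h2 := (hεg _ (mem_ball_zero_iff.2 (hyq.trans_le (min_le_right _ _)))).1 h1
        obtain ⟨i, t, ht, hit⟩ := hψc _ (mem_ball_zero_iff.2 (hyq.trans_le (min_le_left _ _))) h2
        refine ⟨fun t => χ.σ (ψ i t), List.mem_ofFn.2 ⟨i, rfl⟩, t, ht, a, ha, ?_⟩
        change y = a • χ.σ (ψ i t)
        rw [hit]
        exact hay
  refine ⟨L.length, fun i => L.get i, fun i => hL1 _ (List.get_mem _ _), fun x hxX hxc => ?_⟩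
  have hx0 : ‖x‖ ≠ 0 := norm_ne_zero_iff.mpr (hne x hxX)
  have hr0 : ((‖x‖⁻¹ : ℝ) : ℂ) ≠ 0 := by exact_mod_cast inv_ne_zero hx0
  have hyX : ((‖x‖⁻¹ : ℝ) : ℂ) • x ∈ coneE P := hX.smul_mem x hxX _ hr0
  have hyc : uE Λ u (((‖x‖⁻¹ : ℝ) : ℂ) • x) - c ∈ Λ := (hfs x hxX _ hr0).2 hxc
  have hyn : ‖((‖x‖⁻¹ : ℝ) : ℂ) • x‖ = 1 := by
    rw [norm_smul, Complex.norm_real, norm_inv, norm_norm]
    exact inv_mul_cancel₀ hx0
  obtain ⟨ψ, hψ, t, ht, a, ha, hat⟩ := hL2 _ ⟨hyX, hyn, hyc⟩ hyX hyc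
  obtain ⟨k, hk⟩ := List.mem_iff_get.mp hψ
  refine ⟨k, t, ht, ((‖x‖⁻¹ : ℝ) : ℂ)⁻¹ * a, mul_ne_zero (inv_ne_zero hr0) ha, ?_⟩
  change x = (((‖x‖⁻¹ : ℝ) : ℂ)⁻¹ * a) • L.get k t
  rw [hk, mul_smul, ← hat, smul_smul, inv_mul_cancel₀ hr0, one_smul]

private theorem FibN_smul {d : ℕ} {Q : MvPolynomial (Fin (N + 1)) ℂ} (hQ : Q.IsHomogeneous d) (c : ℂ)
    (x : Fin (N + 1) → ℂ) : eval (c • x) Q = c ^ d * eval x Q := by
  rw [eval_eq', eval_eq', Finset.mul_sum]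
  refine Finset.sum_congr rfl fun m hm => ?_
  have h1 : ∏ i, (c • x) i ^ m i = c ^ d * ∏ i, x i ^ m i := by
    simp only [Pi.smul_apply, smul_eq_mul, mul_pow, Finset.prod_mul_distrib]
    rw [Finset.prod_pow_eq_pow_sum]
    have h2 := hQ (mem_support_iff.1 hm)
    rw [Finsupp.weight_apply, Finsupp.sum_fintype _ _ (by simp)] at h2
    simp only [Pi.one_apply, smul_eq_mul, mul_one] at h2
    rw [h2]
  rw [h1]
  ring

private theorem FibN_an {ψ : ℂ → EN N} {t : ℂ} (h : AnalyticAt ℂ ψ t) (Q : MvPolynomial (Fin (N + 1)) ℂ) :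
    AnalyticAt ℂ (fun t => eval ((LE N).symm (ψ t)) Q) t := by
  have h1 : AnalyticAt ℂ (fun x : Fin (N + 1) → ℂ => eval x Q) ((LE N).symm (ψ t)) := AnalyticOnNhd.eval_mvPolynomial Q _ trivial
  have h2 : AnalyticAt ℂ (fun t => (LE N).symm (ψ t)) t :=
    AnalyticAt.fun_comp (g := fun y : EN N => (LE N).symm y) (((LE N).symm : EN N →L[ℂ] (Fin (N + 1) → ℂ)).analyticAt (ψ t)) h
  exact AnalyticAt.fun_comp (g := fun x : Fin (N + 1) → ℂ => eval x Q) (f := fun t => (LE N).symm (ψ t)) h1 h2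

/-- the Taylor coefficients of a form along a disc -/
private noncomputable def FibN_ev {ψ : ℂ → EN N} (h : AnalyticAt ℂ ψ 0) (l : ℕ) : MvPolynomial (Fin (N + 1)) ℂ →ₗ[ℂ] ℂ where
  toFun Q := iteratedDeriv l (fun t => eval ((LE N).symm (ψ t)) Q) 0
  map_add' Q R := by
    have h1 : (fun t => eval ((LE N).symm (ψ t)) (Q + R)) = (fun t => eval ((LE N).symm (ψ t)) Q) + fun t => eval ((LE N).symm (ψ t)) R := by
      funext t
      simp
    rw [h1]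
    exact iteratedDeriv_add (FibN_an h Q).contDiffAt (FibN_an h R).contDiffAt
  map_smul' a Q := by
    have h1 : (fun t => eval ((LE N).symm (ψ t)) (a • Q)) = a • fun t => eval ((LE N).symm (ψ t)) Q := by
      funext t
      simp
    rw [h1]
    exact iteratedDeriv_const_smul (FibN_an h Q).contDiffAt a

/-- uniform bounds for finitely many discs -/
private theorem FibN_bd {n : ℕ} {ψ : Fin n → ℂ → EN N} (hψ : ∀ i, ∀ t ∈ ball (0 : ℂ) 2, AnalyticAt ℂ (ψ i) t ∧ ψ i t ≠ 0) :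
    ∃ c₁ C₁ : ℝ, 0 < c₁ ∧ 0 < C₁ ∧ ∀ i, ∀ t ∈ closedBall (0 : ℂ) (3 / 2), c₁ ≤ ‖ψ i t‖ ∧ ‖ψ i t‖ ≤ C₁ := by
  have hsub : closedBall (0 : ℂ) (3 / 2) ⊆ ball 0 2 := closedBall_subset_ball (by norm_num)
  have h1 : ∀ i, ∃ a b : ℝ, 0 < a ∧ 0 ≤ b ∧ ∀ t ∈ closedBall (0 : ℂ) (3 / 2), a ≤ ‖ψ i t‖ ∧ ‖ψ i t‖ ≤ b := by
    intro i
    have hc : ContinuousOn (fun t => ‖ψ i t‖) (closedBall (0 : ℂ) (3 / 2)) := fun t ht =>
      ((hψ i t (hsub ht)).1.continuousAt.norm).continuousWithinAt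
    have hne : (closedBall (0 : ℂ) (3 / 2)).Nonempty := ⟨0, mem_closedBall_self (by norm_num)⟩
    obtain ⟨t₁, ht₁, hm₁⟩ := (isCompact_closedBall (0 : ℂ) (3 / 2)).exists_isMinOn hne hc
    obtain ⟨t₂, ht₂, hm₂⟩ := (isCompact_closedBall (0 : ℂ) (3 / 2)).exists_isMaxOn hne hc
    exact ⟨‖ψ i t₁‖, ‖ψ i t₂‖, norm_pos_iff.mpr (hψ i t₁ (hsub ht₁)).2, norm_nonneg _, fun t ht => ⟨hm₁ ht, hm₂ ht⟩⟩
  choose a b ha hb hab using h1
  obtain ⟨c₁, hc₁, hc₁'⟩ : ∃ c₁ : ℝ, 0 < c₁ ∧ ∀ i, c₁ ≤ a i := by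
    rcases isEmpty_or_nonempty (Fin n) with he | he
    · exact ⟨1, one_pos, fun i => he.elim i⟩
    · obtain ⟨i₀, hi₀⟩ := Finite.exists_min a
      exact ⟨a i₀, ha i₀, hi₀⟩
  refine ⟨c₁, ∑ i, b i + 1, hc₁, ?_, fun i t ht => ⟨(hc₁' i).trans (hab i t ht).1, (hab i t ht).2.trans ?_⟩⟩
  · have : 0 ≤ ∑ i, b i := Finset.sum_nonneg fun i _ => hb i
    linarith
  · have : b i ≤ ∑ i, b i := Finset.single_le_sum (f := b) (fun i _ => hb i) (Finset.mem_univ i)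
    linarith

/-- every fibre lies in a hypersurface which does not contain the surface -/
theorem fibre_formN [P.IsPrime] {z : Fin 2 → FunField P} (hP : Homog P) (hz : IsTranscendenceBasis ℂ z) (hS : Surface (cone P)) (hΛ : Lat Λ)
    (hu : IsHolomorphicMap (projVar P) Λ u) (hnon : NowhereConstant (projVar P) u) (c : ℂ) :
    ∃ (Q : MvPolynomial (Fin (N + 1)) ℂ) (d : ℕ), Q.IsHomogeneous d ∧ Q ∉ P ∧ ∀ x ∈ projVar P, u x = (c : ℂ ⧸ Λ) → VanishesAt Q x := by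
  classical
  have hX : IsCone (coneE P) := Pool.Agent.H36.BP.isCone_transport (LE N) hS
  have htor : TorusMap (coneE P) Λ (uE Λ u) := Pool.Agent.H17EF.torusMap hP hu
  have hne : ∀ y ∈ coneE P, y ≠ 0 := fun y hy h0 => hX.zero_notMem (h0 ▸ hy)
  -- the case of the empty cone
  by_cases hXi : ∃ i, (X i : MvPolynomial (Fin (N + 1)) ℂ) ∉ P
  swap
  · push Not at hXi
    refine ⟨1, 0, isHomogeneous_one _ _, fun h1 => (Ideal.IsPrime.ne_top (inferInstance : P.IsPrime)) ((Ideal.eq_top_iff_one P).2 h1), ?_⟩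
    intro x hx _
    exfalso
    apply x.rep_nonzero
    funext i
    have h1 := hx (X i) (hXi i) 1 (isHomogeneous_X ℂ i)
    unfold VanishesAt at h1
    simpa using h1
  obtain ⟨n, ψ, hψ, hcov⟩ := cover_discsN hP hS hΛ hu hnon c
  -- the norms of the points of the discs
  obtain ⟨c₁, C₁, hc₁, hC₁, hbd⟩ := FibN_bd (ψ := ψ) fun i t ht => ⟨(hψ i t ht).1, hne _ (hψ i t ht).2.1⟩
  obtain ⟨k, hk⟩ : ∃ k : ℕ, C₁ * (2 / 3 : ℝ) ^ k < c₁ := by
    have h1 : Tendsto (fun k : ℕ => C₁ * (2 / 3 : ℝ) ^ k) atTop (𝓝 (C₁ * 0)) :=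
      (tendsto_pow_atTop_nhds_zero_of_lt_one (by norm_num) (by norm_num)).const_mul C₁
    rw [mul_zero] at h1
    exact (h1.eventually (gt_mem_nhds hc₁)).exists
  obtain ⟨d, hd, hL⟩ := Pool.Agent.H17EF.exists_form_of_conditions hz hXi (n * k)
  have hψ0 : ∀ i, AnalyticAt ℂ (ψ i) 0 := fun i => (hψ i 0 (mem_ball_self two_pos)).1
  let e : Fin (n * k * d) ≃ Fin n × Fin (k * d) := (finCongr (by ring)).trans finProdFinEquiv.symm
  obtain ⟨Q, hQh, hQP, hQL⟩ := hL (LinearMap.pi fun a => FibN_ev (hψ0 (e a).1) ((e a).2 : ℕ))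
  have hcoef : ∀ i, ∀ l < k * d, iteratedDeriv l (fun t => eval ((LE N).symm (ψ i t)) Q) 0 = 0 := by
    intro i l hl
    have h1 := congrFun hQL (e.symm (i, ⟨l, hl⟩))
    rw [LinearMap.pi_apply] at h1
    have h2 : FibN_ev (hψ0 (e (e.symm (i, ⟨l, hl⟩))).1) ((e (e.symm (i, ⟨l, hl⟩))).2 : ℕ) Q =
        iteratedDeriv ((e (e.symm (i, ⟨l, hl⟩))).2 : ℕ) (fun t => eval ((LE N).symm (ψ (e (e.symm (i, ⟨l, hl⟩))).1 t)) Q) 0 := rfl
    rw [h2, Equiv.apply_symm_apply] at h1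
    exact h1
  have hord : ∀ i, ((k * d : ℕ) : ℕ∞) ≤ analyticOrderAt (fun t => eval ((LE N).symm (ψ i t)) Q) 0 := fun i =>
    (natCast_le_analyticOrderAt_iff_iteratedDeriv_eq_zero (FibN_an (hψ0 i) Q)).2 (hcoef i)
  have hhom : ∀ (a : ℂ) (x : EN N), ‖eval ((LE N).symm (a • x)) Q‖ = ‖a‖ ^ d * ‖eval ((LE N).symm x) Q‖ := by
    intro a x
    rw [map_smul, FibN_smul hQh, norm_mul, norm_pow]
  have hunit : ∀ x ∈ coneE P, uE Λ u x - c ∈ Λ → ∃ y ∈ {x : EN N | x ∈ coneE P ∧ ‖x‖ = 1 ∧ uE Λ u x - c ∈ Λ}, x = ((‖x‖ : ℝ) : ℂ) • y := by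
    intro x hxX hxc
    have hx0 : ‖x‖ ≠ 0 := norm_ne_zero_iff.mpr (hne x hxX)
    have hr0 : ((‖x‖⁻¹ : ℝ) : ℂ) ≠ 0 := by exact_mod_cast inv_ne_zero hx0
    refine ⟨((‖x‖⁻¹ : ℝ) : ℂ) • x, ⟨hX.smul_mem x hxX _ hr0, ?_, ?_⟩, ?_⟩
    · rw [norm_smul, Complex.norm_real, norm_inv, norm_norm]
      exact inv_mul_cancel₀ hx0
    · have h1 := htor.smul x hxX _ hr0
      have h3 : uE Λ u (((‖x‖⁻¹ : ℝ) : ℂ) • x) - c = (uE Λ u (((‖x‖⁻¹ : ℝ) : ℂ) • x) - uE Λ u x) + (uE Λ u x - c) := by ring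
      rw [h3]
      exact Λ.add_mem h1 hxc
    · rw [smul_smul, ← Complex.ofReal_mul, mul_inv_cancel₀ hx0, Complex.ofReal_one, one_smul]
  have hK := FibN_compact hX htor hΛ c
  have hKQ : ∀ x ∈ {x : EN N | x ∈ coneE P ∧ ‖x‖ = 1 ∧ uE Λ u x - c ∈ Λ}, eval ((LE N).symm x) Q = 0 := by
    rcases Set.eq_empty_or_nonempty {x : EN N | x ∈ coneE P ∧ ‖x‖ = 1 ∧ uE Λ u x - c ∈ Λ} with hemp | hnon
    · intro x hx
      rw [hemp] at hx
      exact absurd hx (Set.notMem_empty x)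
    have hcont : Continuous fun x : EN N => ‖eval ((LE N).symm x) Q‖ := by
      have h1 : Continuous fun x : Fin (N + 1) → ℂ => eval x Q := MvPolynomial.continuous_eval Q
      exact (h1.comp (LE N).symm.continuous).norm
    obtain ⟨xs, hxs, hmax⟩ := hK.exists_isMaxOn hnon hcont.continuousOn
    obtain ⟨M, hM⟩ : ∃ M, M = ‖eval ((LE N).symm xs) Q‖ := ⟨_, rfl⟩
    have hM0 : 0 ≤ M := by rw [hM]; exact norm_nonneg _
    have hall : ∀ x ∈ coneE P, uE Λ u x - c ∈ Λ → ‖eval ((LE N).symm x) Q‖ ≤ M * ‖x‖ ^ d := by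
      intro x hxX hxc
      obtain ⟨y, hy, hxy⟩ := hunit x hxX hxc
      have h1 : ‖eval ((LE N).symm y) Q‖ ≤ M := by rw [hM]; exact hmax hy
      calc ‖eval ((LE N).symm x) Q‖ = ‖eval ((LE N).symm (((‖x‖ : ℝ) : ℂ) • y)) Q‖ := by rw [← hxy]
        _ = ‖x‖ ^ d * ‖eval ((LE N).symm y) Q‖ := by rw [hhom, Complex.norm_real, norm_norm]
        _ ≤ ‖x‖ ^ d * M := mul_le_mul_of_nonneg_left h1 (by positivity)
        _ = M * ‖x‖ ^ d := mul_comm _ _
    have hM1 : M = 0 := by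
      by_contra hMne
      have hMpos : 0 < M := lt_of_le_of_ne hM0 (Ne.symm hMne)
      obtain ⟨hxs1, hxs2, hxs3⟩ := hxs
      obtain ⟨i, t, ht, a, ha, hat⟩ := hcov xs hxs1 hxs3
      have ht1 : ‖t‖ < 1 := mem_ball_zero_iff.mp ht
      have htc : t ∈ closedBall (0 : ℂ) (3 / 2) := mem_closedBall_zero_iff.mpr (by linarith)
      have h1 : M = ‖a‖ ^ d * ‖eval ((LE N).symm (ψ i t)) Q‖ := by rw [hM, hat, hhom]
      have h2 : ‖a‖ * ‖ψ i t‖ = 1 := by rw [← norm_smul, ← hat, hxs2]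
      have h3 : ‖eval ((LE N).symm (ψ i t)) Q‖ = M * ‖ψ i t‖ ^ d := by
        have h4 : (‖a‖ * ‖ψ i t‖) ^ d = 1 := by rw [h2, one_pow]
        rw [h1]
        calc ‖eval ((LE N).symm (ψ i t)) Q‖ = (‖a‖ * ‖ψ i t‖) ^ d * ‖eval ((LE N).symm (ψ i t)) Q‖ := by rw [h4, one_mul]
          _ = ‖a‖ ^ d * ‖eval ((LE N).symm (ψ i t)) Q‖ * ‖ψ i t‖ ^ d := by rw [mul_pow]; ring
      have h5 := Pool.Agent.H17G.schwarz_pow (k * d) (g := fun t => eval ((LE N).symm (ψ i t)) Q) (R := 3 / 2) (M := M * C₁ ^ d) (by norm_num)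
        (fun s hs => ((FibN_an (hψ i s (ball_subset_ball (by norm_num) hs)).1 Q).differentiableAt).differentiableWithinAt)
        (fun s hs => by
          obtain ⟨-, h6, h7⟩ := hψ i s (ball_subset_ball (by norm_num) hs)
          refine (hall _ h6 h7).trans (mul_le_mul_of_nonneg_left ?_ hM0)
          exact pow_le_pow_left₀ (norm_nonneg _) (hbd i s (ball_subset_closedBall hs)).2 d) (hord i) t
        (mem_ball_zero_iff.mpr (by linarith))
      rw [h3] at h5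
      have h8 : (‖t‖ / (3 / 2)) ^ (k * d) ≤ ((2 / 3 : ℝ) ^ k) ^ d := by
        rw [← pow_mul]
        refine pow_le_pow_left₀ (by positivity) ?_ _
        linarith
      have h9 : M * c₁ ^ d ≤ M * (C₁ * (2 / 3 : ℝ) ^ k) ^ d := by
        calc M * c₁ ^ d ≤ M * ‖ψ i t‖ ^ d := mul_le_mul_of_nonneg_left (pow_le_pow_left₀ hc₁.le (hbd i t htc).1 d) hM0
          _ ≤ M * C₁ ^ d * (‖t‖ / (3 / 2)) ^ (k * d) := h5
          _ ≤ M * C₁ ^ d * ((2 / 3 : ℝ) ^ k) ^ d := mul_le_mul_of_nonneg_left h8 (by positivity)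
          _ = M * (C₁ * (2 / 3 : ℝ) ^ k) ^ d := by rw [mul_pow]; ring
      have h10 : c₁ ^ d ≤ (C₁ * (2 / 3 : ℝ) ^ k) ^ d := le_of_mul_le_mul_left h9 hMpos
      have h11 : (C₁ * (2 / 3 : ℝ) ^ k) ^ d < c₁ ^ d := pow_lt_pow_left₀ hk (by positivity) (by omega)
      linarith
    intro x hx
    have h1 : ‖eval ((LE N).symm x) Q‖ ≤ 0 := by
      rw [← hM1, hM]
      exact hmax hx
    exact norm_le_zero_iff.mp h1
  refine ⟨Q, d, hQh, hQP, fun x hx hux => ?_⟩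
  have hsym : (LE N).symm ((LE N) x.rep) = x.rep := ContinuousLinearEquiv.symm_apply_apply _ _
  have hr : (LE N).symm ((LE N) x.rep) ≠ 0 := by rw [hsym]; exact x.rep_nonzero
  have hmk : Projectivization.mk ℂ ((LE N).symm ((LE N) x.rep)) hr = x := by
    conv_rhs => rw [← Projectivization.mk_rep x]
    congr 1
  have hyX : (LE N) x.rep ∈ coneE P := (Pool.Agent.H17EF.mem_coneE hP).2 ⟨hr, by rw [hmk]; exact hx⟩
  have hyc : uE Λ u ((LE N) x.rep) - c ∈ Λ := by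
    rw [Pool.Agent.H17EF.sub_mem_iff, Pool.Agent.H17EF.uE_eq Λ u hr, hmk]
    exact hux
  obtain ⟨y, hy, hxy⟩ := hunit _ hyX hyc
  show eval x.rep Q = 0
  have h1 : ‖eval ((LE N).symm ((LE N) x.rep)) Q‖ = 0 := by
    rw [hxy, hhom, hKQ y hy, norm_zero, mul_zero]
  rw [hsym] at h1
  exact norm_eq_zero.mp h1

end Pool.Agent.H17N
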