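import Pool.Agent.H17N.BlowR
import Pool.Agent.H17N.BlowG
import Pool.Agent.H17N.LiftS
import Pool.Agent.H17N.BaseA
import Pool.Agent.H17N.BaseB

/-!
# H17N Ind: the induction over the blow-ups (pattern: H36/BPL/IndK.lean)

* `udata_blow`: all fields from BlowT, BlowF, BlowR and `surface_blow`.
* `fin_zero`: if `X` is empty there are no curves (`S = ∅`).  Otherwise `V` is not trivial, `finrank ℂ V = M + 1`, `L : V ≃L[ℂ] EN M` (`ContinuousLinearEquiv.ofFinrankEq`); `sec_finite (edata ..)` and `finSec_of_ss`.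
* `finN_step`, `fin_of_data`: as `picardKN_step`, `picardKN`, `picard_of_model`.
-/

set_option autoImplicit false

open Topology Filter

namespace Pool.Agent.H17N

open Pool.Agent.H17BP (Surface IsChart Tan Pr HolP ResN exists_forms exists_finset_of_isolated)
open Pool.Agent.H62.BU (blow phi Ker phi_smul)
open Pool.Agent.H36.BP (EN)
open Pool.Agent.H62.EF (Lat SS Sec)
open Pool.Agent.H62.EL (EData TForm Per VanZero Thin BadSet)

variable {V : Type} [NormedAddCommGroup V] [NormedSpace ℂ V] {X : Set V} {Λ Γ : AddSubgroup ℂ} {u : V → ℂ}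
  {B : Set ℂ} {α : ℂ → V → V → V → ℂ} {δ : ℝ}

theorem udata_blow [FiniteDimensional ℂ V] {ι : Type} [Fintype ι] {l : ι → V →L[ℂ] ℂ} {q : V} (hΛ : Lat Λ) (hle : Γ ≤ Λ) (h : UData X Λ Γ u B α)
    (hl : Ker l q) (hq : q ∈ X) {n : ℕ} (hn : RU X Λ u q (n + 1)) (h0 : ¬ RU X Λ u q 0) :
    UData (blow l X) Λ Γ (uB u) B (aB α) := by
  have hB : ∃ b ∈ B, u q - b ∈ Λ := by
    by_contra hB
    refine h0 (h.crit q hq fun b hb hmem => hB ⟨b, hb, hmem⟩)
  exact
    { surf := Pool.Agent.H17BP.surface_iff.1 (Pool.Agent.H62.BU.surface_blow (Pool.Agent.H17BP.surface_iff.2 h.surf) hl hq)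
      tor := tmap_blow h.surf h.tor
      nonconst := nonconst_blow hΛ.discrete h.surf h.tor hl hq h.nonconst
      form := tf_blow h.surf h.tor h.form
      per := per_blow h.surf h.tor h.form hle h.per
      van := van_blow h.surf h.tor h.form h.van
      thin := thin_blow' hΛ.discrete h.surf h.tor h.form hl hq h.thin
      fib := fib_blow h.surf h.tor hl hq hB h.fib
      crit := crit_blow h.surf h.tor hl hq hn h0 hB h.crit }

theorem fin_zero [FiniteDimensional ℂ V] (hΛ : Lat Λ) (hΓ : Lat Γ) (hle : Γ ≤ Λ) (hbad : BadSet B Λ δ) (h0 : ∀ b ∈ B, 4 * δ ≤ ‖b‖)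
    (h : UData X Λ Γ u B α) (hr : ∀ x ∈ X, RU X Λ u x 0) : FinSec X Λ u := by
  rcases X.eq_empty_or_nonempty with hX | ⟨x₀, hx₀⟩
  · refine ⟨∅, Set.finite_empty, fun f hf => ?_⟩
    have h1 := hf.2.1 0
    rw [hX] at h1
    exact absurd h1 (Set.notMem_empty _)
  · have hx₀' : x₀ ≠ 0 := fun e => h.surf.zero (e ▸ hx₀)
    have hnt : Nontrivial V := ⟨⟨x₀, 0, hx₀'⟩⟩
    have hpos : 0 < Module.finrank ℂ V := Module.finrank_pos
    obtain ⟨M, hM⟩ : ∃ M, Module.finrank ℂ V = M + 1 := ⟨Module.finrank ℂ V - 1, by omega⟩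
    have hE : Module.finrank ℂ V = Module.finrank ℂ (EN M) := by
      rw [hM, finrank_euclideanSpace_fin]
    let L : V ≃L[ℂ] EN M := ContinuousLinearEquiv.ofFinrankEq hE
    obtain ⟨α', hper, hvan, hthin⟩ := exists_tform L h
    exact finSec_of_ss L h.surf h.tor
      (Pool.Agent.H62.EL.sec_finite (edata L hΛ hΓ hle hbad h0 h hr) hper hvan hthin)

/-- the statement for surfaces which are resolved by `n` blow-ups over every point -/
def FinN (Λ Γ : AddSubgroup ℂ) (B : Set ℂ) (n : ℕ) : Prop :=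
  ∀ (V : Type) [NormedAddCommGroup V] [NormedSpace ℂ V] [FiniteDimensional ℂ V] (X : Set V) (u : V → ℂ) (α : ℂ → V → V → V → ℂ),
    UData X Λ Γ u B α → (∀ x ∈ X, RU X Λ u x n) → FinSec X Λ u

private theorem ind_phi_pr {V : Type} [NormedAddCommGroup V] [NormedSpace ℂ V] {ι : Type} [Fintype ι]
    {l : ι → V →L[ℂ] ℂ} {x y : V} (h : Pr x y) : Pr (phi l x) (phi l y) := by
  obtain ⟨c, hc, rfl⟩ := h
  exact ⟨c ^ 2, pow_ne_zero _ hc, phi_smul c y⟩

private theorem ind_exists_finset [FiniteDimensional ℂ V] (h : UData X Λ Γ u B α) :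
    ∃ F : Finset V, (∀ q ∈ F, q ∈ X) ∧ ∀ x ∈ X, RU X Λ u x 0 ∨ ∃ q ∈ F, Pr x q := by
  have hX := h.surf.smul
  refine exists_finset_of_isolated h.surf (fun x y hxy hy => hy.pr hX h.tor hxy) fun x hx => ?_
  obtain ⟨n, hn⟩ := exists_ru h.surf h.tor h.nonconst hx
  exact hn.near hX h.tor

theorem finN_step (hΛ : Lat Λ) (hle : Γ ≤ Λ) {n : ℕ} (ih : FinN Λ Γ B n) : ∀ (k : ℕ) (V : Type) [NormedAddCommGroup V] [NormedSpace ℂ V]
    [FiniteDimensional ℂ V] (X : Set V) (u : V → ℂ) (α : ℂ → V → V → V → ℂ), UData X Λ Γ u B α → (∀ x ∈ X, RU X Λ u x (n + 1)) →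
    (∃ F : Finset V, F.card ≤ k ∧ ∀ x ∈ X, RU X Λ u x n ∨ ∃ q ∈ F, Pr x q) → FinSec X Λ u := by
  intro k
  induction k with
  | zero =>
    intro V _ _ _ X u α h h0 hF
    obtain ⟨F, hF1, hF2⟩ := hF
    have hF0 : F = ∅ := Finset.card_eq_zero.1 (by omega)
    refine ih V X u α h fun x hx => ?_
    rcases hF2 x hx with h1 | ⟨q, hq, -⟩
    · exact h1
    · rw [hF0] at hq
      simp at hq
  | succ k ihk =>
    intro V _ _ _ X u α h h0 hF
    obtain ⟨F, hF1, hF2⟩ := hF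
    have hX := h.surf.smul
    by_cases hall : ∀ x ∈ X, RU X Λ u x n
    · exact ih V X u α h hall
    push Not at hall
    obtain ⟨x₀, hx₀, hx₀n⟩ := hall
    rcases hF2 x₀ hx₀ with h1 | ⟨q, hqF, hxq⟩
    · exact absurd h1 hx₀n
    have hqX : q ∈ X := (hxq.mem_iff hX).1 hx₀
    have hqn : ¬ RU X Λ u q n := fun h1 => hx₀n (h1.pr hX h.tor hxq)
    have hq0 : ¬ RU X Λ u q 0 := fun h1 => hqn (h1.mono_le (Nat.zero_le n))
    have hqne : q ≠ 0 := fun e => h.surf.zero (e ▸ hqX)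
    obtain ⟨r, l, hl⟩ := exists_forms hqne
    classical
    refine finSec_of_blow hΛ.discrete h.surf h.tor hl hqX ?_
    refine ihk (Fin r → V) (blow l X) (uB u) (aB α) (udata_blow hΛ hle h hl hqX (h0 q hqX) hq0) ?_
      ⟨(F.erase q).image (phi l), ?_, ?_⟩
    · intro y hy
      rcases ru_blow h.surf h.tor hl hqX (h0 q hqX) hq0 hy with ⟨-, h1⟩ | ⟨x, hx, -, -, -, h2⟩
      · exact h1.mono_le (Nat.le_succ n)
      · exact h2 _ (h0 x hx)
    · have h1 := Finset.card_image_le (s := F.erase q) (f := phi l)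
      have h2 := Finset.card_erase_of_mem hqF
      omega
    · intro y hy
      rcases ru_blow h.surf h.tor hl hqX (h0 q hqX) hq0 hy with ⟨-, h1⟩ | ⟨x, hx, hxq', hyx, -, h2⟩
      · exact Or.inl h1
      · rcases hF2 x hx with h3 | ⟨q', hq'F, hxq''⟩
        · exact Or.inl (h2 _ h3)
        · refine Or.inr ⟨phi l q', Finset.mem_image_of_mem _ (Finset.mem_erase.2 ⟨?_, hq'F⟩),
            hyx.trans (ind_phi_pr hxq'')⟩
          rintro rfl
          exact hxq' hxq''

theorem fin_of_data [FiniteDimensional ℂ V] (hΛ : Lat Λ) (hΓ : Lat Γ) (hle : Γ ≤ Λ) (hbad : BadSet B Λ δ) (h0 : ∀ b ∈ B, 4 * δ ≤ ‖b‖)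
    (h : UData X Λ Γ u B α) : FinSec X Λ u := by
  classical
  have hN : ∀ n : ℕ, FinN Λ Γ B n := by
    intro n
    induction n with
    | zero =>
      intro V _ _ _ X u α h hr
      exact fin_zero hΛ hΓ hle hbad h0 h hr
    | succ n ih =>
      intro V _ _ _ X u α h hr
      obtain ⟨F, -, hF⟩ := ind_exists_finset h
      refine finN_step hΛ hle ih F.card V X u α h hr ⟨F, le_rfl, fun x hx => ?_⟩
      rcases hF x hx with h1 | h1
      · exact Or.inl (h1.mono_le (Nat.zero_le n))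
      · exact Or.inr h1
  have hX := h.surf.smul
  obtain ⟨F, hFX, hF⟩ := ind_exists_finset h
  have h1 : ∀ q : V, ∃ n, q ∈ F → RU X Λ u q n := by
    intro q
    by_cases hq : q ∈ F
    · obtain ⟨n, hn⟩ := exists_ru h.surf h.tor h.nonconst (hFX q hq)
      exact ⟨n, fun _ => hn⟩
    · exact ⟨0, fun h2 => absurd h2 hq⟩
  choose n hn using h1
  refine hN (F.sup n) V X u α h fun x hx => ?_
  rcases hF x hx with h2 | ⟨q, hq, hxq⟩
  · exact h2.mono_le (Nat.zero_le _)
  · exact ((hn q hq).mono_le (Finset.le_sup (f := n) hq)).pr hX h.tor hxq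

end Pool.Agent.H17N
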