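import Pool.Agent.H17N.Ind
import Pool.Agent.H17N.Start
import Pool.Agent.H17N.BadN
import Pool.Agent.H17N.FibN
import Pool.Agent.H17G.MainG
import Pool.Agent.H7.Bir.Open

/-!
# H17N MainN: surfaces of general type with a map to an elliptic curve
-/

set_option autoImplicit false

open Topology Filter MvPolynomial Metric

noncomputable section

namespace Pool.Agent.H17N

open Pool.Agent.H17 (PN VanishesAt HolomorphicInto ZariskiClosedIn puncturedDisc)
open Pool.Agent.H62.FC (Homog closureIn entireCurves)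
open Pool.Agent.H62.EF (pr Lat Sec SS DU)
open Pool.Agent.H62.EL (BadSet)
open Pool.Agent.H17BP (Surface)
open Pool.Agent.H17LG.Variety (FunField IsLogGeneralType)
open Pool.Agent.H13.SM (conTan cone)
open Pool.Agent.H14.KB (KobayashiHyperbolicModulo)
open Pool.Agent.H36.BP (EN fs isCone_transport OrdTwo)
open Pool.Agent.H13.OT (OrderTwo)
open Pool.Agent.H17G (IsTwoForm IsNowhereZero VanishesOver HasForms image_finite exists_delta ss_shift sections_finite_of sections_form_of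
  four_of_orderTwo excG)
open Pool.Agent.H17EF (projVar IsHolomorphicMap coneE uE LE GT sections exists_sec prP mk_symm prP_injective ordTwo_symm ordTwo_of_fs
  sections_periodic exists_affine lat_of_basis exists_prod mk_mem_projVar uE_eq sub_mem_iff IsPeriod exists_form_of_periodic eval_smul_form)

variable {N : ℕ} {P : Ideal (MvPolynomial (Fin (N + 1)) ℂ)} [P.IsPrime] {z : Fin 2 → FunField P}

/-- **The finiteness of the sections.** -/
theorem coreN_finite {Λ Γ : AddSubgroup ℂ} {u : PN N → ℂ ⧸ Λ} (hP : Homog P) (hz : IsTranscendenceBasis ℂ z)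
    (hsm : ∀ y : Fin (N + 1) → ℂ, y ≠ 0 → (∀ Q ∈ P, eval y Q = 0) → Module.finrank ℂ (conTan P y) ≤ 3) (hgt : GT P 2)
    (hΛ : Lat Λ) (hΓ : Lat Γ) (hle : Γ ≤ Λ) (hu : IsHolomorphicMap (projVar P) Λ u)
    (hnon : NowhereConstant (projVar P) u) (hform : HasForms (projVar P) Λ Γ u) :
    (SS (coneE P) Λ (uE Λ u)).Finite := by
  have hS : Surface (cone P) := Pool.Agent.H13.SM.surface_cone hP hz fun y hy => hsm y hy.1 hy.2
  obtain ⟨B, hinv, ⟨δ₀, hδ₀, hsep⟩, hreg, hfib⟩ := exists_badN hP hz hsm hgt hΛ hu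
  -- a fibre which is not bad
  obtain ⟨c, hcform, hcB⟩ : ∃ c : ℂ ⧸ Γ, (∃ Ω, IsTwoForm (projVar P) Λ Γ u Ω ∧ IsNowhereZero (projVar P) Λ u Ω ∧
      ∀ z : ℂ, (z : ℂ ⧸ Γ) = c → VanishesOver (projVar P) Λ u Ω z) ∧ c ∉ (fun b : ℂ => (b : ℂ ⧸ Γ)) '' B := by
    have h1 := image_finite hΓ (fun b hb l hl => hinv b hb l (hle hl)) hδ₀ hsep
    obtain ⟨c, hc, hcB⟩ := hform.exists_notMem_finite h1
    exact ⟨c, hc, hcB⟩
  obtain ⟨Ω, hΩ, hnz, hvan⟩ := hcform
  obtain ⟨c₀, rfl⟩ := QuotientAddGroup.mk_surjective c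
  have hc₀ : c₀ ∉ B := fun h => hcB ⟨c₀, h, rfl⟩
  -- translation
  obtain ⟨δ, hbad, hδ⟩ := exists_delta (Λ := Λ) (B := {b | b + c₀ ∈ B}) hδ₀
    (fun b hb l hl => by
      show b + l + c₀ ∈ B
      rw [add_right_comm]
      exact hinv _ hb l hl)
    (fun b hb b' hb' hne => by
      have := hsep _ hb _ hb' fun h => hne (add_right_cancel h)
      rwa [add_sub_add_right_eq_sub] at this)
    (by
      show ¬ (0 + c₀ ∈ B)
      rwa [zero_add])
  have hU := udata_start hP hS hΛ hu hnon hΩ hnz (hvan c₀ rfl) hinv hreg hfib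
  have hF := fin_of_data hΛ hΓ hle hbad hδ hU
  exact ss_shift c₀ (ss_of_finSec hS (w := fun x => uE Λ u x - c₀) hF)

/-- the entire curves in the fibres lie in a hypersurface -/
theorem vertical_formN (hP : Homog P) (hz : IsTranscendenceBasis ℂ z)
    (hsm : ∀ y : Fin (N + 1) → ℂ, y ≠ 0 → (∀ Q ∈ P, eval y Q = 0) → Module.finrank ℂ (conTan P y) ≤ 3) (hgt : GT P 2)
    {Λ : AddSubgroup ℂ} (hΛ : Lat Λ) {u : PN N → ℂ ⧸ Λ} (hu : IsHolomorphicMap (projVar P) Λ u)
    (hnon : NowhereConstant (projVar P) u) :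
    ∃ (R : MvPolynomial (Fin (N + 1)) ℂ) (n : ℕ), R.IsHomogeneous n ∧ R ∉ P ∧ ∀ f : ℂ → PN N, HolomorphicInto f Set.univ →
      (∀ z, f z ∈ projVar P) → (∀ z w, u (f z) = u (f w)) → (∃ z w, f z ≠ f w) → ∀ z, VanishesAt R (f z) := by
  have hS : Surface (cone P) := Pool.Agent.H13.SM.surface_cone hP hz fun y hy => hsm y hy.1 hy.2
  obtain ⟨B, hinv, ⟨δ, hδ, hsep⟩, -, hfib⟩ := exists_badN hP hz hsm hgt hΛ hu
  have hfin := image_finite hΛ hinv hδ hsep
  obtain ⟨R, n, hR, hRP, hRx⟩ := exists_prod (P := P) hfin (A := fun β => {x : PN N | x ∈ projVar P ∧ u x = β}) (by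
    rintro _ ⟨b, hb, rfl⟩
    obtain ⟨Q, d, hQ, hQP, hQx⟩ := fibre_formN hP hz hS hΛ hu hnon b
    exact ⟨Q, d, hQ, hQP, fun x hx => hQx x hx.1 hx.2⟩)
  refine ⟨R, n, hR, hRP, fun f hf hfX hfu hfn z => ?_⟩
  obtain ⟨F, hF, hFf⟩ := Pool.Agent.H17EF.exists_lift hf
  have h0 : ∀ z, (LE N).symm (F z) ≠ 0 := fun z => (hFf z).1
  have hFX : ∀ z, F z ∈ coneE P := fun z => (mk_mem_projVar hP (h0 z)).1 ((hFf z).2 ▸ hfX z)
  have hval : ∀ z, ((uE Λ u (F z) : ℂ) : ℂ ⧸ Λ) = u (f z) := fun z => by rw [uE_eq Λ u (h0 z), ← (hFf z).2]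
  have hb := hfib F hF hFX (fun z w => by
    rw [sub_mem_iff, hval, hval]
    exact hfu z w) (by
    obtain ⟨z, w, hzw⟩ := hfn
    refine ⟨z, w, fun c hc => hzw ?_⟩
    rw [(hFf z).2, (hFf w).2, Projectivization.mk_eq_mk_iff']
    exact ⟨c, by rw [hc, map_smul]⟩)
  exact hRx _ (Set.mem_biUnion ⟨_, hb, rfl⟩ ⟨hfX z, (hfu z 0).trans (hval 0).symm⟩)

/-- the entire curves of order two are degenerate -/
theorem orderTwo_formN (hP : Homog P) (hz : IsTranscendenceBasis ℂ z)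
    (hsm : ∀ y : Fin (N + 1) → ℂ, y ≠ 0 → (∀ Q ∈ P, eval y Q = 0) → Module.finrank ℂ (conTan P y) ≤ 3) (hgt : GT P 2)
    {w : Fin 2 → ℂ} (hw : LinearIndependent ℝ w) {u : PN N → ℂ ⧸ AddSubgroup.closure (Set.range w)}
    (hu : IsHolomorphicMap (projVar P) (AddSubgroup.closure (Set.range w)) u)
    (hnon : NowhereConstant (projVar P) u)
    (hfin : (SS (coneE P) (AddSubgroup.closure (Set.range w)) (uE (AddSubgroup.closure (Set.range w)) u)).Finite) :
    ∃ (R : MvPolynomial (Fin (N + 1)) ℂ) (n : ℕ), R.IsHomogeneous n ∧ R ∉ P ∧ ∀ f : ℂ → PN N, HolomorphicInto f Set.univ →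
      OrderTwo f → (∀ z, f z ∈ projVar P) → (∃ z w, f z ≠ f w) → ∀ z, VanishesAt R (f z) := by
  have hΛ := lat_of_basis hw
  obtain ⟨R, n, hR, hRP, hRv⟩ := vertical_formN hP hz hsm hgt hΛ hu hnon
  obtain ⟨R', n', hR', hRP', hRs⟩ := exists_prod (P := P) (sections_finite_of hP hfin) (A := fun f => Set.range f) (by
    intro f hf
    obtain ⟨Q, d, hQ, hQP, hQf⟩ := sections_form_of hP hz hsm hw hfin hf
    refine ⟨Q, d, hQ, hQP, ?_⟩
    rintro _ ⟨z, rfl⟩
    exact hQf z)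
  refine ⟨R * R', n + n', hR.mul hR', fun h => ((inferInstance : P.IsPrime).mem_or_mem h).elim hRP hRP', fun g hg hgo hgX hgn z => ?_⟩
  have hmul : ∀ x : PN N, VanishesAt R x ∨ VanishesAt R' x → VanishesAt (R * R') x := by
    intro x h
    unfold VanishesAt at h ⊢
    rw [map_mul]
    rcases h with h | h
    · rw [h, zero_mul]
    · rw [h, mul_zero]
  rcases exists_affine hP hz hsm hΛ hu hg hgo hgX with h | ⟨f, hf, a, b, ha, hgf⟩
  · exact hmul _ (Or.inl (hRv g hg hgX h hgn z))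
  · refine hmul _ (Or.inr (hRs _ (Set.mem_biUnion hf ?_)))
    rw [hgf z]
    exact ⟨_, rfl⟩

/-- the finiteness of the sections -/
theorem finite_of_hypN (hP : Homog P) (hz : IsTranscendenceBasis ℂ z)
    (hsm : ∀ y : Fin (N + 1) → ℂ, y ≠ 0 → (∀ Q ∈ P, eval y Q = 0) → Module.finrank ℂ (conTan P y) ≤ 3) (hgt : GT P 2)
    {w : Fin 2 → ℂ} (hw : LinearIndependent ℝ w) {u : PN N → ℂ ⧸ AddSubgroup.closure (Set.range w)}
    (hu : IsHolomorphicMap (projVar P) (AddSubgroup.closure (Set.range w)) u)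
    (hnon : NowhereConstant (projVar P) u)
    {w' : Fin 2 → ℂ} (hw' : LinearIndependent ℝ w') (hle : ∀ i, w' i ∈ AddSubgroup.closure (Set.range w))
    (hform : HasForms (projVar P) (AddSubgroup.closure (Set.range w)) (AddSubgroup.closure (Set.range w')) u) :
    (SS (coneE P) (AddSubgroup.closure (Set.range w)) (uE (AddSubgroup.closure (Set.range w)) u)).Finite := by
  have hle' : AddSubgroup.closure (Set.range w') ≤ AddSubgroup.closure (Set.range w) := by
    rw [AddSubgroup.closure_le]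
    rintro _ ⟨i, rfl⟩
    exact hle i
  exact coreN_finite hP hz hsm hgt (lat_of_basis hw) (lat_of_basis hw') hle' hu hnon hform

/-- the four properties, and the Kobayashi pseudometric -/
theorem fourN (hP : Homog P) (hz : IsTranscendenceBasis ℂ z)
    (hsm : ∀ y : Fin (N + 1) → ℂ, y ≠ 0 → (∀ Q ∈ P, eval y Q = 0) → Module.finrank ℂ (conTan P y) ≤ 3) (hgt : GT P 2)
    {w : Fin 2 → ℂ} (hw : LinearIndependent ℝ w) {u : PN N → ℂ ⧸ AddSubgroup.closure (Set.range w)}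
    (hu : IsHolomorphicMap (projVar P) (AddSubgroup.closure (Set.range w)) u)
    (hnon : NowhereConstant (projVar P) u)
    {w' : Fin 2 → ℂ} (hw' : LinearIndependent ℝ w') (hle : ∀ i, w' i ∈ AddSubgroup.closure (Set.range w))
    (hform : HasForms (projVar P) (AddSubgroup.closure (Set.range w)) (AddSubgroup.closure (Set.range w')) u) :
    Pool.Agent.H7.Bir.GGL P (excG P) ∧
    ∃ (Q : MvPolynomial (Fin (N + 1)) ℂ) (D : ℕ), Q.IsHomogeneous D ∧ (∃ x ∈ projVar P, ¬ VanishesAt Q x) ∧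
      (∀ x ∈ excG P, VanishesAt Q x) ∧ KobayashiHyperbolicModulo (projVar P) Q D := by
  obtain ⟨hΞ, hbrody, hpicard, hstr, hkob⟩ := four_of_orderTwo hP hz hsm hgt
    (orderTwo_formN hP hz hsm hgt hw hu hnon (finite_of_hypN hP hz hsm hgt hw hu hnon hw' hle hform))
  refine ⟨⟨hΞ.1, hΞ.2, ?_, hpicard, hbrody, hstr⟩, hkob⟩
  intro k _ hk
  have h4 := Pool.Agent.H17EF.two_of_basis ⟨z, hz⟩ hk
  subst h4
  exact hgt

end Pool.Agent.H17N
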